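import Pool.Agent.W266.NS.Half

/-!
Sobolev embedding of `H^(r/2)` in `L^p`, `p = 6 / (3 - r)`, `0 < r < 3`, for Fourier series.
-/

open MeasureTheory Set Filter Topology
open H459R3.NS

namespace Pool.Agent.W266.NS

/-- the weight `max (1, |k|)` -/
noncomputable def W (k : K3) : ℝ := max 1 (N k)

theorem one_le_W (k : K3) : 1 ≤ W k := le_max_left _ _

theorem W_pos (k : K3) : 0 < W k := one_pos.trans_le (one_le_W k)

theorem N_le_W (k : K3) : (N k : ℝ) ≤ W k := le_max_right _ _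

theorem W_le (k : K3) : W k ≤ 1 + N k := max_le (by linarith [(Nat.cast_nonneg (N k) : (0:ℝ) ≤ N k)])
  (by linarith)

theorem W_eq {k : K3} (h : 1 ≤ N k) : W k = N k := max_eq_right (by exact_mod_cast h)

/-- weighted sum of squares -/
noncomputable def Xs (r : ℝ) (a : K3 → ℂ) : ℝ := ∑' k, W k ^ r * ‖a k‖ ^ 2

theorem Xs_nonneg (r : ℝ) (a : K3 → ℂ) : 0 ≤ Xs r a :=
  tsum_nonneg fun k => mul_nonneg (Real.rpow_nonneg (W_pos k).le _) (sq_nonneg _)

theorem W_rpow_le {r : ℝ} {m : ℕ} (hr : r ≤ m) (k : K3) : W k ^ r ≤ 2 ^ m * (1 + (N k : ℝ) ^ m) := by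
  calc W k ^ r ≤ W k ^ (m : ℝ) := Real.rpow_le_rpow_of_exponent_le (one_le_W k) hr
    _ = W k ^ m := Real.rpow_natCast _ _
    _ ≤ 2 ^ m * (1 + (N k : ℝ) ^ m) := by
      have hN : (0 : ℝ) ≤ N k := by positivity
      rcases le_total 1 (N k : ℝ) with h | h
      · have e : W k = N k := max_eq_right h
        rw [e]
        have h1 : (1 : ℝ) ≤ 2 ^ m := one_le_pow₀ (by norm_num)
        nlinarith [pow_nonneg hN m]
      · have e : W k = 1 := max_eq_left h
        rw [e, one_pow]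
        have h1 : (1 : ℝ) ≤ 2 ^ m := one_le_pow₀ (by norm_num)
        nlinarith [pow_nonneg hN m]

theorem summable_Xs {r : ℝ} {a : K3 → ℂ} (ha : Rap a) :
    Summable fun k => W k ^ r * ‖a k‖ ^ 2 := by
  obtain ⟨m, hm⟩ := exists_nat_ge r
  have hA : ∀ k, ‖a k‖ ≤ ∑' l, ‖a l‖ := fun k =>
    ha.summable.norm.le_tsum k fun _ _ => norm_nonneg _
  set A := ∑' l, ‖a l‖ with hAdef
  have hA0 : 0 ≤ A := (norm_nonneg _).trans (hA 0)
  have h0 : Summable fun k => 2 ^ m * A * (‖a k‖ + (N k : ℝ) ^ m * ‖a k‖) :=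
    ((ha.summable.norm).add (ha m)).mul_left _
  refine Summable.of_nonneg_of_le (fun k => mul_nonneg (Real.rpow_nonneg (W_pos k).le _)
    (sq_nonneg _)) (fun k => ?_) h0
  have hW := W_rpow_le hm k
  calc W k ^ r * ‖a k‖ ^ 2 ≤ (2 ^ m * (1 + (N k : ℝ) ^ m)) * (A * ‖a k‖) := by
        rw [sq]
        gcongr
        exact hA k
    _ = _ := by ring

/-- the box `N k < 2 ^ n` -/
noncomputable def F (n : ℕ) : Finset K3 :=
  Finset.Icc (fun _ => -((2 : ℤ) ^ n - 1)) (fun _ => (2 : ℤ) ^ n - 1)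

theorem mem_F {n : ℕ} {k : K3} : k ∈ F n ↔ N k < 2 ^ n := by
  unfold F
  rw [Finset.mem_Icc, Pi.le_def, Pi.le_def]
  have h1 : N k < 2 ^ n ↔ N k ≤ 2 ^ n - 1 := by
    have : 0 < 2 ^ n := by positivity
    omega
  rw [h1, N_le_iff]
  have h2 : ((2 ^ n - 1 : ℕ) : ℤ) = 2 ^ n - 1 := by
    have : 1 ≤ 2 ^ n := Nat.one_le_two_pow
    push_cast [this]
    ring
  rw [h2]
  constructor
  · rintro ⟨h, h'⟩ j
    exact abs_le.2 ⟨h j, h' j⟩
  · intro h
    exact ⟨fun j => (abs_le.1 (h j)).1, fun j => (abs_le.1 (h j)).2⟩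

theorem F_mono (n : ℕ) : F n ⊆ F (n + 1) := by
  intro k hk
  rw [mem_F] at hk ⊢
  exact hk.trans (Nat.pow_lt_pow_right (by norm_num) (Nat.lt_succ_self n))

theorem card_F (n : ℕ) : ((F n).card : ℝ) ≤ 8 * 8 ^ n := by
  unfold F
  rw [Pi.card_Icc]
  simp only [Int.card_Icc, Finset.prod_const, Finset.card_univ, Fintype.card_fin]
  have h1 : ((2 : ℤ) ^ n - 1 + 1 - -((2 : ℤ) ^ n - 1)).toNat ≤ 2 * 2 ^ n := by
    rw [Int.toNat_le]
    push_cast
    linarith
  have h2 : ((((2 : ℤ) ^ n - 1 + 1 - -((2 : ℤ) ^ n - 1)).toNat ^ 3 : ℕ) : ℝ)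
      ≤ ((2 * 2 ^ n) ^ 3 : ℕ) := by
    exact_mod_cast Nat.pow_le_pow_left h1 3
  refine h2.trans (le_of_eq ?_)
  push_cast
  rw [mul_pow, ← pow_mul, mul_comm n 3, pow_mul]
  norm_num

section emb

variable {r : ℝ}

/-- sum of the inverse weights over a box -/
theorem sum_W_le (hr0 : 0 < r) (hr3 : r < 3) (n : ℕ) :
    ∑ k ∈ F n, W k ^ (-r) ≤ (1 + 64 / ((2 : ℝ) ^ (3 - r) - 1)) * ((2 : ℝ) ^ (3 - r)) ^ n := by
  set q : ℝ := (2 : ℝ) ^ (3 - r) with hq
  have hq1 : 1 < q := Real.one_lt_rpow (by norm_num) (by linarith)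
  have hpos : 0 ≤ 64 / (q - 1) := by
    apply div_nonneg (by norm_num)
    linarith
  induction n with
  | zero =>
    have e : F 0 = {0} := by
      ext k
      rw [mem_F, pow_zero, Nat.lt_one_iff, N_eq_zero, Finset.mem_singleton]
    rw [e, Finset.sum_singleton, pow_zero, mul_one]
    have : W 0 = 1 := by
      unfold W
      rw [N_eq_zero.2 rfl]
      simp
    rw [this, Real.one_rpow]
    linarith
  | succ n ih =>
    rw [← Finset.sum_sdiff (F_mono n)]
    have h1 : ∑ k ∈ F (n + 1) \ F n, W k ^ (-r) ≤ 64 * q ^ n := by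
      have h2 : ∀ k ∈ F (n + 1) \ F n, W k ^ (-r) ≤ ((2 : ℝ) ^ n) ^ (-r) := by
        intro k hk
        rw [Finset.mem_sdiff, mem_F, mem_F, not_lt] at hk
        apply Real.rpow_le_rpow_of_nonpos (by positivity) _ (by linarith)
        have : ((2 ^ n : ℕ) : ℝ) ≤ N k := by exact_mod_cast hk.2
        push_cast at this
        exact this.trans (N_le_W k)
      refine (Finset.sum_le_card_nsmul _ _ _ h2).trans ?_
      rw [nsmul_eq_mul]
      have h3 : ((F (n + 1) \ F n).card : ℝ) ≤ 64 * 8 ^ n := by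
        have h4 : ((F (n + 1) \ F n).card : ℝ) ≤ (F (n + 1)).card := by
          exact_mod_cast Finset.card_le_card Finset.sdiff_subset
        have h5 := card_F (n + 1)
        rw [pow_succ] at h5
        linarith
      have e : q ^ n = 8 ^ n * ((2 : ℝ) ^ n) ^ (-r) := by
        rw [hq, Real.rpow_sub (by norm_num), div_pow, Real.rpow_neg (by positivity),
          ← Real.rpow_natCast 2 n, ← Real.rpow_mul (by norm_num), mul_comm (n : ℝ) r,
          Real.rpow_mul (by norm_num), Real.rpow_natCast, div_eq_mul_inv]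
        norm_num
      rw [e]
      have h6 : 0 ≤ ((2 : ℝ) ^ n) ^ (-r) := by positivity
      calc ((F (n + 1) \ F n).card : ℝ) * ((2 : ℝ) ^ n) ^ (-r)
          ≤ (64 * 8 ^ n) * ((2 : ℝ) ^ n) ^ (-r) := by gcongr
        _ = _ := by ring
    have hqn : 0 ≤ q ^ n := by positivity
    have h7 : 64 / (q - 1) * (q - 1) = 64 := div_mul_cancel₀ _ (by linarith)
    have h8 : (1 + 64 / (q - 1)) * q ^ (n + 1) - (1 + 64 / (q - 1)) * q ^ n
        = q ^ n * ((q - 1) + 64 / (q - 1) * (q - 1)) := by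
      rw [pow_succ]; ring
    rw [h7] at h8
    nlinarith

end emb

end Pool.Agent.W266.NS
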