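import Pool.Agent.W266.NS.Emb

/-!
Sobolev embedding of `H^(r/2)` in `L^p`, `p = 6 / (3 - r)`, `0 < r < 3`, continued.
-/

open MeasureTheory Set Filter Topology
open H459R3.NS

namespace Pool.Agent.W266.NS

variable {r : ℝ}

noncomputable def Kc (r : ℝ) : ℝ := Real.sqrt (1 + 64 / ((2 : ℝ) ^ (3 - r) - 1))

noncomputable def rho (r : ℝ) : ℝ := (2 : ℝ) ^ ((3 - r) / 2)

theorem rho_sq (r : ℝ) : rho r ^ 2 = (2 : ℝ) ^ (3 - r) := by
  rw [rho, ← Real.rpow_natCast, ← Real.rpow_mul (by norm_num)]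
  congr 1
  push_cast
  ring

theorem one_lt_rho (hr3 : r < 3) : 1 < rho r := Real.one_lt_rpow (by norm_num) (by linarith)

theorem Kc_sq (hr3 : r < 3) : Kc r ^ 2 = 1 + 64 / ((2 : ℝ) ^ (3 - r) - 1) := by
  have hq1 : 1 < (2 : ℝ) ^ (3 - r) := Real.one_lt_rpow (by norm_num) (by linarith)
  refine Real.sq_sqrt ?_
  have : 0 ≤ 64 / ((2 : ℝ) ^ (3 - r) - 1) := div_nonneg (by norm_num) (by linarith)
  linarith

theorem Kc_pos (hr3 : r < 3) : 0 < Kc r := by
  have hq1 : 1 < (2 : ℝ) ^ (3 - r) := Real.one_lt_rpow (by norm_num) (by linarith)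
  refine Real.sqrt_pos.2 ?_
  have : 0 ≤ 64 / ((2 : ℝ) ^ (3 - r) - 1) := div_nonneg (by norm_num) (by linarith)
  linarith

theorem sum_F_le (hr0 : 0 < r) (hr3 : r < 3) {a : K3 → ℂ} (ha : Rap a) (n : ℕ) :
    ∑ k ∈ F n, ‖a k‖ ≤ Kc r * Real.sqrt (Xs r a) * rho r ^ n := by
  have h1 : (∑ k ∈ F n, ‖a k‖) ^ 2 ≤ (Kc r * Real.sqrt (Xs r a) * rho r ^ n) ^ 2 := by
    have e : ∀ k, ‖a k‖ = W k ^ (-r / 2) * (W k ^ (r / 2) * ‖a k‖) := by
      intro k
      rw [← mul_assoc, ← Real.rpow_add (W_pos k)]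
      rw [show -r / 2 + r / 2 = 0 by ring, Real.rpow_zero, one_mul]
    have h2 := Finset.sum_mul_sq_le_sq_mul_sq (F n) (fun k => W k ^ (-r / 2))
      (fun k => W k ^ (r / 2) * ‖a k‖)
    simp_rw [← e] at h2
    refine h2.trans ?_
    have h3 : ∑ k ∈ F n, (W k ^ (-r / 2)) ^ 2 = ∑ k ∈ F n, W k ^ (-r) := by
      refine Finset.sum_congr rfl fun k _ => ?_
      rw [← Real.rpow_natCast, ← Real.rpow_mul (W_pos k).le]
      congr 1
      push_cast
      ring
    have h4 : ∑ k ∈ F n, (W k ^ (r / 2) * ‖a k‖) ^ 2 ≤ Xs r a := by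
      have : ∀ k, (W k ^ (r / 2) * ‖a k‖) ^ 2 = W k ^ r * ‖a k‖ ^ 2 := by
        intro k
        rw [mul_pow, ← Real.rpow_natCast (W k ^ (r / 2)), ← Real.rpow_mul (W_pos k).le]
        congr 2
        push_cast
        ring
      simp_rw [this]
      exact (summable_Xs ha).sum_le_tsum _ fun k _ =>
        mul_nonneg (Real.rpow_nonneg (W_pos k).le _) (sq_nonneg _)
    rw [h3]
    have h5 := sum_W_le hr0 hr3 n
    have h6 : 0 ≤ ∑ k ∈ F n, (W k ^ (r / 2) * ‖a k‖) ^ 2 :=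
      Finset.sum_nonneg fun _ _ => sq_nonneg _
    rw [mul_pow, mul_pow, Real.sq_sqrt (Xs_nonneg r a), Kc_sq hr3, ← pow_mul, mul_comm n 2, pow_mul,
      rho_sq]
    calc (∑ k ∈ F n, W k ^ (-r)) * ∑ k ∈ F n, (W k ^ (r / 2) * ‖a k‖) ^ 2
        ≤ ((1 + 64 / ((2 : ℝ) ^ (3 - r) - 1)) * ((2 : ℝ) ^ (3 - r)) ^ n) * Xs r a := by
          have h7 : 0 ≤ (1 + 64 / ((2 : ℝ) ^ (3 - r) - 1)) * ((2 : ℝ) ^ (3 - r)) ^ n :=
            (Finset.sum_nonneg fun k _ => Real.rpow_nonneg (W_pos k).le _).trans h5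
          exact mul_le_mul h5 h4 h6 h7
      _ = _ := by ring
  have h0 : 0 ≤ Kc r * Real.sqrt (Xs r a) * rho r ^ n := by
    have := Kc_pos hr3
    have := one_lt_rho hr3
    positivity
  exact (sq_le_sq₀ (Finset.sum_nonneg fun _ _ => norm_nonneg _) h0).1 h1

theorem S_ind_le {a : K3 → ℂ} (ha : Rap a) (n : ℕ) (x : V) :
    ‖S ((F n : Set K3).indicator a) x‖ ≤ ∑ k ∈ F n, ‖a k‖ := by
  refine (norm_S_le (ha.ind _).summable x).trans (le_of_eq ?_)
  rw [tsum_eq_sum (s := F n)]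
  · refine Finset.sum_congr rfl fun k hk => ?_
    rw [indicator_of_mem (Finset.mem_coe.2 hk)]
  · intro k hk
    rw [indicator_of_notMem (fun h => hk (Finset.mem_coe.1 h)), norm_zero]

theorem S_split {a : K3 → ℂ} (ha : Rap a) (R : Set K3) (x : V) :
    S a x = S (R.indicator a) x + S (Rᶜ.indicator a) x := by
  unfold S
  rw [← (summable_term (ha.ind R).summable x).tsum_add (summable_term (ha.ind Rᶜ).summable x)]
  refine tsum_congr fun k => ?_
  rw [← add_mul]
  congr 1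
  exact (congrFun (indicator_self_add_compl R a) k).symm

theorem geom_le {b y r : ℝ} (hb : b = 2 ^ r) (hr : 0 < r) (hy : 0 ≤ y) (n : ℕ) :
    ∑ m ∈ Finset.range n, (if (2 : ℝ) ^ m ≤ y then b ^ m else 0) ≤ b / (b - 1) * y ^ r := by
  have hb1 : 1 < b := by rw [hb]; exact Real.one_lt_rpow (by norm_num) hr
  have hb0 : 0 < b / (b - 1) := div_pos (by linarith) (by linarith)
  induction n with
  | zero =>
    rw [Finset.range_zero, Finset.sum_empty]
    positivity
  | succ n ih =>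
    by_cases h : (2 : ℝ) ^ n ≤ y
    · have h1 : ∑ m ∈ Finset.range (n + 1), (if (2 : ℝ) ^ m ≤ y then b ^ m else 0)
          ≤ ∑ m ∈ Finset.range (n + 1), b ^ m := by
        refine Finset.sum_le_sum fun m _ => ?_
        split_ifs
        · exact le_rfl
        · positivity
      refine h1.trans ?_
      rw [geom_sum_eq hb1.ne']
      have h2 : b ^ n ≤ y ^ r := by
        have : b ^ n = ((2 : ℝ) ^ n) ^ r := by
          rw [hb, ← Real.rpow_natCast, ← Real.rpow_mul (by norm_num), mul_comm, Real.rpow_mul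
            (by norm_num), Real.rpow_natCast]
        rw [this]
        exact Real.rpow_le_rpow (by positivity) h hr.le
      rw [div_mul_eq_mul_div]
      apply div_le_div_of_nonneg_right _ (by linarith)
      rw [pow_succ]
      nlinarith
    · rw [Finset.sum_range_succ, if_neg h, add_zero]
      exact ih

/-- the pointwise inequality -/
theorem pointwise {M : ℕ → ℝ} (hM : ∀ n, 0 < M n) {p : ℝ} (hp : 0 ≤ p) {y : ℝ} (hy : 0 ≤ y)
    {z : ℕ → ℝ} (hz : ∀ n, y ≤ M n + z n) {n0 : ℕ} (hn : y ≤ 2 * M n0) :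
    y ^ p ≤ (2 * M 0) ^ p + ∑ m ∈ Finset.range n0, (2 * M (m + 1)) ^ p / M m ^ 2 * z m ^ 2 := by
  have hnn : ∀ m, 0 ≤ (2 * M (m + 1)) ^ p / M m ^ 2 * z m ^ 2 := fun m => by
    have := hM m
    have := hM (m + 1)
    positivity
  classical
  have hex : ∃ n, y ≤ 2 * M n := ⟨n0, hn⟩
  rcases Nat.eq_zero_or_pos (Nat.find hex) with h | h
  · have h1 := Nat.find_spec hex
    rw [h] at h1
    have h2 : y ^ p ≤ (2 * M 0) ^ p := Real.rpow_le_rpow hy h1 hp
    have := Finset.sum_nonneg fun m (_ : m ∈ Finset.range n0) => hnn m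
    linarith
  · obtain ⟨m, hm⟩ : ∃ m, Nat.find hex = m + 1 := ⟨Nat.find hex - 1, by omega⟩
    have h1 := Nat.find_spec hex
    rw [hm] at h1
    have h2 : ¬ y ≤ 2 * M m := Nat.find_min hex (by omega)
    have h3 : m < n0 := by
      have := Nat.find_min' hex hn
      omega
    have h4 : M m ≤ z m := by linarith [hz m]
    have h5 : (2 * M (m + 1)) ^ p ≤ (2 * M (m + 1)) ^ p / M m ^ 2 * z m ^ 2 := by
      rw [div_mul_eq_mul_div, le_div_iff₀ (pow_pos (hM m) 2)]
      have : M m ^ 2 ≤ z m ^ 2 := pow_le_pow_left₀ (hM m).le h4 2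
      have h6 := hM (m + 1)
      gcongr
    have h6 : y ^ p ≤ (2 * M (m + 1)) ^ p := Real.rpow_le_rpow hy h1 hp
    have h7 := Finset.single_le_sum (fun m _ => hnn m) (Finset.mem_range.2 h3)
    have h8 : 0 ≤ (2 * M 0) ^ p := by
      have := hM 0
      positivity
    linarith

theorem n2_compl (a : K3 → ℂ) (m : ℕ) :
    n2 ((F m : Set K3)ᶜ.indicator a) ^ 2
      = ∑' k, (if (2 : ℝ) ^ m ≤ N k then ‖a k‖ ^ 2 else 0) := by
  rw [n2_sq]
  refine tsum_congr fun k => ?_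
  by_cases hk : k ∈ F m
  · have h1 : ¬ (2 : ℝ) ^ m ≤ N k := by
      rw [mem_F] at hk
      rw [not_le]
      exact_mod_cast hk
    rw [if_neg h1, indicator_of_notMem (by simpa using hk)]
    simp
  · have h1 : (2 : ℝ) ^ m ≤ N k := by
      rw [mem_F, not_lt] at hk
      exact_mod_cast hk
    rw [if_pos h1, indicator_of_mem (by simpa using hk)]

theorem sum_tail_le {a : K3 → ℂ} (ha : Rap a) (hr0 : 0 < r) (n : ℕ) :
    ∑ m ∈ Finset.range n, ((2 : ℝ) ^ r) ^ m * n2 ((F m : Set K3)ᶜ.indicator a) ^ 2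
      ≤ (2 : ℝ) ^ r / ((2 : ℝ) ^ r - 1) * Xs r a := by
  set b : ℝ := (2 : ℝ) ^ r with hb
  have hs : ∀ m, Summable fun k => (if (2 : ℝ) ^ m ≤ N k then ‖a k‖ ^ 2 else 0) := fun m =>
    Summable.of_nonneg_of_le (fun k => by split_ifs <;> positivity)
      (fun k => by split_ifs; exacts [le_rfl, by positivity]) (summable_sq ha.summable)
  have h1 : ∑ m ∈ Finset.range n, b ^ m * n2 ((F m : Set K3)ᶜ.indicator a) ^ 2
      = ∑' k, (∑ m ∈ Finset.range n, (if (2 : ℝ) ^ m ≤ N k then b ^ m else 0)) * ‖a k‖ ^ 2 := by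
    simp_rw [n2_compl a, ← tsum_mul_left]
    rw [← Summable.tsum_finsetSum fun m _ => (hs m).mul_left _]
    refine tsum_congr fun k => ?_
    rw [Finset.sum_mul]
    refine Finset.sum_congr rfl fun m _ => ?_
    split_ifs <;> ring
  rw [h1, Xs, ← tsum_mul_left]
  have hle : ∀ k, (∑ m ∈ Finset.range n, (if (2 : ℝ) ^ m ≤ N k then b ^ m else 0)) * ‖a k‖ ^ 2
      ≤ b / (b - 1) * (W k ^ r * ‖a k‖ ^ 2) := by
    intro k
    have h2 := geom_le hb hr0 (y := (N k : ℝ)) (by positivity) n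
    have hb1 : 1 < b := by rw [hb]; exact Real.one_lt_rpow (by norm_num) hr0
    have hb0 : 0 < b / (b - 1) := div_pos (by linarith) (by linarith)
    have h3 : (N k : ℝ) ^ r ≤ W k ^ r := Real.rpow_le_rpow (by positivity) (N_le_W k) hr0.le
    calc _ ≤ (b / (b - 1) * (N k : ℝ) ^ r) * ‖a k‖ ^ 2 := by gcongr
      _ ≤ (b / (b - 1) * W k ^ r) * ‖a k‖ ^ 2 := by gcongr
      _ = _ := by ring
  have hnn : ∀ k, 0 ≤ (∑ m ∈ Finset.range n, (if (2 : ℝ) ^ m ≤ N k then b ^ m else 0))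
      * ‖a k‖ ^ 2 := fun k => by
    refine mul_nonneg (Finset.sum_nonneg fun m _ => ?_) (sq_nonneg _)
    split_ifs
    · rw [hb]; positivity
    · exact le_rfl
  have hsum := (summable_Xs (r := r) ha).mul_left (b / (b - 1))
  exact Summable.tsum_le_tsum hle (Summable.of_nonneg_of_le hnn hle hsum) hsum

theorem Rap_eq_zero {a : K3 → ℂ} (ha : Rap a) (h : Xs r a = 0) (k : K3) : a k = 0 := by
  have h1 := (summable_Xs (r := r) ha).hasSum
  rw [show ∑' k, W k ^ r * ‖a k‖ ^ 2 = 0 from h] at h1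
  have h2 := (hasSum_zero_iff_of_nonneg fun k => mul_nonneg (Real.rpow_nonneg (W_pos k).le _)
    (sq_nonneg _)).1 h1
  have h3 := congrFun h2 k
  simp only [Pi.zero_apply] at h3
  rcases mul_eq_zero.1 h3 with h4 | h4
  · exact absurd h4 (Real.rpow_pos_of_pos (W_pos k) _).ne'
  · exact norm_eq_zero.1 (pow_eq_zero_iff (two_ne_zero) |>.1 h4)

/-- **Sobolev embedding** -/
theorem emb (hr0 : 0 < r) (hr3 : r < 3) : ∃ C : ℝ, 0 ≤ C ∧ ∀ a : K3 → ℂ, Rap a →
    ∫ x in cube, ‖S a x‖ ^ (6 / (3 - r)) ≤ C * Real.sqrt (Xs r a) ^ (6 / (3 - r)) := by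
  set p : ℝ := 6 / (3 - r) with hp
  have h3r : 0 < 3 - r := by linarith
  have hp0 : 0 < p := by positivity
  set b : ℝ := (2 : ℝ) ^ r with hb
  have hb1 : 1 < b := Real.one_lt_rpow (by norm_num) hr0
  have hK := Kc_pos hr3
  have hρ := one_lt_rho hr3
  refine ⟨(2 * Kc r) ^ p + (2 * Kc r * rho r) ^ p / Kc r ^ 2 * (b / (b - 1)), ?_, fun a ha => ?_⟩
  · have : 0 < b / (b - 1) := div_pos (by linarith) (by linarith)
    positivity
  rcases (Xs_nonneg r a).eq_or_lt with hX | hX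
  · have h0 := Rap_eq_zero ha hX.symm
    have : ∀ x, ‖S a x‖ ^ p = 0 := by
      intro x
      have : S a x = 0 := by
        unfold S
        simp [h0]
      rw [this, norm_zero, Real.zero_rpow hp0.ne']
    simp_rw [this]
    rw [← hX, Real.sqrt_zero, Real.zero_rpow hp0.ne']
    simp
  set s : ℝ := Real.sqrt (Xs r a) with hs
  have hs0 : 0 < s := Real.sqrt_pos.2 hX
  set M : ℕ → ℝ := fun n => Kc r * s * rho r ^ n with hM
  have hM0 : ∀ n, 0 < M n := fun n => by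
    simp only [hM]
    positivity
  obtain ⟨n0, hn0⟩ : ∃ n0, ∑' k, ‖a k‖ ≤ 2 * M n0 := by
    obtain ⟨n, hn⟩ := pow_unbounded_of_one_lt ((∑' k, ‖a k‖) / (2 * (Kc r * s))) hρ
    refine ⟨n, ?_⟩
    rw [div_lt_iff₀ (by positivity)] at hn
    simp only [hM]
    linarith
  have hpt : ∀ x, ‖S a x‖ ^ p ≤ (2 * M 0) ^ p
      + ∑ m ∈ Finset.range n0, (2 * M (m + 1)) ^ p / M m ^ 2
        * ‖S ((F m : Set K3)ᶜ.indicator a) x‖ ^ 2 := by
    intro x
    refine pointwise (z := fun m => ‖S ((F m : Set K3)ᶜ.indicator a) x‖) hM0 hp0.le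
      (norm_nonneg _) (fun n => ?_) ((norm_S_le ha.summable x).trans hn0)
    rw [S_split ha (F n) x]
    refine (norm_add_le _ _).trans (add_le_add ?_ le_rfl)
    exact (S_ind_le ha n x).trans (sum_F_le hr0 hr3 ha n)
  have hcS : ∀ m, Continuous fun x => ‖S ((F m : Set K3)ᶜ.indicator a) x‖ ^ 2 := fun m =>
    (S_continuous (ha.ind _).summable).norm.pow 2
  have hc0 : Continuous fun x => ‖S a x‖ ^ p :=
    (S_continuous ha.summable).norm.rpow_const fun _ => Or.inr hp0.le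
  have hfin := cube_finite
  have i1 : Integrable (fun _ : V => (2 * M 0) ^ p) (volume.restrict cube) := integrable_const _
  have i2 : ∀ m ∈ Finset.range n0, Integrable (fun x => (2 * M (m + 1)) ^ p / M m ^ 2
        * ‖S ((F m : Set K3)ᶜ.indicator a) x‖ ^ 2) (volume.restrict cube) := fun m _ =>
    (integrableOn_cube (hcS m)).const_mul _
  have h1 : ∫ x in cube, ‖S a x‖ ^ p ≤ (2 * M 0) ^ p
      + ∑ m ∈ Finset.range n0, (2 * M (m + 1)) ^ p / M m ^ 2
        * n2 ((F m : Set K3)ᶜ.indicator a) ^ 2 := by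
    refine (integral_mono (integrableOn_cube hc0) (i1.add (integrable_finsetSum _ i2)) hpt).trans
      (le_of_eq ?_)
    simp only [Pi.add_apply]
    rw [integral_add i1 (integrable_finsetSum _ i2), integral_finsetSum _ i2]
    congr 1
    · rw [setIntegral_const, measureReal_def, volume_cube]
      simp
    · refine Finset.sum_congr rfl fun m _ => ?_
      rw [integral_const_mul, integral_norm_sq (ha.ind _).summable]
  refine h1.trans ?_
  have e1 : ∀ m, (2 * M (m + 1)) ^ p / M m ^ 2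
      = (2 * Kc r * rho r) ^ p / Kc r ^ 2 * (s ^ p / s ^ 2) * b ^ m := by
    intro m
    simp only [hM]
    have e2 : 2 * (Kc r * s * rho r ^ (m + 1)) = (2 * Kc r * rho r) * s * rho r ^ m := by
      rw [pow_succ]; ring
    have e3 : (rho r ^ m) ^ p = b ^ m * (rho r ^ m) ^ 2 := by
      have : (rho r ^ m) ^ p = (rho r ^ m) ^ (p - 2) * (rho r ^ m) ^ 2 := by
        rw [← Real.rpow_natCast (rho r ^ m) 2, ← Real.rpow_add (by positivity)]
        congr 1
        push_cast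
        ring
      rw [this]
      congr 1
      have e6 : rho r ^ m = (2 : ℝ) ^ ((3 - r) / 2 * m) := by
        rw [rho, ← Real.rpow_natCast, ← Real.rpow_mul (by norm_num)]
      have e7 : b ^ m = (2 : ℝ) ^ (r * m) := by
        rw [hb, ← Real.rpow_natCast, ← Real.rpow_mul (by norm_num)]
      rw [e6, ← Real.rpow_mul (by norm_num), e7]
      congr 1
      rw [hp]
      field_simp
      ring
    rw [e2, Real.mul_rpow (by positivity) (by positivity), Real.mul_rpow (by positivity)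
      (by positivity), e3]
    have hρm : rho r ^ m ≠ 0 := by positivity
    field_simp
  simp_rw [e1]
  have h2 := sum_tail_le (r := r) ha hr0 n0
  have e4 : ∑ m ∈ Finset.range n0, (2 * Kc r * rho r) ^ p / Kc r ^ 2 * (s ^ p / s ^ 2) * b ^ m
        * n2 ((F m : Set K3)ᶜ.indicator a) ^ 2
      = (2 * Kc r * rho r) ^ p / Kc r ^ 2 * (s ^ p / s ^ 2)
        * ∑ m ∈ Finset.range n0, b ^ m * n2 ((F m : Set K3)ᶜ.indicator a) ^ 2 := by
    rw [Finset.mul_sum]
    exact Finset.sum_congr rfl fun m _ => by ring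
  rw [e4]
  have e5 : (2 * M 0) ^ p = (2 * Kc r) ^ p * s ^ p := by
    simp only [hM]
    rw [pow_zero, mul_one, ← mul_assoc, Real.mul_rpow (by positivity) (by positivity)]
  rw [e5]
  have hXs : Xs r a = s ^ 2 := (Real.sq_sqrt hX.le).symm
  calc (2 * Kc r) ^ p * s ^ p + (2 * Kc r * rho r) ^ p / Kc r ^ 2 * (s ^ p / s ^ 2)
        * ∑ m ∈ Finset.range n0, b ^ m * n2 ((F m : Set K3)ᶜ.indicator a) ^ 2
      ≤ (2 * Kc r) ^ p * s ^ p + (2 * Kc r * rho r) ^ p / Kc r ^ 2 * (s ^ p / s ^ 2)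
        * (b / (b - 1) * Xs r a) := by
        gcongr
    _ = _ := by
        rw [hXs]
        field_simp

end Pool.Agent.W266.NS
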