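import Pool.Agent.W266.NS.Lam

/-!
Time derivatives of weighted sums of squares of Fourier coefficients.
-/

open MeasureTheory Set Filter Topology
open scoped ContDiff
open H459R3.NS

namespace Pool.Agent.W266.NS

/-- a summable weight -/
noncomputable def wq (k : K3) : ℝ :=
  (1 / (1 + (k 0 : ℝ) ^ 2)) * ((1 / (1 + (k 1 : ℝ) ^ 2)) * (1 / (1 + (k 2 : ℝ) ^ 2)))

theorem wq_nonneg (k : K3) : 0 ≤ wq k := by unfold wq; positivity

theorem summable_wq : Summable wq := summable_K3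

theorem wq_le_one (k : K3) : wq k ≤ 1 := by
  have h : ∀ j : Fin 3, 1 / (1 + (k j : ℝ) ^ 2) ≤ 1 := fun j => by
    rw [div_le_one (by positivity)]
    nlinarith [sq_nonneg (k j : ℝ)]
  have h' : ∀ j : Fin 3, 0 ≤ 1 / (1 + (k j : ℝ) ^ 2) := fun j => by positivity
  unfold wq
  calc _ ≤ (1 : ℝ) * (1 * 1) := by
        gcongr
        · exact h 0
        · exact h 1
        · exact h 2
    _ = 1 := by norm_num

theorem le_wq {x : ℝ} (hx : 0 ≤ x) {k : K3} {C0 C1 : ℝ} (h0 : x ≤ C0)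
    (h6 : (N k : ℝ) ^ 6 * x ≤ C1) : x ≤ 64 * (C0 + C1) * wq k := by
  have hN : (0 : ℝ) ≤ N k := by positivity
  have h2 : (1 + (N k : ℝ)) ^ 6 ≤ 64 * (1 + (N k : ℝ) ^ 6) := by
    rcases le_total (N k : ℝ) 1 with h | h
    · have : (1 + (N k : ℝ)) ^ 6 ≤ (1 + 1) ^ 6 := by gcongr
      nlinarith [pow_nonneg hN 6]
    · have : (1 + (N k : ℝ)) ^ 6 ≤ ((N k : ℝ) + (N k : ℝ)) ^ 6 := by gcongr
      have e : ((N k : ℝ) + (N k : ℝ)) ^ 6 = 64 * (N k : ℝ) ^ 6 := by ring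
      linarith
  have h1 : (1 + (N k : ℝ)) ^ 6 * x ≤ 64 * (C0 + C1) := by
    calc (1 + (N k : ℝ)) ^ 6 * x ≤ (64 * (1 + (N k : ℝ) ^ 6)) * x := by gcongr
      _ = 64 * (x + (N k : ℝ) ^ 6 * x) := by ring
      _ ≤ 64 * (C0 + C1) := by linarith
  have h0' := one_add_sq_le k 0
  have h1' := one_add_sq_le k 1
  have h2' := one_add_sq_le k 2
  have hprod : (1 + (k 0 : ℝ) ^ 2) * ((1 + (k 1 : ℝ) ^ 2) * (1 + (k 2 : ℝ) ^ 2))
      ≤ (1 + (N k : ℝ)) ^ 6 := by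
    calc (1 + (k 0 : ℝ) ^ 2) * ((1 + (k 1 : ℝ) ^ 2) * (1 + (k 2 : ℝ) ^ 2))
        ≤ (1 + (N k : ℝ)) ^ 2 * ((1 + (N k : ℝ)) ^ 2 * (1 + (N k : ℝ)) ^ 2) := by gcongr
      _ = _ := by ring
  have hP : (0 : ℝ) < (1 + (k 0 : ℝ) ^ 2) * ((1 + (k 1 : ℝ) ^ 2) * (1 + (k 2 : ℝ) ^ 2)) := by
    positivity
  have e : 64 * (C0 + C1) * wq k
    = (64 * (C0 + C1)) / ((1 + (k 0 : ℝ) ^ 2) * ((1 + (k 1 : ℝ) ^ 2) * (1 + (k 2 : ℝ) ^ 2))) := by
    unfold wq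
    field_simp
  rw [e, le_div_iff₀ hP, mul_comm]
  exact (mul_le_mul_of_nonneg_right hprod hx).trans h1

theorem unif_wq {A : ℝ → K3 → ℂ} {K : Set ℝ}
    (h : ∀ n : ℕ, ∃ C, ∀ s ∈ K, ∀ k, (N k : ℝ) ^ n * ‖A s k‖ ≤ C) (m : ℕ) :
    ∃ C, 0 ≤ C ∧ ∀ s ∈ K, ∀ k, (N k : ℝ) ^ m * ‖A s k‖ ≤ C * wq k := by
  obtain ⟨C0, h0⟩ := h m
  obtain ⟨C1, h1⟩ := h (m + 6)
  refine ⟨64 * (|C0| + |C1|), by positivity, fun s hs k => ?_⟩
  refine le_wq (by positivity) ((h0 s hs k).trans (le_abs_self _)) ?_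
  refine le_trans (le_of_eq ?_) ((h1 s hs k).trans (le_abs_self _))
  ring

variable {T : ℝ}

theorem contDiffOn_iter {f : ℝ → V → ℝ}
    (hf : ContDiffOn ℝ ∞ (fun z : ℝ × V => f z.1 z.2) (Ico 0 T ×ˢ univ)) (j : Fin 3) (n : ℕ) :
    ContDiffOn ℝ ∞ (fun z : ℝ × V => ((pd j)^[n] (f z.1)) z.2) (Ico 0 T ×ˢ univ) := by
  induction n with
  | zero => exact hf
  | succ n ih =>
    have h := contDiffOn_pd (f := fun s => (pd j)^[n] (f s)) ih j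
    refine h.congr fun z _ => ?_
    rw [Function.iterate_succ_apply']

theorem dt_iter {f : ℝ → V → ℝ}
    (hf : ContDiffOn ℝ ∞ (fun z : ℝ × V => f z.1 z.2) (Ico 0 T ×ˢ univ)) {t : ℝ}
    (ht : t ∈ Ioo 0 T) (j : Fin 3) (n : ℕ) :
    dt (fun s => (pd j)^[n] (f s)) t = (pd j)^[n] (dt f t) := by
  induction n with
  | zero => rfl
  | succ n ih =>
    funext x
    have h := dt_pd (f := fun s => (pd j)^[n] (f s)) (contDiffOn_iter hf j n) ht j x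
    simp_rw [Function.iterate_succ_apply']
    rw [h, ih]

theorem sp_dt {f : ℝ → V → ℝ}
    (hf : ContDiffOn ℝ ∞ (fun z : ℝ × V => f z.1 z.2) (Ico 0 T ×ˢ univ))
    (hper : ∀ s ∈ Ico 0 T, Per (f s)) {t : ℝ} (ht : t ∈ Ioo 0 T) : SP (dt f t) where
  smooth := contDiff_dt hf ht
  per := fun i x => by
    unfold dt
    apply Filter.EventuallyEq.deriv_eq
    filter_upwards [Ioo_mem_nhds ht.1 ht.2] with s hs
    exact hper s ⟨hs.1.le, hs.2⟩ i x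

theorem norm_fr_le_of_bound {f : V → ℝ} {C : ℝ} (hf : ∀ x ∈ cube, ‖f x‖ ≤ C) (k : K3) :
    ‖fr f k‖ ≤ C := by
  unfold fr fc
  have h := norm_setIntegral_le_of_norm_le_const (μ := volume) (s := cube) (C := C)
    (f := fun x => ee (-k) x * (f x : ℂ)) (by rw [volume_cube]; simp) (fun x hx => by
      rw [norm_mul, norm_ee, one_mul, Complex.norm_real]
      exact hf x hx)
  refine h.trans (le_of_eq ?_)
  rw [measureReal_def, volume_cube]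
  simp

/-- uniform decay from uniform bounds of the pure derivatives -/
theorem unif_decay {A : ℝ → V → ℝ} {K : Set ℝ} (hsp : ∀ s ∈ K, SP (A s))
    (h : ∀ (j : Fin 3) (n : ℕ), ∃ C, ∀ s ∈ K, ∀ x ∈ cube, ‖((pd j)^[n] (A s)) x‖ ≤ C) (n : ℕ) :
    ∃ C, ∀ s ∈ K, ∀ k, (N k : ℝ) ^ n * ‖fr (A s) k‖ ≤ C := by
  choose C hC using fun j => h j n
  refine ⟨∑ j, C j, fun s hs k => ?_⟩
  have h1 : ∀ j, |(k j : ℝ)| ^ n * ‖fr (A s) k‖ ≤ C j := by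
    intro j
    refine le_trans ?_ (norm_fr_le_of_bound (hC j s hs) k)
    rw [fr_iter (hsp s hs), norm_mul, norm_pow]
    gcongr
    rw [norm_mul, norm_mul, norm_mul, Complex.norm_I, mul_one, Complex.norm_real,
      Real.norm_eq_abs, abs_of_pos Real.pi_pos, Complex.norm_ofNat, Complex.norm_intCast]
    have h0 : 0 ≤ |(k j : ℝ)| := abs_nonneg _
    have := Real.pi_gt_three
    nlinarith
  calc (N k : ℝ) ^ n * ‖fr (A s) k‖ ≤ (∑ j, |(k j : ℝ)| ^ n) * ‖fr (A s) k‖ := by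
        gcongr
        exact N_pow_le k n
    _ = ∑ j, |(k j : ℝ)| ^ n * ‖fr (A s) k‖ := Finset.sum_mul _ _ _
    _ ≤ ∑ j, C j := Finset.sum_le_sum fun j _ => h1 j

theorem bound_compact {F : ℝ → V → ℝ} {a b : ℝ} {s : Set ℝ} (hs : Icc a b ⊆ s)
    (hF : ContinuousOn (fun z : ℝ × V => F z.1 z.2) (s ×ˢ univ)) :
    ∃ C, ∀ r ∈ Icc a b, ∀ x ∈ cube, ‖F r x‖ ≤ C := by
  have hK : IsCompact (Icc a b ×ˢ cube) := isCompact_Icc.prod isCompact_Icc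
  have hsub : Icc a b ×ˢ cube ⊆ s ×ˢ (univ : Set V) := prod_mono hs (subset_univ _)
  obtain ⟨C, hC⟩ := hK.exists_bound_of_continuousOn (hF.mono hsub)
  exact ⟨C, fun r hr x hx => hC (r, x) ⟨hr, hx⟩⟩

variable {f : ℝ → V → ℝ}

theorem sp_slice (hf : ContDiffOn ℝ ∞ (fun z : ℝ × V => f z.1 z.2) (Ico 0 T ×ˢ univ))
    (hper : ∀ s ∈ Ico 0 T, Per (f s)) {t : ℝ} (ht : t ∈ Ico 0 T) : SP (f t) where
  smooth := contDiff_slice hf ht
  per := hper t ht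

theorem decay_f (hf : ContDiffOn ℝ ∞ (fun z : ℝ × V => f z.1 z.2) (Ico 0 T ×ˢ univ))
    (hper : ∀ s ∈ Ico 0 T, Per (f s)) {a b : ℝ} (hab : Icc a b ⊆ Ico 0 T) (m : ℕ) :
    ∃ C, 0 ≤ C ∧ ∀ s ∈ Icc a b, ∀ k, (N k : ℝ) ^ m * ‖fr (f s) k‖ ≤ C * wq k := by
  refine unif_wq (A := fun s => fr (f s)) (unif_decay (fun s hs => sp_slice hf hper (hab hs))
    fun j n => ?_) m
  exact bound_compact hab (contDiffOn_iter hf j n).continuousOn

theorem decay_dt (hf : ContDiffOn ℝ ∞ (fun z : ℝ × V => f z.1 z.2) (Ico 0 T ×ˢ univ))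
    (hper : ∀ s ∈ Ico 0 T, Per (f s)) {a b : ℝ} (hab : Icc a b ⊆ Ioo 0 T) (m : ℕ) :
    ∃ C, 0 ≤ C ∧ ∀ s ∈ Icc a b, ∀ k, (N k : ℝ) ^ m * ‖fr (dt f s) k‖ ≤ C * wq k := by
  refine unif_wq (A := fun s => fr (dt f s)) (unif_decay (fun s hs => sp_dt hf hper (hab hs))
    fun j n => ?_) m
  have hO : IsOpen (Ioo 0 T ×ˢ (univ : Set V)) := isOpen_Ioo.prod isOpen_univ
  have hg := contDiffOn_iter hf j n
  have hc : ContinuousOn (fun z : ℝ × V => fderiv ℝ (fun z : ℝ × V =>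
      ((pd j)^[n] (f z.1)) z.2) z (1, 0)) (Ioo 0 T ×ˢ univ) :=
    (((mono_Ioo (f := fun s => (pd j)^[n] (f s)) (n := 1) hg
      (by norm_cast))).continuousOn_fderiv_of_isOpen hO le_rfl).clm_apply continuousOn_const
  obtain ⟨C, hC⟩ := bound_compact (F := fun s x => fderiv ℝ (fun z : ℝ × V =>
      ((pd j)^[n] (f z.1)) z.2) (s, x) (1, 0)) hab hc
  refine ⟨C, fun s hs x hx => ?_⟩
  rw [← dt_iter hf (hab hs) j n, dt_eq (f := fun s => (pd j)^[n] (f s)) hg (hab hs) x]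
  exact hC s hs x hx

end Pool.Agent.W266.NS
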