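import Pool.Agent.W266.NS.Evo2

/-!
Time derivatives of weighted sums of squares of Fourier coefficients, continued.
-/

open MeasureTheory Set Filter Topology
open scoped ContDiff
open H459R3.NS

namespace Pool.Agent.W266.NS

theorem fr_split {g : V → ℝ} (hg : Continuous g) (k : K3) :
    fr g k = ((∫ x in cube, (ee (-k) x).re * g x : ℝ) : ℂ)
      + ((∫ x in cube, (ee (-k) x).im * g x : ℝ) : ℂ) * Complex.I := by
  have hre : Continuous fun x => (ee (-k) x).re := Complex.continuous_re.comp (ee_continuous _)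
  have him : Continuous fun x => (ee (-k) x).im := Complex.continuous_im.comp (ee_continuous _)
  have h1 : Continuous fun x => (((ee (-k) x).re * g x : ℝ) : ℂ) :=
    Complex.continuous_ofReal.comp (hre.mul hg)
  have h2 : Continuous fun x => (((ee (-k) x).im * g x : ℝ) : ℂ) :=
    Complex.continuous_ofReal.comp (him.mul hg)
  rw [← integral_complex_ofReal, ← integral_complex_ofReal, ← integral_mul_const,
    ← integral_add (integrableOn_cube h1) ((integrableOn_cube h2).mul_const _)]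
  unfold fr fc
  congr 1
  funext x
  conv_lhs => rw [← Complex.re_add_im (ee (-k) x)]
  push_cast
  ring

theorem contDiff_ee_re (k : K3) : ContDiff ℝ ∞ fun x => (ee k x).re :=
  Complex.reCLM.contDiff.comp (ee_contDiff k)

theorem contDiff_ee_im (k : K3) : ContDiff ℝ ∞ fun x => (ee k x).im :=
  Complex.imCLM.contDiff.comp (ee_contDiff k)

variable {T : ℝ} {f : ℝ → V → ℝ}

theorem hasDerivAt_coef (hf : ContDiffOn ℝ ∞ (fun z : ℝ × V => f z.1 z.2) (Ico 0 T ×ˢ univ))
    {c : V → ℝ} (hc : ContDiff ℝ ∞ c) {t : ℝ} (ht : t ∈ Ioo 0 T) :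
    HasDerivAt (fun s => ∫ x in cube, c x * f s x) (∫ x in cube, c x * dt f t x) t := by
  have hc' : ContDiffOn ℝ ∞ (fun z : ℝ × V => c z.2) (Ico 0 T ×ˢ univ) :=
    (hc.comp contDiff_snd).contDiffOn
  have h1 : ContDiffOn ℝ ∞ (fun z : ℝ × V => c z.2 * f z.1 z.2) (Ico 0 T ×ˢ univ) := hc'.mul hf
  have h2 := hasDerivAt_int (F := fun s x => c x * f s x)
    (mono_Ioo (f := fun s x => c x * f s x) (n := 1) h1 (by norm_cast)) ht
  refine h2.congr_deriv ?_
  congr 1
  funext x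
  have h3 := hasDerivAt_slice (mono_Ioo (n := 1) hf (by norm_cast)) ht x
  rw [(h3.const_mul (c x)).deriv, ← dt_eq hf ht x]

theorem hasDerivAt_fr (hf : ContDiffOn ℝ ∞ (fun z : ℝ × V => f z.1 z.2) (Ico 0 T ×ˢ univ))
    {t : ℝ} (ht : t ∈ Ioo 0 T) (k : K3) :
    HasDerivAt (fun s => fr (f s) k) (fr (dt f t) k) t := by
  have hcont : ∀ s ∈ Ico 0 T, Continuous (f s) := fun s hs => (contDiff_slice hf hs).continuous
  have h1 := (hasDerivAt_coef hf (contDiff_ee_re (-k)) ht).ofReal_comp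
  have h2 := ((hasDerivAt_coef hf (contDiff_ee_im (-k)) ht).ofReal_comp).mul_const Complex.I
  have h3 := h1.add h2
  rw [fr_split (contDiff_dt hf ht).continuous k]
  refine h3.congr_of_eventuallyEq ?_
  filter_upwards [Ioo_mem_nhds ht.1 ht.2] with s hs
  exact fr_split (hcont s ⟨hs.1.le, hs.2⟩) k

theorem continuousOn_fr (hf : ContDiffOn ℝ ∞ (fun z : ℝ × V => f z.1 z.2) (Ico 0 T ×ˢ univ))
    (k : K3) : ContinuousOn (fun s => fr (f s) k) (Ico 0 T) := by
  have hcont : ∀ s ∈ Ico 0 T, Continuous (f s) := fun s hs => (contDiff_slice hf hs).continuous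
  have h0 : ∀ c : V → ℝ, Continuous c →
      ContinuousOn (fun s => ((∫ x in cube, c x * f s x : ℝ) : ℂ)) (Ico 0 T) := by
    intro c hc
    have : ContinuousOn (fun z : ℝ × V => c z.2 * f z.1 z.2) (Ico 0 T ×ˢ univ) :=
      (hc.comp continuous_snd).continuousOn.mul hf.continuousOn
    exact Complex.continuous_ofReal.comp_continuousOn
      (continuousOn_int (F := fun s x => c x * f s x) this)
  have h1 := (h0 _ (contDiff_ee_re (-k)).continuous).add
    ((h0 _ (contDiff_ee_im (-k)).continuous).mul (continuousOn_const (c := Complex.I)))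
  refine h1.congr fun s hs => ?_
  exact fr_split (hcont s hs) k

/-- weighted sum of squares of Fourier coefficients -/
noncomputable def ws (w : K3 → ℝ) (f : V → ℝ) : ℝ := ∑' k, w k * ‖fr f k‖ ^ 2

theorem summable_ws {w : K3 → ℝ} {c : ℝ} {m : ℕ} (hw : ∀ k, |w k| ≤ c * (1 + (N k : ℝ) ^ m))
    {g : V → ℝ} (hg : SP g) : Summable fun k => w k * ‖fr g k‖ ^ 2 := by
  obtain ⟨C, hC⟩ := norm_fr_le hg
  have hC0 : 0 ≤ C := (norm_nonneg _).trans (hC 0)
  have hc : 0 ≤ c := by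
    have := (abs_nonneg _).trans (hw 0)
    have h1 : (0 : ℝ) < 1 + (N (0 : K3) : ℝ) ^ m := by positivity
    by_contra hneg
    push Not at hneg
    nlinarith
  have h0 : Summable fun k => c * C * (‖fr g k‖ + (N k : ℝ) ^ m * ‖fr g k‖) :=
    (((rap_fr hg).summable.norm).add (rap_fr hg m)).mul_left _
  refine Summable.of_norm_bounded h0 fun k => ?_
  rw [norm_mul, Real.norm_eq_abs, norm_pow, norm_norm]
  have h1 : (0 : ℝ) ≤ (N k : ℝ) ^ m := by positivity
  calc |w k| * ‖fr g k‖ ^ 2 ≤ (c * (1 + (N k : ℝ) ^ m)) * (C * ‖fr g k‖) := by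
        gcongr
        · exact hw k
        · rw [sq]
          gcongr
          exact hC k
    _ = _ := by ring

theorem hasDerivAt_ws (hf : ContDiffOn ℝ ∞ (fun z : ℝ × V => f z.1 z.2) (Ico 0 T ×ˢ univ))
    (hper : ∀ s ∈ Ico 0 T, Per (f s)) {w : K3 → ℝ} {c : ℝ} {m : ℕ}
    (hw : ∀ k, |w k| ≤ c * (1 + (N k : ℝ) ^ m)) {t : ℝ} (ht : t ∈ Ioo 0 T) :
    HasDerivAt (fun s => ws w (f s))
      (∑' k, w k * (2 * inner ℝ (fr (f t) k) (fr (dt f t) k))) t := by
  obtain ⟨a, ha1, ha2⟩ := exists_between ht.1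
  obtain ⟨b, hb1, hb2⟩ := exists_between ht.2
  have hab : Icc a b ⊆ Ioo 0 T := fun s hs => ⟨ha1.trans_le hs.1, hs.2.trans_lt hb2⟩
  have hab' : Icc a b ⊆ Ico 0 T := hab.trans Ioo_subset_Ico_self
  obtain ⟨C0, hC0, h0⟩ := decay_f hf hper hab' 0
  obtain ⟨Cm, hCm, h1⟩ := decay_f hf hper hab' m
  obtain ⟨D0, hD0, h2⟩ := decay_dt hf hper hab 0
  have hc : 0 ≤ c := by
    have := (abs_nonneg _).trans (hw 0)
    have h1 : (0 : ℝ) < 1 + (N (0 : K3) : ℝ) ^ m := by positivity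
    by_contra hneg
    push Not at hneg
    nlinarith
  have key := hasDerivAt_tsum_of_isPreconnected (𝕜 := ℝ)
    (u := fun k => 2 * c * (C0 * D0 + Cm * D0) * wq k)
    (g := fun k s => w k * ‖fr (f s) k‖ ^ 2)
    (g' := fun k s => w k * (2 * inner ℝ (fr (f s) k) (fr (dt f s) k)))
    (t := Ioo a b) (y₀ := t) (y := t) (summable_wq.mul_left _) isOpen_Ioo
    isPreconnected_Ioo ?_ ?_ ⟨ha2, hb1⟩ ?_ ⟨ha2, hb1⟩
  · exact key
  · intro k s hs
    have hs' : s ∈ Ioo 0 T := hab ⟨hs.1.le, hs.2.le⟩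
    exact ((hasDerivAt_fr hf hs' k).norm_sq).const_mul (w k)
  · intro k s hs
    have hs' : s ∈ Icc a b := ⟨hs.1.le, hs.2.le⟩
    have e0 := h0 s hs' k
    have e1 := h1 s hs' k
    have e2 := h2 s hs' k
    rw [pow_zero, one_mul] at e0 e2
    have hwq := wq_nonneg k
    have hwq1 := wq_le_one k
    have hN : (0 : ℝ) ≤ (N k : ℝ) ^ m := by positivity
    rw [norm_mul, norm_mul, Real.norm_eq_abs, Real.norm_eq_abs, abs_two]
    calc |w k| * (2 * ‖inner ℝ (fr (f s) k) (fr (dt f s) k)‖)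
        ≤ (c * (1 + (N k : ℝ) ^ m)) * (2 * (‖fr (f s) k‖ * ‖fr (dt f s) k‖)) := by
          gcongr
          · exact hw k
          · exact norm_inner_le_norm _ _
      _ = 2 * c * ((‖fr (f s) k‖ + (N k : ℝ) ^ m * ‖fr (f s) k‖) * ‖fr (dt f s) k‖) := by ring
      _ ≤ 2 * c * ((C0 * wq k + Cm * wq k) * (D0 * wq k)) := by
          gcongr
      _ = (2 * c * (C0 * D0 + Cm * D0) * wq k) * wq k := by ring
      _ ≤ (2 * c * (C0 * D0 + Cm * D0) * wq k) * 1 := by
          gcongr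
      _ = _ := mul_one _
  · exact summable_ws hw (sp_slice hf hper (Ioo_subset_Ico_self ht))

theorem continuousOn_ws (hf : ContDiffOn ℝ ∞ (fun z : ℝ × V => f z.1 z.2) (Ico 0 T ×ˢ univ))
    (hper : ∀ s ∈ Ico 0 T, Per (f s)) {w : K3 → ℝ} {c : ℝ} {m : ℕ}
    (hw : ∀ k, |w k| ≤ c * (1 + (N k : ℝ) ^ m)) :
    ContinuousOn (fun s => ws w (f s)) (Ico 0 T) := by
  intro t ht
  obtain ⟨b, hb1, hb2⟩ := exists_between ht.2
  have hab : Icc 0 b ⊆ Ico 0 T := fun s hs => ⟨hs.1, hs.2.trans_lt hb2⟩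
  obtain ⟨C0, hC0, h0⟩ := decay_f hf hper hab 0
  obtain ⟨Cm, hCm, h1⟩ := decay_f hf hper hab m
  have hc : 0 ≤ c := by
    have := (abs_nonneg _).trans (hw 0)
    have h1 : (0 : ℝ) < 1 + (N (0 : K3) : ℝ) ^ m := by positivity
    by_contra hneg
    push Not at hneg
    nlinarith
  have key : ContinuousOn (fun s => ws w (f s)) (Icc 0 b) := by
    refine continuousOn_tsum (u := fun k => c * (C0 * C0 + Cm * C0) * wq k) (fun k => ?_)
      (summable_wq.mul_left _) (fun k s hs => ?_)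
    · exact continuousOn_const.mul (((continuousOn_fr hf k).mono hab).norm.pow 2)
    · have e0 := h0 s hs k
      have e1 := h1 s hs k
      rw [pow_zero, one_mul] at e0
      have hwq := wq_nonneg k
      have hwq1 := wq_le_one k
      rw [norm_mul, Real.norm_eq_abs, norm_pow, norm_norm]
      calc |w k| * ‖fr (f s) k‖ ^ 2
          ≤ (c * (1 + (N k : ℝ) ^ m)) * ‖fr (f s) k‖ ^ 2 := by
            gcongr
            exact hw k
        _ = c * ((‖fr (f s) k‖ + (N k : ℝ) ^ m * ‖fr (f s) k‖) * ‖fr (f s) k‖) := by ring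
        _ ≤ c * ((C0 * wq k + Cm * wq k) * (C0 * wq k)) := by
            gcongr
        _ = (c * (C0 * C0 + Cm * C0) * wq k) * wq k := by ring
        _ ≤ (c * (C0 * C0 + Cm * C0) * wq k) * 1 := by
            gcongr
        _ = _ := mul_one _
  have h2 : Icc 0 b ∈ 𝓝[Ico 0 T] t := by
    have h3 : ∀ᶠ s in 𝓝[Ico 0 T] t, s < b := nhdsWithin_le_nhds (Iio_mem_nhds hb1)
    filter_upwards [h3, self_mem_nhdsWithin] with s hs1 hs2
    exact ⟨hs2.1, hs1.le⟩
  exact (key t ⟨ht.1, hb1.le⟩).mono_of_mem_nhdsWithin h2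

end Pool.Agent.W266.NS
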