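import Pool.Agent.W266.NS.Ode

/-!
The geometric Prodi-Serrin criterion in terms of the triple product of the velocity `u`, the
vorticity `curl u` and `Λ u`, and the two helical parts of the vorticity.
-/

open MeasureTheory Set Filter Topology
open scoped ENNReal
open H459R3.NS

namespace Pool.Agent.W266.NS

/-- The part of the vorticity with positive helicity, `ω⁺ = (curl v + Λ v) / 2`. For
divergence-free `v` one has `curl ω⁺ = Λ ω⁺`. -/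
noncomputable def vortP (v : V → V) (x : V) : V := (1 / 2 : ℝ) • (curl v x + lamv v x)

/-- The part of the vorticity with negative helicity, `ω⁻ = (curl v - Λ v) / 2`. For
divergence-free `v` one has `curl ω⁻ = - Λ ω⁻`. -/
noncomputable def vortM (v : V → V) (x : V) : V := (1 / 2 : ℝ) • (curl v x - lamv v x)

theorem trip_helical (v : V → V) (x : V) :
    trip v x = -2 * (v x ⬝ᵥ crossProduct (vortP v x) (vortM v x)) := by
  unfold trip vortP vortM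
  generalize curl v x = a
  generalize lamv v x = b
  generalize v x = c
  simp only [dotProduct, crossProduct, LinearMap.mk₂_apply, Fin.sum_univ_three,
    Matrix.cons_val_zero, Matrix.cons_val_one, Matrix.cons_val, Pi.smul_apply, Pi.add_apply,
    Pi.sub_apply, smul_eq_mul]
  ring

theorem abs_det_le (a b c : V) : |c ⬝ᵥ crossProduct a b| ≤ 6 * (‖c‖ * (‖a‖ * ‖b‖)) := by
  have ha : ∀ i, |a i| ≤ ‖a‖ := fun i => norm_le_pi_norm a i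
  have hb : ∀ i, |b i| ≤ ‖b‖ := fun i => norm_le_pi_norm b i
  have hc : ∀ i, |c i| ≤ ‖c‖ := fun i => norm_le_pi_norm c i
  have key : ∀ i j k, |c i * (a j * b k)| ≤ ‖c‖ * (‖a‖ * ‖b‖) := by
    intro i j k
    rw [abs_mul, abs_mul]
    exact mul_le_mul (hc i) (mul_le_mul (ha j) (hb k) (abs_nonneg _) (norm_nonneg _))
      (by positivity) (norm_nonneg _)
  have e : c ⬝ᵥ crossProduct a b = c 0 * (a 1 * b 2) - c 0 * (a 2 * b 1) + (c 1 * (a 2 * b 0)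
      - c 1 * (a 0 * b 2)) + (c 2 * (a 0 * b 1) - c 2 * (a 1 * b 0)) := by
    simp only [dotProduct, crossProduct, LinearMap.mk₂_apply, Fin.sum_univ_three,
      Matrix.cons_val_zero, Matrix.cons_val_one, Matrix.cons_val]
    ring
  rw [e]
  have k1 := abs_le.1 (key 0 1 2)
  have k2 := abs_le.1 (key 0 2 1)
  have k3 := abs_le.1 (key 1 2 0)
  have k4 := abs_le.1 (key 1 0 2)
  have k5 := abs_le.1 (key 2 0 1)
  have k6 := abs_le.1 (key 2 1 0)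
  rw [abs_le]
  constructor <;> linarith [k1.1, k1.2, k2.1, k2.2, k3.1, k3.2, k4.1, k4.2, k5.1, k5.2, k6.1, k6.2]

theorem norm_vort_add (v : V → V) (x : V) :
    ‖vortP v x‖ ≤ (‖curl v x‖ + ‖lamv v x‖) / 2 ∧ ‖vortM v x‖ ≤ (‖curl v x‖ + ‖lamv v x‖) / 2 := by
  unfold vortP vortM
  rw [norm_smul, norm_smul]
  have h1 := norm_add_le (curl v x) (lamv v x)
  have h2 := norm_sub_le (curl v x) (lamv v x)
  have e : ‖(1 / 2 : ℝ)‖ = 1 / 2 := by norm_num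
  rw [e]
  constructor <;> linarith

/-- the triple product is controlled by the smaller one of the two helical vorticities -/
theorem trip_le_min (v : V → V) (x : V) :
    trip v x ≤ 6 * min ‖vortP v x‖ ‖vortM v x‖ * (‖v x‖ * (‖curl v x‖ + ‖lamv v x‖)) := by
  obtain ⟨h1, h2⟩ := norm_vort_add v x
  have h3 := abs_det_le (vortP v x) (vortM v x) (v x)
  have h4 : trip v x ≤ 2 * |v x ⬝ᵥ crossProduct (vortP v x) (vortM v x)| := by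
    rw [trip_helical]
    have := neg_abs_le (v x ⬝ᵥ crossProduct (vortP v x) (vortM v x))
    linarith
  have h5 : ‖vortP v x‖ * ‖vortM v x‖
      ≤ min ‖vortP v x‖ ‖vortM v x‖ * ((‖curl v x‖ + ‖lamv v x‖) / 2) := by
    have n1 := norm_nonneg (vortP v x)
    have n2 := norm_nonneg (vortM v x)
    rcases le_total ‖vortP v x‖ ‖vortM v x‖ with h | h
    · rw [min_eq_left h]
      gcongr
    · rw [min_eq_right h, mul_comm]
      gcongr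
  calc trip v x ≤ 2 * (6 * (‖v x‖ * (‖vortP v x‖ * ‖vortM v x‖))) := h4.trans (by gcongr)
    _ ≤ 2 * (6 * (‖v x‖ * (min ‖vortP v x‖ ‖vortM v x‖ * ((‖curl v x‖ + ‖lamv v x‖) / 2)))) := by
        gcongr
    _ = _ := by ring

theorem criterion {p₁ p₂ p₃ : ℝ≥0∞} (h1 : 3 < p₁) (h2 : 3 / 2 < p₂) (h2' : p₂ ≤ 6)
    (h3 : 1 < p₃) (h3' : p₃ ≤ 3 / 2) {q₁ q₂ q₃ : ℝ} (e1 : 3 * (p₁⁻¹).toReal + 2 / q₁ = 1)
    (e2 : 3 * (p₂⁻¹).toReal + 2 / q₂ = 2) (e3 : 3 * (p₃⁻¹).toReal + 2 / q₃ = 4) {ν T : ℝ}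
    (hν : 0 < ν) {u : ℝ → V → V} {P : ℝ → V → ℝ} (h : IsSol ν T u P)
    {f g k e : ℝ → V → ℝ} {β₁ β₂ β₃ β₄ : ℝ → ℝ}
    (n : ∀ t ∈ Ioo 0 T, 0 ≤ β₁ t ∧ 0 ≤ β₂ t ∧ 0 ≤ β₃ t ∧ 0 ≤ β₄ t)
    (i1 : IntegrableOn (fun t => β₁ t ^ q₁) (Ioo 0 T))
    (i2 : IntegrableOn (fun t => β₂ t ^ q₂) (Ioo 0 T))
    (i3 : IntegrableOn (fun t => β₃ t ^ q₃) (Ioo 0 T))
    (i4 : IntegrableOn β₄ (Ioo 0 T))
    (mf : ∀ t ∈ Ioo 0 T, AEStronglyMeasurable (f t) μc)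
    (mg : ∀ t ∈ Ioo 0 T, AEStronglyMeasurable (g t) μc)
    (mk : ∀ t ∈ Ioo 0 T, AEStronglyMeasurable (k t) μc)
    (me : ∀ t ∈ Ioo 0 T, AEStronglyMeasurable (e t) μc)
    (bf : ∀ t ∈ Ioo 0 T, eLpNorm (f t) p₁ μc ≤ ENNReal.ofReal (β₁ t))
    (bg : ∀ t ∈ Ioo 0 T, eLpNorm (g t) p₂ μc ≤ ENNReal.ofReal (β₂ t))
    (bk : ∀ t ∈ Ioo 0 T, eLpNorm (k t) p₃ μc ≤ ENNReal.ofReal (β₃ t))
    (be : ∀ t ∈ Ioo 0 T, eLpNorm (e t) 1 μc ≤ ENNReal.ofReal (β₄ t))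
    (H : ∀ t ∈ Ioo 0 T, Hyp (u t) (f t) (g t) (k t) (e t)) :
    ∃ M, ∀ t ∈ Ico 0 T, ∀ x i, |u t x i| ≤ M := by
  obtain ⟨D, hD0, hD⟩ := main_ineq h1 h2 h2' h3 h3' e1 e2 e3 hν
  refine bounded_of_half h hν
    (G := fun t => D * (β₁ t ^ q₁ + β₂ t ^ q₂ + β₃ t ^ q₃) + 2 * β₄ t)
    (fun t ht => ?_) ((((i1.add i2).add i3).const_mul D).add (i4.const_mul 2)) fun t ht => ?_
  · obtain ⟨a1, a2, a3, a4⟩ := n t ht
    positivity
  · obtain ⟨a1, a2, a3, a4⟩ := n t ht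
    exact hD (u t) (f t) (g t) (k t) (e t) _ _ _ _ (fun i => h.sp ⟨ht.1.le, ht.2⟩ i)
      ⟨mf t ht, mg t ht, mk t ht, me t ht, a1, a2, a3, a4, bf t ht, bg t ht, bk t ht, be t ht⟩
      (H t ht)

/-- the criterion with the smaller one of the two helical vorticities -/
theorem criterion_min {p₁ p₂ p₃ : ℝ≥0∞} (h1 : 3 < p₁) (h2 : 3 / 2 < p₂) (h2' : p₂ ≤ 6)
    (h3 : 1 < p₃) (h3' : p₃ ≤ 3 / 2) {q₁ q₂ q₃ : ℝ} (e1 : 3 * (p₁⁻¹).toReal + 2 / q₁ = 1)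
    (e2 : 3 * (p₂⁻¹).toReal + 2 / q₂ = 2) (e3 : 3 * (p₃⁻¹).toReal + 2 / q₃ = 4) {ν T : ℝ}
    (hν : 0 < ν) {u : ℝ → V → V} {P : ℝ → V → ℝ} (h : IsSol ν T u P)
    {f g k e : ℝ → V → ℝ} {β₁ β₂ β₃ β₄ : ℝ → ℝ}
    (n : ∀ t ∈ Ioo 0 T, 0 ≤ β₁ t ∧ 0 ≤ β₂ t ∧ 0 ≤ β₃ t ∧ 0 ≤ β₄ t)
    (i1 : IntegrableOn (fun t => β₁ t ^ q₁) (Ioo 0 T))
    (i2 : IntegrableOn (fun t => β₂ t ^ q₂) (Ioo 0 T))
    (i3 : IntegrableOn (fun t => β₃ t ^ q₃) (Ioo 0 T))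
    (i4 : IntegrableOn β₄ (Ioo 0 T))
    (mf : ∀ t ∈ Ioo 0 T, AEStronglyMeasurable (f t) μc)
    (mg : ∀ t ∈ Ioo 0 T, AEStronglyMeasurable (g t) μc)
    (mk : ∀ t ∈ Ioo 0 T, AEStronglyMeasurable (k t) μc)
    (me : ∀ t ∈ Ioo 0 T, AEStronglyMeasurable (e t) μc)
    (bf : ∀ t ∈ Ioo 0 T, eLpNorm (f t) p₁ μc ≤ ENNReal.ofReal (β₁ t))
    (bg : ∀ t ∈ Ioo 0 T, eLpNorm (g t) p₂ μc ≤ ENNReal.ofReal (β₂ t))
    (bk : ∀ t ∈ Ioo 0 T, eLpNorm (k t) p₃ μc ≤ ENNReal.ofReal (β₃ t))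
    (be : ∀ t ∈ Ioo 0 T, eLpNorm (e t) 1 μc ≤ ENNReal.ofReal (β₄ t))
    (H : ∀ t ∈ Ioo 0 T, ∀ x ∈ cube, min ‖vortP (u t) x‖ ‖vortM (u t) x‖ ≤ g t x ∨
      trip (u t) x ≤ f t x * (‖curl (u t) x‖ ^ 2 + ‖lamv (u t) x‖ ^ 2)
        + g t x * (‖u t x‖ * (‖curl (u t) x‖ + ‖lamv (u t) x‖)) + k t x * ‖u t x‖ + e t x) :
    ∃ M, ∀ t ∈ Ico 0 T, ∀ x i, |u t x i| ≤ M := by
  have hn6 : ‖(6 : ℝ)‖ₑ = ENNReal.ofReal 6 := by
    rw [← ofReal_norm]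
    norm_num
  refine criterion h1 h2 h2' h3 h3' e1 e2 e3 hν h (f := fun t x => |f t x|)
    (g := fun t x => 6 * |g t x|) (k := fun t x => |k t x|) (e := fun t x => |e t x|)
    (β₂ := fun t => 6 * β₂ t) (fun t ht => ?_) i1 ?_ i3 i4 (fun t ht => (mf t ht).norm)
    (fun t ht => (mg t ht).norm.const_mul 6) (fun t ht => (mk t ht).norm)
    (fun t ht => (me t ht).norm) (fun t ht => ?_)
    (fun t ht => ?_) (fun t ht => ?_) (fun t ht => ?_) (fun t ht x hx => ?_)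
  · obtain ⟨a1, a2, a3, a4⟩ := n t ht
    exact ⟨a1, by positivity, a3, a4⟩
  · have : IntegrableOn (fun t => 6 ^ q₂ * β₂ t ^ q₂) (Ioo 0 T) := i2.const_mul _
    refine this.congr_fun (fun t ht => ?_) measurableSet_Ioo
    simp only
    rw [Real.mul_rpow (by norm_num) (n t ht).2.1]
  · refine le_trans (le_of_eq ?_) (bf t ht)
    exact eLpNorm_norm (f t)
  · have e1 : eLpNorm (fun x => 6 * |g t x|) p₂ μc = ENNReal.ofReal 6 * eLpNorm (g t) p₂ μc := by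
      have := eLpNorm_const_smul (6 : ℝ) (fun x => ‖g t x‖) p₂ μc
      rw [hn6, eLpNorm_norm] at this
      exact this
    show eLpNorm (fun x => 6 * |g t x|) p₂ μc ≤ ENNReal.ofReal (6 * β₂ t)
    rw [e1, ENNReal.ofReal_mul (by norm_num)]
    gcongr
    exact bg t ht
  · refine le_trans (le_of_eq ?_) (bk t ht)
    exact eLpNorm_norm (k t)
  · refine le_trans (le_of_eq ?_) (be t ht)
    exact eLpNorm_norm (e t)
  · have m1 : 0 ≤ ‖curl (u t) x‖ ^ 2 + ‖lamv (u t) x‖ ^ 2 := by positivity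
    have m2 : 0 ≤ ‖u t x‖ * (‖curl (u t) x‖ + ‖lamv (u t) x‖) := by positivity
    have m3 : 0 ≤ ‖u t x‖ := norm_nonneg _
    have c1 : 0 ≤ |f t x| * (‖curl (u t) x‖ ^ 2 + ‖lamv (u t) x‖ ^ 2) := by positivity
    have c3 : 0 ≤ |k t x| * ‖u t x‖ := by positivity
    have c4 : 0 ≤ |e t x| := abs_nonneg _
    rcases H t ht x hx with hm | hm
    · have h1 := trip_le_min (u t) x
      have h2 : min ‖vortP (u t) x‖ ‖vortM (u t) x‖ ≤ |g t x| := hm.trans (le_abs_self _)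
      have h3 : 6 * min ‖vortP (u t) x‖ ‖vortM (u t) x‖
          * (‖u t x‖ * (‖curl (u t) x‖ + ‖lamv (u t) x‖))
          ≤ 6 * |g t x| * (‖u t x‖ * (‖curl (u t) x‖ + ‖lamv (u t) x‖)) := by gcongr
      linarith
    · have h1 : f t x * (‖curl (u t) x‖ ^ 2 + ‖lamv (u t) x‖ ^ 2)
          ≤ |f t x| * (‖curl (u t) x‖ ^ 2 + ‖lamv (u t) x‖ ^ 2) :=
        mul_le_mul_of_nonneg_right (le_abs_self _) m1
      have h2 : g t x * (‖u t x‖ * (‖curl (u t) x‖ + ‖lamv (u t) x‖))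
          ≤ 6 * |g t x| * (‖u t x‖ * (‖curl (u t) x‖ + ‖lamv (u t) x‖)) :=
        mul_le_mul_of_nonneg_right (by linarith [le_abs_self (g t x), abs_nonneg (g t x)]) m2
      have h3 : k t x * ‖u t x‖ ≤ |k t x| * ‖u t x‖ :=
        mul_le_mul_of_nonneg_right (le_abs_self _) m3
      linarith [le_abs_self (e t x)]

end Pool.Agent.W266.NS
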