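import Pool.Agent.W266.NS.Evo3

/-!
The evolution of the homogeneous `H^(1/2)` norm of a smooth periodic solution.
-/

open MeasureTheory Set Filter Topology
open scoped ContDiff
open H459R3.NS

namespace Pool.Agent.W266.NS

/-- The curl of a vector field on `ℝ³`. -/
noncomputable def curl (v : V → V) (x : V) : V :=
  ![pd 1 (fun y => v y 2) x - pd 2 (fun y => v y 1) x,
    pd 2 (fun y => v y 0) x - pd 0 (fun y => v y 2) x,
    pd 0 (fun y => v y 1) x - pd 1 (fun y => v y 0) x]

/-- `Λ v`, componentwise. -/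
noncomputable def lamv (v : V → V) (x : V) : V := fun i => Lam (fun y => v y i) x

/-- The triple product `det (v, curl v, Λ v)`. -/
noncomputable def trip (v : V → V) (x : V) : ℝ := v x ⬝ᵥ crossProduct (curl v x) (lamv v x)

theorem inner_eq (a b : ℂ) : inner ℝ a b = (a * (starRingEnd ℂ) b).re := by
  rw [Complex.inner]
  simp only [Complex.mul_re, Complex.conj_re, Complex.conj_im]
  ring

theorem int_Lam_eq {f g : V → ℝ} (hf : SP f) (hg : SP g) :
    ∫ x in cube, Lam f x * g x = ∑' k, sy k * inner ℝ (fr f k) (fr g k) := by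
  rw [parseval (SP.Lam hf) hg, fr_Lam hf]
  refine tsum_congr fun k => ?_
  rw [inner_eq, L, mul_assoc, Complex.re_ofReal_mul]

theorem ws_sy {f : V → ℝ} (hf : SP f) : ws sy f = ∫ x in cube, Lam f x * f x := by
  rw [int_Lam_eq hf hf]
  refine tsum_congr fun k => ?_
  rw [real_inner_self_eq_norm_sq]

section field

variable {v : Fin 3 → V → ℝ} (hv : ∀ i, SP (v i)) (hdiv : ∀ x, ∑ i, H459R3.NS.pd i (v i) x = 0)

include hv hdiv in
theorem div_Lam (x : V) : ∑ i, pd i (Lam (v i)) x = 0 := by
  have h1 : SP (fun y => ∑ i, pd i (Lam (v i)) y) := SP.sum fun i _ => (SP.Lam (hv i)).pd i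
  have h2 : SP (fun y => ∑ i, pd i (v i) y) := SP.sum fun i _ => (hv i).pd i
  have e1 : ∀ {g : Fin 3 → V → ℝ}, (∀ i, SP (g i)) →
      fr (fun y => ∑ i, g i y) = fun k => ∑ i, fr (g i) k := by
    intro g hg
    funext k
    have i1 : ∀ i ∈ Finset.univ, Integrable (fun y => ee (-k) y * ((g i y : ℝ) : ℂ))
        (volume.restrict cube) := fun i _ => integrableOn_cube
      ((ee_continuous (-k)).mul (contDiff_ofReal (hg i).smooth).continuous)
    have i2 := integral_finsetSum Finset.univ i1
    unfold fr fc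
    simp only
    rw [← i2]
    congr 1
    funext y
    push_cast
    rw [Finset.mul_sum]
  have h3 : fr (fun y => ∑ i, pd i (Lam (v i)) y) = fr (fun _ => 0) := by
    rw [e1 fun i => (SP.Lam (hv i)).pd i]
    funext k
    have e2 : ∀ i, fr (pd i (Lam (v i))) k = (sy k : ℂ) * fr (pd i (v i)) k := by
      intro i
      rw [pd_Lam (hv i), fr_Lam ((hv i).pd i), L]
    simp_rw [e2]
    rw [← Finset.mul_sum]
    have e3 := congrFun (e1 fun i => (hv i).pd i) k
    simp_rw [hdiv] at e3
    rw [← e3]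
    simp [fr, fc]
  have h4 := ext_fr h1 (g := fun _ => 0) ⟨contDiff_const, fun _ _ => rfl⟩ h3
  exact congrFun h4 x

include hv in
theorem int_Lam_lap (i : Fin 3) :
    ∫ x in cube, Lam (v i) x * lap (v i) x = -∑ j, ws sy (pd j (v i)) := by
  have h : ∀ x, Lam (v i) x * lap (v i) x = lap (v i) x * Lam (v i) x := fun x => mul_comm _ _
  simp_rw [h]
  rw [int_lap_mul (hv i) (SP.Lam (hv i))]
  congr 1
  refine Finset.sum_congr rfl fun j _ => ?_
  rw [ws_sy ((hv i).pd j), pd_Lam (hv i)]
  congr 1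
  funext x
  rw [mul_comm]

end field

variable {ν T : ℝ} {u : ℝ → V → V} {p : ℝ → V → ℝ}

/-- the convection term and the triple product -/
theorem conv_trip {w : V → V} (hw : ∀ i, SP (fun y => w y i)) (x : V) :
    ∑ i, Lam (fun y => w y i) x * conv (fun i y => w y i) i x
      = -trip w x + ∑ i, Lam (fun y => w y i) x
        * pd i (fun y => ∑ j, (w y j * w y j) * (1 / 2)) x := by
  have hc : SP (fun _ : V => (1 / 2 : ℝ)) := ⟨contDiff_const, fun _ _ => rfl⟩
  have e1 : ∀ i, pd i (fun y => ∑ j, (w y j * w y j) * (1 / 2)) x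
      = ∑ j, w x j * pd i (fun y => w y j) x := by
    intro i
    rw [pd_sum (f := fun j y => (w y j * w y j) * (1 / 2))
      (fun j _ => ((hw j).mul (hw j)).mul hc) i x]
    refine Finset.sum_congr rfl fun j _ => ?_
    rw [pd_mul (f := fun y => w y j * w y j) ((hw j).mul (hw j)) hc i x,
      pd_mul (hw j) (hw j) i x]
    have : pd i (fun _ : V => (1 / 2 : ℝ)) x = 0 := by simp [pd]
    rw [this]
    ring
  simp_rw [e1]
  unfold trip curl lamv conv
  simp only [Fin.sum_univ_three, dotProduct, crossProduct, LinearMap.mk₂_apply,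
    Matrix.cons_val_zero, Matrix.cons_val_one, Matrix.cons_val]
  ring

theorem sy_bd (k : K3) : |sy k| ≤ 4 * Real.pi * (1 + (N k : ℝ) ^ 1) := by
  rw [abs_of_nonneg (sy_nonneg k), pow_one]
  have := sy_le k
  nlinarith [Real.pi_pos]

/-- The homogeneous `H^(1/2)` norm (squared): `∑ 2 π |k| |v̂(k)|²`. -/
noncomputable def hh (v : V → V) : ℝ := ∑ i, ws sy (fun y => v y i)

/-- The homogeneous `H^(3/2)` norm (squared): `∑ (2 π |k|)³ |v̂(k)|²`. -/
noncomputable def h3 (v : V → V) : ℝ := ∑ i, ∑ j, ws sy (pd j (fun y => v y i))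

theorem trip_cont {w : V → V} (hw : ∀ i, SP (fun y => w y i)) : Continuous (trip w) := by
  have h1 : ∀ x, trip w x = -∑ i, Lam (fun y => w y i) x * conv (fun i y => w y i) i x
      + ∑ i, Lam (fun y => w y i) x * pd i (fun y => ∑ j, (w y j * w y j) * (1 / 2)) x := by
    intro x
    rw [conv_trip hw x]
    ring
  rw [show trip w = _ from funext h1]
  have hc : SP (fun _ : V => (1 / 2 : ℝ)) := ⟨contDiff_const, fun _ _ => rfl⟩
  have hq : SP (fun y => ∑ j, (w y j * w y j) * (1 / 2)) :=
    SP.sum fun j _ => ((hw j).mul (hw j)).mul hc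
  refine (continuous_finsetSum _ fun i _ => ?_).neg.add (continuous_finsetSum _ fun i _ => ?_)
  · exact ((SP.Lam (hw i)).mul (sp_conv hw i)).cont
  · exact ((SP.Lam (hw i)).mul (hq.pd i)).cont

theorem hh_hasDerivAt (h : IsSol ν T u p) {t : ℝ} (ht : t ∈ Ioo 0 T) :
    HasDerivAt (fun s => hh (u s)) (-(2 * ν * h3 (u t)) + 2 * ∫ x in cube, trip (u t) x) t := by
  have hI : t ∈ Ico 0 T := ⟨ht.1.le, ht.2⟩
  set v : Fin 3 → V → ℝ := fun i y => u t y i with hv
  have hsp : ∀ i, SP (v i) := fun i => h.sp hI i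
  have hdiv : ∀ x, ∑ i, pd i (v i) x = 0 := h.divfree t hI
  have hper : ∀ i, ∀ s ∈ Ico 0 T, Per (fun y => u s y i) := fun i s hs => (h.sp hs i).per
  have h1 : HasDerivAt (fun s => hh (u s))
      (∑ i, ∑' k, sy k * (2 * inner ℝ (fr (v i) k) (fr (dt (fun s y => u s y i) t) k))) t :=
    HasDerivAt.fun_sum fun i _ =>
      hasDerivAt_ws (f := fun s y => u s y i) (h.smooth_c i) (hper i) sy_bd ht
  refine h1.congr_deriv ?_
  have e1 : ∀ i, ∑' k, sy k * (2 * inner ℝ (fr (v i) k) (fr (dt (fun s y => u s y i) t) k))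
      = 2 * ∫ x in cube, Lam (v i) x * dt (fun s y => u s y i) t x := by
    intro i
    rw [int_Lam_eq (hsp i) (h.sp_dt ht i), ← tsum_mul_left]
    exact tsum_congr fun k => by ring
  have e2 : ∀ i, ∫ x in cube, Lam (v i) x * dt (fun s y => u s y i) t x
      = ν * (∫ x in cube, Lam (v i) x * lap (v i) x) - (∫ x in cube, Lam (v i) x * conv v i x)
        - ∫ x in cube, Lam (v i) x * pd i (p t) x := by
    intro i
    have hL := SP.Lam (hsp i)
    have e : ∀ x, Lam (v i) x * dt (fun s y => u s y i) t x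
        = ν * (Lam (v i) x * lap (v i) x) - Lam (v i) x * conv v i x
          - Lam (v i) x * pd i (p t) x := by
      intro x
      rw [h.dt_eq ht]
      ring
    simp_rw [e]
    have i1 : IntegrableOn (fun x => ν * (Lam (v i) x * lap (v i) x)) cube :=
      (hL.mul (hsp i).lap).int.const_mul ν
    have i2 : IntegrableOn (fun x => Lam (v i) x * conv v i x) cube :=
      (hL.mul (sp_conv hsp i)).int
    have i3 : IntegrableOn (fun x => Lam (v i) x * pd i (p t) x) cube :=
      (hL.mul ((h.sp_p hI).pd i)).int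
    have i12 : IntegrableOn (fun x => ν * (Lam (v i) x * lap (v i) x)
      - Lam (v i) x * conv v i x) cube := i1.sub i2
    rw [integral_sub i12 i3, integral_sub i1 i2, integral_const_mul]
  simp_rw [e1, e2]
  rw [← Finset.mul_sum, Finset.sum_sub_distrib, Finset.sum_sub_distrib,
    int_press (v := fun i => Lam (v i)) (fun i => SP.Lam (hsp i)) (div_Lam hsp hdiv)
      (h.sp_p hI), ← Finset.mul_sum]
  have e3 : ∑ i, ∫ x in cube, Lam (v i) x * lap (v i) x = -h3 (u t) := by
    unfold h3
    rw [← Finset.sum_neg_distrib]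
    exact Finset.sum_congr rfl fun i _ => int_Lam_lap hsp i
  have hc : SP (fun _ : V => (1 / 2 : ℝ)) := ⟨contDiff_const, fun _ _ => rfl⟩
  have hq : SP (fun y => ∑ j, (u t y j * u t y j) * (1 / 2)) :=
    SP.sum fun j _ => ((hsp j).mul (hsp j)).mul hc
  have e4 : ∑ i, ∫ x in cube, Lam (v i) x * conv v i x = -∫ x in cube, trip (u t) x := by
    rw [← integral_finsetSum _ fun i _ => ((SP.Lam (hsp i)).mul (sp_conv hsp i)).int]
    have e : ∀ x, ∑ i, Lam (v i) x * conv v i x = -trip (u t) x + ∑ i, Lam (v i) x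
        * pd i (fun y => ∑ j, (u t y j * u t y j) * (1 / 2)) x := fun x => conv_trip hsp x
    simp_rw [e]
    have i1 : Integrable (fun x => -trip (u t) x) (volume.restrict cube) :=
      (integrableOn_cube (trip_cont hsp)).neg
    have i2 : Integrable (fun x => ∑ i, Lam (v i) x
        * pd i (fun y => ∑ j, (u t y j * u t y j) * (1 / 2)) x) (volume.restrict cube) :=
      integrableOn_cube (continuous_finsetSum _ fun i _ =>
        ((SP.Lam (hsp i)).mul (hq.pd i)).cont)
    rw [integral_add i1 i2, integral_neg,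
      integral_finsetSum _ fun i _ => ((SP.Lam (hsp i)).mul (hq.pd i)).int,
      int_press (v := fun i => Lam (v i)) (fun i => SP.Lam (hsp i)) (div_Lam hsp hdiv) hq, add_zero]
  rw [e3, e4]
  ring

theorem hh_continuousOn (h : IsSol ν T u p) : ContinuousOn (fun s => hh (u s)) (Ico 0 T) :=
  continuousOn_finsetSum _ fun i _ =>
    continuousOn_ws (f := fun s y => u s y i) (h.smooth_c i) (fun _ hs => (h.sp hs i).per) sy_bd

end Pool.Agent.W266.NS
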