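import Pool.Agent.W266.NS.Fin

/-!
The fields `ω⁺`, `ω⁻` are the helical parts of the vorticity: `curl ω⁺ = Λ ω⁺` and
`curl ω⁻ = - Λ ω⁻` if `div v = 0`.
-/

open MeasureTheory Set Filter Topology
open scoped ENNReal
open H459R3.NS

namespace Pool.Agent.W266.NS

theorem fr_add {f g : V → ℝ} (hf : SP f) (hg : SP g) (k : K3) :
    fr (fun x => f x + g x) k = fr f k + fr g k := by
  have i1 : Integrable (fun x => ee (-k) x * (f x : ℂ)) (volume.restrict cube) :=
    integrableOn_cube ((ee_continuous _).mul (contDiff_ofReal hf.smooth).continuous)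
  have i2 : Integrable (fun x => ee (-k) x * (g x : ℂ)) (volume.restrict cube) :=
    integrableOn_cube ((ee_continuous _).mul (contDiff_ofReal hg.smooth).continuous)
  unfold fr fc
  simp only
  rw [← integral_add i1 i2]
  congr 1
  funext x
  push_cast
  ring

theorem fr_cmul (c : ℝ) (f : V → ℝ) (k : K3) :
    fr (fun x => c * f x) k = c * fr f k := by
  unfold fr fc
  rw [← integral_const_mul]
  congr 1
  funext x
  push_cast
  ring

theorem sp_cmul (c : ℝ) {f : V → ℝ} (hf : SP f) : SP (fun x => c * f x) :=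
  ⟨contDiff_const.mul hf.smooth, fun i x => by rw [hf.per i x]⟩

theorem fr_div {v : V → V} (hv : ∀ i, SP (fun y => v y i))
    (hdiv : ∀ x, ∑ i, pd i (fun y => v y i) x = 0) (k : K3) :
    ∑ i, (k i : ℂ) * fr (fun y => v y i) k = 0 := by
  have h1 : fr (fun x => (pd 0 (fun y => v y 0) x + pd 1 (fun y => v y 1) x)
      + pd 2 (fun y => v y 2) x) k = 0 := by
    have e : (fun x => (pd 0 (fun y => v y 0) x + pd 1 (fun y => v y 1) x)
      + pd 2 (fun y => v y 2) x) = fun _ => 0 := by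
      funext x
      have := hdiv x
      rwa [Fin.sum_univ_three] at this
    rw [e, fr_zero']
  rw [fr_add (((hv 0).pd 0).add ((hv 1).pd 1)) ((hv 2).pd 2),
    fr_add ((hv 0).pd 0) ((hv 1).pd 1), fr_pd (hv 0), fr_pd (hv 1), fr_pd (hv 2)] at h1
  unfold D at h1
  rw [Fin.sum_univ_three]
  have hp : (2 * Real.pi * Complex.I : ℂ) ≠ 0 := by
    simp [Real.pi_ne_zero]
  apply mul_left_cancel₀ hp
  linear_combination h1

section

variable {v : V → V} (hv : ∀ i, SP (fun y => v y i))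

include hv in
theorem fr_curl (k : K3) :
    fr (fun x => curl v x 0) k = 2 * Real.pi * Complex.I *
        ((k 1 : ℂ) * fr (fun y => v y 2) k - (k 2 : ℂ) * fr (fun y => v y 1) k) ∧
    fr (fun x => curl v x 1) k = 2 * Real.pi * Complex.I *
        ((k 2 : ℂ) * fr (fun y => v y 0) k - (k 0 : ℂ) * fr (fun y => v y 2) k) ∧
    fr (fun x => curl v x 2) k = 2 * Real.pi * Complex.I *
        ((k 0 : ℂ) * fr (fun y => v y 1) k - (k 1 : ℂ) * fr (fun y => v y 0) k) := by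
  refine ⟨?_, ?_, ?_⟩
  · have := fr_sub ((hv 2).pd 1) ((hv 1).pd 2) k
    rw [fr_pd (hv 2), fr_pd (hv 1)] at this
    refine this.trans ?_
    unfold D
    ring
  · have := fr_sub ((hv 0).pd 2) ((hv 2).pd 0) k
    rw [fr_pd (hv 0), fr_pd (hv 2)] at this
    refine this.trans ?_
    unfold D
    ring
  · have := fr_sub ((hv 1).pd 0) ((hv 0).pd 1) k
    rw [fr_pd (hv 1), fr_pd (hv 0)] at this
    refine this.trans ?_
    unfold D
    ring

/-- `(curl v + σ Λ v) / 2` -/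
noncomputable def vs (σ : ℝ) (v : V → V) (x : V) : V := fun i => (1 / 2) * (curl v x i + σ * lamv v x i)

include hv in
theorem sp_vs (σ : ℝ) (i : Fin 3) : SP (fun y => vs σ v y i) :=
  sp_cmul _ ((sp_curl hv i).add (sp_cmul _ (SP.Lam (hv i))))

include hv in
theorem fr_vs (σ : ℝ) (i : Fin 3) (k : K3) : fr (fun y => vs σ v y i) k
    = 1 / 2 * (fr (fun x => curl v x i) k + σ * (sy k * fr (fun y => v y i) k)) := by
  have h1 : fr (fun y => vs σ v y i) k = fr (fun x => (1 / 2 : ℝ)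
    * (curl v x i + σ * Lam (fun y => v y i) x)) k := rfl
  rw [h1, fr_cmul, fr_add (sp_curl hv i) (sp_cmul _ (SP.Lam (hv i))), fr_cmul, fr_Lam (hv i), L]
  push_cast
  ring

include hv in
theorem curl_vs (hdiv : ∀ x, ∑ i, pd i (fun y => v y i) x = 0) {σ : ℝ} (hσ : σ ^ 2 = 1) (x : V) :
    curl (vs σ v) x = σ • lamv (vs σ v) x := by
  have hs := sp_vs hv σ
  have hsy : ∀ k : K3, ((sy k : ℝ) : ℂ) ^ 2
      = (2 * Real.pi) ^ 2 * ((k 0 : ℂ) ^ 2 + (k 1 : ℂ) ^ 2 + (k 2 : ℂ) ^ 2) := by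
    intro k
    have h := nk_sq k
    rw [Fin.sum_univ_three] at h
    have h' : (sy k) ^ 2 = (2 * Real.pi) ^ 2 * ((k 0 : ℝ) ^ 2 + (k 1 : ℝ) ^ 2 + (k 2 : ℝ) ^ 2) := by
      rw [← h, sy]
      ring
    exact_mod_cast congrArg (fun r : ℝ => (r : ℂ)) h'
  have hσ' : (σ : ℂ) ^ 2 = 1 := by exact_mod_cast hσ
  have hI : Complex.I ^ 2 = -1 := Complex.I_sq
  have key : ∀ i, (fun x => curl (vs σ v) x i) = fun x => σ * Lam (fun y => vs σ v y i) x := by
    intro i
    refine ext_fr (sp_curl hs i) (sp_cmul _ (SP.Lam (hs i))) ?_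
    funext k
    rw [fr_cmul, fr_Lam (hs i), L, fr_vs hv]
    have hd := fr_div hv hdiv k
    rw [Fin.sum_univ_three] at hd
    obtain ⟨c0, c1, c2⟩ := fr_curl hv k
    obtain ⟨d0, d1, d2⟩ := fr_curl hs k
    have hk := hsy k
    fin_cases i
    · refine d0.trans ?_
      show _ = (σ : ℂ) * ((sy k : ℂ) * (1 / 2 * (fr (fun x => curl v x 0) k
        + σ * (sy k * fr (fun y => v y 0) k))))
      rw [fr_vs hv, fr_vs hv, c0, c1, c2]
      linear_combination (-(1 / 2) * fr (fun y => v y 0) k) * hk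
        + (-(1 / 2) * (sy k : ℂ) ^ 2 * fr (fun y => v y 0) k) * hσ'
        + (1 / 2 * (2 * Real.pi) ^ 2 * Complex.I ^ 2 * (k 0 : ℂ)) * hd
        - (1 / 2 * (2 * Real.pi) ^ 2 * fr (fun y => v y 0) k
          * ((k 0 : ℂ) ^ 2 + (k 1 : ℂ) ^ 2 + (k 2 : ℂ) ^ 2)) * hI
    · refine d1.trans ?_
      show _ = (σ : ℂ) * ((sy k : ℂ) * (1 / 2 * (fr (fun x => curl v x 1) k
        + σ * (sy k * fr (fun y => v y 1) k))))
      rw [fr_vs hv, fr_vs hv, c0, c1, c2]
      linear_combination (-(1 / 2) * fr (fun y => v y 1) k) * hk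
        + (-(1 / 2) * (sy k : ℂ) ^ 2 * fr (fun y => v y 1) k) * hσ'
        + (1 / 2 * (2 * Real.pi) ^ 2 * Complex.I ^ 2 * (k 1 : ℂ)) * hd
        - (1 / 2 * (2 * Real.pi) ^ 2 * fr (fun y => v y 1) k
          * ((k 0 : ℂ) ^ 2 + (k 1 : ℂ) ^ 2 + (k 2 : ℂ) ^ 2)) * hI
    · refine d2.trans ?_
      show _ = (σ : ℂ) * ((sy k : ℂ) * (1 / 2 * (fr (fun x => curl v x 2) k
        + σ * (sy k * fr (fun y => v y 2) k))))
      rw [fr_vs hv, fr_vs hv, c0, c1, c2]
      linear_combination (-(1 / 2) * fr (fun y => v y 2) k) * hk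
        + (-(1 / 2) * (sy k : ℂ) ^ 2 * fr (fun y => v y 2) k) * hσ'
        + (1 / 2 * (2 * Real.pi) ^ 2 * Complex.I ^ 2 * (k 2 : ℂ)) * hd
        - (1 / 2 * (2 * Real.pi) ^ 2 * fr (fun y => v y 2) k
          * ((k 0 : ℂ) ^ 2 + (k 1 : ℂ) ^ 2 + (k 2 : ℂ) ^ 2)) * hI
  funext i
  exact congrFun (key i) x

theorem vortP_eq : vortP v = vs 1 v := by
  funext x i
  simp [vortP, vs]

theorem vortM_eq : vortM v = vs (-1) v := by
  funext x i
  simp [vortM, vs]
  ring

include hv in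
/-- `curl ω⁺ = Λ ω⁺` -/
theorem curl_vortP (hdiv : ∀ x, ∑ i, pd i (fun y => v y i) x = 0) (x : V) :
    curl (vortP v) x = lamv (vortP v) x := by
  rw [vortP_eq, curl_vs hv hdiv (by norm_num), one_smul]

include hv in
/-- `curl ω⁻ = - Λ ω⁻` -/
theorem curl_vortM (hdiv : ∀ x, ∑ i, pd i (fun y => v y i) x = 0) (x : V) :
    curl (vortM v) x = -lamv (vortM v) x := by
  rw [vortM_eq, curl_vs hv hdiv (by norm_num), neg_one_smul]

theorem vort_add (x : V) : vortP v x + vortM v x = curl v x := by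
  unfold vortP vortM
  rw [← smul_add, add_add_sub_cancel, ← two_smul ℝ (curl v x), smul_smul]
  norm_num

end

end Pool.Agent.W266.NS
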