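import Pool.Agent.W266.NS.Hel

/-!
A geometric Prodi-Serrin criterion for the three-dimensional Navier-Stokes equations on the torus at
the level of the critical space `H^(1/2)`.

Let `ω = curl u` and `Λ = (-Δ)^(1/2)`. The critical norm `‖u‖²` of `H^(1/2)`, that is `∫ u · Λ u`,
satisfies
  `d/dt ∫ u · Λ u = -2 ν ‖u‖²_(H^(3/2)) + 2 ∫ det (u, ω, Λ u)`,
and the helical parts `ω⁺ = (ω + Λ u) / 2`, `ω⁻ = (ω - Λ u) / 2` of the vorticity (`curl ω⁺ = Λ ω⁺`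
and `curl ω⁻ = - Λ ω⁻`, see `curl_vortP`, `curl_vortM` in `Pool.Agent.W266.NS.Hel`) satisfy
`det (u, ω, Λ u) = -2 det (u, ω⁺, ω⁻)`. So only the positive part of the volume spanned by
`u, ω, Λ u` can lead to a singularity, and it is small where one of the two helical vorticities is
small.
-/

open MeasureTheory Set H459R3.NS Pool.Agent.W266.NS
open scoped ENNReal

set_option autoImplicit false

/-- Let `(u, P)` be a smooth `1`-periodic solution of the Navier-Stokes equations with viscosity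
`ν > 0` on `[0, T) × ℝ³`, `ω = curl u`, `Λ = (-Δ)^(1/2)`, `ω⁺ = (ω + Λ u) / 2` and
`ω⁻ = (ω - Λ u) / 2`. Let `f, g, k, e` be functions on `(0, T) × ℝ³` with
* `f ∈ L^q₁(0, T; L^p₁)`, `3 < p₁ ≤ ∞`, `3 / p₁ + 2 / q₁ = 1`,
* `g ∈ L^q₂(0, T; L^p₂)`, `3 / 2 < p₂ ≤ 6`, `3 / p₂ + 2 / q₂ = 2`,
* `k ∈ L^q₃(0, T; L^p₃)`, `1 < p₃ ≤ 3 / 2`, `3 / p₃ + 2 / q₃ = 4`,
* `e ∈ L¹(0, T; L¹)`
(the norms over the period cell at the time `t` are at most `β₁ t`, `β₂ t`, `β₃ t`, `β₄ t`). If at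
every time `t ∈ (0, T)` and every point `x`
`min (|ω⁺|, |ω⁻|) ≤ g` or `det (u, ω, Λ u) ≤ f (|ω|² + |Λ u|²) + g |u| (|ω| + |Λ u|) + k |u| + e`,
then `u` is bounded on `[0, T) × ℝ³`, so that `T` is not a blow-up time.
(`‖·‖` is the maximum norm of `ℝ³`.) In particular this holds if the smaller one of the two helical
vorticities, `min (|ω⁺|, |ω⁻|)`, is in `L^q₂(0, T; L^p₂)`, or if the positive part of
`det (u, ω, Λ u)` is integrable over `(0, T)` times the period cell. -/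
theorem Pool.Agent.W266.NS.helicalTriple
    {p₁ p₂ p₃ : ℝ≥0∞} (hp₁ : 3 < p₁) (hp₂ : 3 / 2 < p₂) (hp₂' : p₂ ≤ 6) (hp₃ : 1 < p₃)
    (hp₃' : p₃ ≤ 3 / 2) {q₁ q₂ q₃ : ℝ} (hq₁ : 3 * (p₁⁻¹).toReal + 2 / q₁ = 1)
    (hq₂ : 3 * (p₂⁻¹).toReal + 2 / q₂ = 2) (hq₃ : 3 * (p₃⁻¹).toReal + 2 / q₃ = 4)
    {ν T : ℝ} (hν : 0 < ν) {u : ℝ → V → V} {P : ℝ → V → ℝ} (h : IsSol ν T u P)
    {f g k e : ℝ → V → ℝ} {β₁ β₂ β₃ β₄ : ℝ → ℝ}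
    (hβ : ∀ t ∈ Ioo 0 T, 0 ≤ β₁ t ∧ 0 ≤ β₂ t ∧ 0 ≤ β₃ t ∧ 0 ≤ β₄ t)
    (hβ₁ : IntegrableOn (fun t => β₁ t ^ q₁) (Ioo 0 T))
    (hβ₂ : IntegrableOn (fun t => β₂ t ^ q₂) (Ioo 0 T))
    (hβ₃ : IntegrableOn (fun t => β₃ t ^ q₃) (Ioo 0 T))
    (hβ₄ : IntegrableOn β₄ (Ioo 0 T))
    (hm : ∀ t ∈ Ioo 0 T, AEStronglyMeasurable (f t) (volume.restrict cube) ∧
      AEStronglyMeasurable (g t) (volume.restrict cube) ∧
      AEStronglyMeasurable (k t) (volume.restrict cube) ∧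
      AEStronglyMeasurable (e t) (volume.restrict cube))
    (hf : ∀ t ∈ Ioo 0 T, eLpNorm (f t) p₁ (volume.restrict cube) ≤ ENNReal.ofReal (β₁ t))
    (hg : ∀ t ∈ Ioo 0 T, eLpNorm (g t) p₂ (volume.restrict cube) ≤ ENNReal.ofReal (β₂ t))
    (hk : ∀ t ∈ Ioo 0 T, eLpNorm (k t) p₃ (volume.restrict cube) ≤ ENNReal.ofReal (β₃ t))
    (he : ∀ t ∈ Ioo 0 T, eLpNorm (e t) 1 (volume.restrict cube) ≤ ENNReal.ofReal (β₄ t))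
    (H : ∀ t ∈ Ioo 0 T, ∀ x ∈ cube, min ‖vortP (u t) x‖ ‖vortM (u t) x‖ ≤ g t x ∨
      trip (u t) x ≤ f t x * (‖curl (u t) x‖ ^ 2 + ‖lamv (u t) x‖ ^ 2)
        + g t x * (‖u t x‖ * (‖curl (u t) x‖ + ‖lamv (u t) x‖)) + k t x * ‖u t x‖ + e t x) :
    ∃ M, ∀ t ∈ Ico 0 T, ∀ x i, |u t x i| ≤ M :=
  criterion_min hp₁ hp₂ hp₂' hp₃ hp₃' hq₁ hq₂ hq₃ hν h hβ hβ₁ hβ₂ hβ₃ hβ₄
    (fun t ht => (hm t ht).1) (fun t ht => (hm t ht).2.1) (fun t ht => (hm t ht).2.2.1)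
    (fun t ht => (hm t ht).2.2.2) hf hg hk he H
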