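import Pool.Agent.W266.NS.Interp

/-!
The bound of the integral of the triple product.
-/

open MeasureTheory Set Filter Topology
open scoped ENNReal
open H459R3.NS

namespace Pool.Agent.W266.NS

theorem yng {α ε : ℝ} (hα0 : 0 ≤ α) (hα1 : α < 1) (hε : 0 < ε) : ∃ D : ℝ, 0 ≤ D ∧
    ∀ m B : ℝ, 0 ≤ m → 0 ≤ B → m * B ^ α ≤ ε * B + D * m ^ (1 / (1 - α)) := by
  have h1 : 0 < 1 - α := by linarith
  refine ⟨ε ^ (-(α / (1 - α))), by positivity, fun m B hm hB => ?_⟩
  by_cases h : m * B ^ α ≤ ε * B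
  · have : 0 ≤ ε ^ (-(α / (1 - α))) * m ^ (1 / (1 - α)) := by positivity
    linarith
  push Not at h
  have hBpos : 0 < B ∨ B = 0 := (hB.lt_or_eq).imp id Eq.symm
  rcases hBpos with hB0 | hB0
  · have h2 : B ^ (1 - α) ≤ m / ε := by
      rw [le_div_iff₀ hε, Real.rpow_sub hB0, Real.rpow_one, div_mul_eq_mul_div,
        div_le_iff₀ (Real.rpow_pos_of_pos hB0 _)]
      linarith
    have h3 : B ^ α ≤ (m / ε) ^ (α / (1 - α)) := by
      have e : B ^ α = (B ^ (1 - α)) ^ (α / (1 - α)) := by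
        rw [← Real.rpow_mul hB]
        congr 1
        field_simp
      rw [e]
      exact Real.rpow_le_rpow (by positivity) h2 (by positivity)
    have h4 : m * B ^ α ≤ ε ^ (-(α / (1 - α))) * m ^ (1 / (1 - α)) := by
      rcases hm.eq_or_lt with hm0 | hm0
      · rw [← hm0, zero_mul, Real.zero_rpow (by positivity), mul_zero]
      calc m * B ^ α ≤ m * (m / ε) ^ (α / (1 - α)) := by gcongr
        _ = _ := by
          rw [Real.div_rpow hm hε.le, Real.rpow_neg hε.le]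
          have e : m ^ (1 / (1 - α)) = m * m ^ (α / (1 - α)) := by
            conv_rhs => rw [← Real.rpow_one m, ← Real.rpow_mul hm, one_mul, ← Real.rpow_add hm0]
            congr 1
            field_simp
            ring
          rw [e]
          field_simp
    have : 0 ≤ ε * B := by positivity
    linarith
  · rcases hα0.eq_or_lt with h0 | h0
    · rw [← h0, hB0]
      simp
    · rw [hB0, Real.zero_rpow h0.ne', mul_zero, mul_zero] at h
      exact absurd h (lt_irrefl _)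

theorem rpow_le_one_add {x e : ℝ} (hx : 0 ≤ x) (h0 : 0 ≤ e) (h1 : e ≤ 1) : x ^ e ≤ 1 + x := by
  rcases le_total x 1 with h | h
  · have := Real.rpow_le_one hx h h0
    linarith
  · have := Real.rpow_le_rpow_of_exponent_le h h1
    rw [Real.rpow_one] at this
    linarith

theorem sqrt_Yv_le {v : V → V} (hv : ∀ i, SP (fun y => v y i)) {r : ℝ} (h1 : 1 ≤ r) (h3 : r < 3) :
    Real.sqrt (Yv r v) ≤ Yv 1 v ^ ((3 - r) / 4) * Yv 3 v ^ ((r - 1) / 4) := by
  rw [Real.sqrt_eq_rpow]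
  refine (Real.rpow_le_rpow (Yv_nonneg r v) (interp hv h1 h3) (by norm_num)).trans (le_of_eq ?_)
  have hA := Yv_nonneg 1 v
  have hB := Yv_nonneg 3 v
  rw [Real.mul_rpow (by positivity) (by positivity), ← Real.rpow_mul hA, ← Real.rpow_mul hB]
  congr 2 <;> ring

/-- sup norm and sums -/
theorem norm_le_sum (y : V) : ‖y‖ ≤ ∑ i, |y i| := by
  rw [pi_norm_le_iff_of_nonneg (Finset.sum_nonneg fun _ _ => abs_nonneg _)]
  intro i
  rw [Real.norm_eq_abs]
  exact Finset.single_le_sum (f := fun i => |y i|) (fun _ _ => abs_nonneg _) (Finset.mem_univ i)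

theorem norm_sq_le_sum (y : V) : ‖y‖ ^ 2 ≤ ∑ i, |y i| * |y i| := by
  have h : ‖y‖ ≤ Real.sqrt (∑ i, |y i| * |y i|) := by
    rw [pi_norm_le_iff_of_nonneg (Real.sqrt_nonneg _)]
    intro i
    rw [Real.norm_eq_abs]
    apply Real.le_sqrt_of_sq_le
    rw [sq]
    exact Finset.single_le_sum (f := fun i => |y i| * |y i|)
      (fun _ _ => mul_self_nonneg _) (Finset.mem_univ i)
  calc ‖y‖ ^ 2 ≤ Real.sqrt (∑ i, |y i| * |y i|) ^ 2 := by gcongr
    _ = _ := Real.sq_sqrt (Finset.sum_nonneg fun _ _ => mul_self_nonneg _)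

section exps

theorem x1_range {p : ℝ≥0∞} (hp : 3 < p) : 0 ≤ 3 * (p⁻¹).toReal ∧ 3 * (p⁻¹).toReal < 1 :=
  ⟨by positivity, th_lt_one hp⟩

theorem x2_range {p : ℝ≥0∞} (hp : 3 / 2 < p) (hp' : p ≤ 6) :
    1 / 2 ≤ 3 * (p⁻¹).toReal ∧ 3 * (p⁻¹).toReal < 2 := by
  have hp0 : p ≠ 0 := (lt_of_le_of_lt zero_le hp).ne'
  have h1 : p⁻¹ ≠ ⊤ := ENNReal.inv_ne_top.2 hp0
  have h2 : (6 : ℝ≥0∞)⁻¹ ≤ p⁻¹ := ENNReal.inv_le_inv.2 hp'
  have h3 : p⁻¹ < (3 / 2 : ℝ≥0∞)⁻¹ := ENNReal.inv_lt_inv.2 hp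
  have e3 : (3 / 2 : ℝ≥0∞)⁻¹ ≠ ⊤ := ENNReal.inv_ne_top.2 (by simp)
  have h4 := ENNReal.toReal_mono h1 h2
  have h5 := (ENNReal.toReal_lt_toReal h1 e3).2 h3
  simp only [ENNReal.toReal_inv, ENNReal.toReal_div, ENNReal.toReal_ofNat] at h4 h5 ⊢
  constructor
  · linarith
  · linarith

theorem x3_range {p : ℝ≥0∞} (hp : 1 < p) (hp' : p ≤ 3 / 2) :
    2 / 3 ≤ (p⁻¹).toReal ∧ (p⁻¹).toReal < 1 := by
  have hp0 : p ≠ 0 := (lt_of_le_of_lt zero_le hp).ne'
  have h1 : p⁻¹ ≠ ⊤ := ENNReal.inv_ne_top.2 hp0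
  have h2 : (3 / 2 : ℝ≥0∞)⁻¹ ≤ p⁻¹ := ENNReal.inv_le_inv.2 hp'
  have h3 : p⁻¹ < (1 : ℝ≥0∞)⁻¹ := ENNReal.inv_lt_inv.2 hp
  have h4 := ENNReal.toReal_mono h1 h2
  have h5 := (ENNReal.toReal_lt_toReal h1 (by simp)).2 h3
  simp only [ENNReal.toReal_inv, ENNReal.toReal_div, ENNReal.toReal_ofNat,
    ENNReal.toReal_one] at h4 h5 ⊢
  constructor
  · linarith
  · linarith

end exps

/-- the hypothesis on the triple product of one field -/
def Hyp (v : V → V) (f g h e : V → ℝ) : Prop :=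
  ∀ x ∈ cube, trip v x ≤ f x * (‖curl v x‖ ^ 2 + ‖lamv v x‖ ^ 2)
    + g x * (‖v x‖ * (‖curl v x‖ + ‖lamv v x‖)) + h x * ‖v x‖ + e x

theorem Hyp.pt {v : V → V} {f g h e : V → ℝ} (H : Hyp v f g h e) {x : V} (hx : x ∈ cube) :
    ENNReal.ofReal (trip v x) ≤ (∑ b, ∑ i, ‖f x * (cm v b i x * cm v b i x)‖ₑ)
      + (∑ j, ∑ b, ∑ i, ‖g x * (v x j * cm v b i x)‖ₑ) + (∑ j, ‖h x * (v x j * 1)‖ₑ)
      + ‖e x‖ₑ := by
  have h1 : ‖curl v x‖ ^ 2 + ‖lamv v x‖ ^ 2 ≤ ∑ b, ∑ i, |cm v b i x| * |cm v b i x| := by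
    rw [Fintype.sum_bool]
    exact add_le_add (norm_sq_le_sum _) (norm_sq_le_sum _)
  have h2 : ‖curl v x‖ + ‖lamv v x‖ ≤ ∑ b, ∑ i, |cm v b i x| := by
    rw [Fintype.sum_bool]
    exact add_le_add (norm_le_sum _) (norm_le_sum _)
  have h3 := norm_le_sum (v x)
  have hn1 : 0 ≤ ‖curl v x‖ ^ 2 + ‖lamv v x‖ ^ 2 := by positivity
  have hn2 : 0 ≤ ‖curl v x‖ + ‖lamv v x‖ := by positivity
  have key : trip v x ≤ (∑ b, ∑ i, |f x * (cm v b i x * cm v b i x)|)
      + (∑ j, ∑ b, ∑ i, |g x * (v x j * cm v b i x)|) + (∑ j, |h x * (v x j * 1)|) + |e x| := by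
    refine (H x hx).trans (add_le_add (add_le_add (add_le_add ?_ ?_) ?_) (le_abs_self _))
    · calc f x * (‖curl v x‖ ^ 2 + ‖lamv v x‖ ^ 2)
          ≤ |f x| * ∑ b, ∑ i, |cm v b i x| * |cm v b i x| :=
            mul_le_mul (le_abs_self _) h1 hn1 (abs_nonneg _)
        _ = _ := by
            rw [Finset.mul_sum]
            refine Finset.sum_congr rfl fun b _ => ?_
            rw [Finset.mul_sum]
            refine Finset.sum_congr rfl fun i _ => ?_
            rw [abs_mul, abs_mul]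
    · calc g x * (‖v x‖ * (‖curl v x‖ + ‖lamv v x‖))
          ≤ |g x| * ((∑ j, |v x j|) * ∑ b, ∑ i, |cm v b i x|) :=
            mul_le_mul (le_abs_self _) (mul_le_mul h3 h2 hn2
              (Finset.sum_nonneg fun _ _ => abs_nonneg _))
              (mul_nonneg (norm_nonneg _) hn2) (abs_nonneg _)
        _ = _ := by
            rw [Finset.sum_mul, Finset.mul_sum]
            refine Finset.sum_congr rfl fun j _ => ?_
            rw [Finset.mul_sum, Finset.mul_sum]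
            refine Finset.sum_congr rfl fun b _ => ?_
            rw [Finset.mul_sum, Finset.mul_sum]
            refine Finset.sum_congr rfl fun i _ => ?_
            rw [abs_mul, abs_mul]
    · calc h x * ‖v x‖ ≤ |h x| * ∑ j, |v x j| :=
            mul_le_mul (le_abs_self _) h3 (norm_nonneg _) (abs_nonneg _)
        _ = _ := by
            rw [Finset.mul_sum]
            refine Finset.sum_congr rfl fun j _ => ?_
            rw [mul_one, abs_mul]
  refine (ENNReal.ofReal_le_ofReal key).trans (le_of_eq ?_)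
  have ee : ∀ y : ℝ, ‖y‖ₑ = ENNReal.ofReal |y| := fun y => by
    rw [← Real.norm_eq_abs, ofReal_norm]
  simp_rw [ee]
  rw [ENNReal.ofReal_add (by positivity) (by positivity),
    ENNReal.ofReal_add (by positivity) (by positivity),
    ENNReal.ofReal_add (by positivity) (by positivity),
    ENNReal.ofReal_sum_of_nonneg (fun b _ => by positivity),
    ENNReal.ofReal_sum_of_nonneg (fun b _ => by positivity),
    ENNReal.ofReal_sum_of_nonneg (fun b _ => by positivity)]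
  congr 3
  · refine Finset.sum_congr rfl fun b _ => ?_
    rw [ENNReal.ofReal_sum_of_nonneg (fun b _ => by positivity)]
  · refine Finset.sum_congr rfl fun b _ => ?_
    rw [ENNReal.ofReal_sum_of_nonneg (fun b _ => by positivity)]
    refine Finset.sum_congr rfl fun b _ => ?_
    rw [ENNReal.ofReal_sum_of_nonneg (fun b _ => by positivity)]

end Pool.Agent.W266.NS
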