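import Pool.Agent.W266.NS.IntTrip

/-!
The bound of the integral of the triple product, continued.
-/

open MeasureTheory Set Filter Topology
open scoped ENNReal
open H459R3.NS

namespace Pool.Agent.W266.NS

/-- The functions `f, g, h` and the bounds of their norms. -/
structure Cls (p₁ p₂ p₃ : ℝ≥0∞) (f g h e : V → ℝ) (β₁ β₂ β₃ β₄ : ℝ) : Prop where
  mf : AEStronglyMeasurable f μc
  mg : AEStronglyMeasurable g μc
  mh : AEStronglyMeasurable h μc
  me : AEStronglyMeasurable e μc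
  n1 : 0 ≤ β₁
  n2 : 0 ≤ β₂
  n3 : 0 ≤ β₃
  n4 : 0 ≤ β₄
  bf : eLpNorm f p₁ μc ≤ ENNReal.ofReal β₁
  bg : eLpNorm g p₂ μc ≤ ENNReal.ofReal β₂
  bh : eLpNorm h p₃ μc ≤ ENNReal.ofReal β₃
  be : eLpNorm e 1 μc ≤ ENNReal.ofReal β₄

theorem int_trip_le {p₁ p₂ p₃ : ℝ≥0∞} (h1 : 3 < p₁) (h2 : 3 / 2 < p₂) (h2' : p₂ ≤ 6)
    (h3 : 1 < p₃) (h3' : p₃ ≤ 3 / 2) : ∃ C : ℝ, 0 ≤ C ∧
    ∀ (v : V → V) (f g h e : V → ℝ) (β₁ β₂ β₃ β₄ : ℝ), (∀ i, SP (fun y => v y i)) →
      Cls p₁ p₂ p₃ f g h e β₁ β₂ β₃ β₄ → Hyp v f g h e →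
      ∫ x in cube, trip v x ≤ C * (β₁ * Yv (3 * (p₁⁻¹).toReal + 2) v
        + β₂ * (Real.sqrt (Yv ((4 * (3 * (p₂⁻¹).toReal) + 1) / 3) v)
          * Real.sqrt (Yv ((2 * (3 * (p₂⁻¹).toReal) - 1) / 3 + 2) v))
        + β₃ * Real.sqrt (Yv (6 * (p₃⁻¹).toReal - 3) v)) + β₄ := by
  obtain ⟨a1, b1⟩ := x1_range h1
  obtain ⟨a2, b2⟩ := x2_range h2 h2'
  obtain ⟨a3, b3⟩ := x3_range h3 h3'
  set x₁ : ℝ := 3 * (p₁⁻¹).toReal with hx1
  set x₂ : ℝ := 3 * (p₂⁻¹).toReal with hx2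
  set r₃ : ℝ := 6 * (p₃⁻¹).toReal - 3 with hr3
  obtain ⟨C1, hC1, T1⟩ := term_le (p := p₁) (lt_of_le_of_lt zero_le h1).ne' (ra := x₁) (rb := x₁)
    a1 (by linarith) a1 (by linarith) (by linarith)
  obtain ⟨C2, hC2, T2⟩ := term_le (p := p₂) (lt_of_le_of_lt zero_le h2).ne'
    (ra := (4 * x₂ + 1) / 3) (rb := (2 * x₂ - 1) / 3) (by linarith) (by linarith) (by linarith)
    (by linarith) (by linarith)
  obtain ⟨C3, hC3, T3⟩ := term1_le (p := p₃) (lt_of_le_of_lt zero_le h3).ne' (ra := r₃)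
    (by linarith) (by linarith) (by linarith)
  have hπ := Real.pi_pos
  set c : ℝ := 16 * Real.pi ^ 2 with hc
  have hc0 : 0 ≤ c := by positivity
  refine ⟨6 * (C1 * c) + 18 * (C2 * Real.sqrt c) + 3 * C3, by positivity,
    fun v f g h e β₁ β₂ β₃ β₄ hv hC H => ?_⟩
  -- the three kinds of terms
  have t1 : ∀ b i, ∫⁻ x in cube, ‖f x * (cm v b i x * cm v b i x)‖ₑ
      ≤ ENNReal.ofReal (C1 * (β₁ * (c * Yv (x₁ + 2) v))) := by
    intro b i
    refine (T1 f β₁ hC.mf hC.n1 hC.bf _ _ (sp_cm hv b i) (sp_cm hv b i)).trans ?_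
    apply ENNReal.ofReal_le_ofReal
    have h1 := Xs_cm_le hv b i x₁
    have h0 := hC.n1
    rw [Real.mul_self_sqrt (Xs_nonneg _ _)]
    gcongr
  have t2 : ∀ j b i, ∫⁻ x in cube, ‖g x * (v x j * cm v b i x)‖ₑ
      ≤ ENNReal.ofReal (C2 * (β₂ * (Real.sqrt (Yv ((4 * x₂ + 1) / 3) v)
        * (Real.sqrt c * Real.sqrt (Yv ((2 * x₂ - 1) / 3 + 2) v))))) := by
    intro j b i
    refine (T2 g β₂ hC.mg hC.n2 hC.bg _ _ (hv j) (sp_cm hv b i)).trans ?_
    apply ENNReal.ofReal_le_ofReal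
    have h1 := Xs_cm_le hv b i ((2 * x₂ - 1) / 3)
    have h2 := Xs_comp_le hv j ((4 * x₂ + 1) / 3)
    have h0 := hC.n2
    rw [← Real.sqrt_mul hc0]
    gcongr
  have t3 : ∀ j, ∫⁻ x in cube, ‖h x * (v x j * 1)‖ₑ
      ≤ ENNReal.ofReal (C3 * (β₃ * Real.sqrt (Yv r₃ v))) := by
    intro j
    refine (T3 h β₃ hC.mh hC.n3 hC.bh _ (hv j)).trans ?_
    apply ENNReal.ofReal_le_ofReal
    have h2 := Xs_comp_le hv j r₃
    have h0 := hC.n3
    gcongr
  set A1 : ℝ := C1 * (β₁ * (c * Yv (x₁ + 2) v)) with hA1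
  set A2 : ℝ := C2 * (β₂ * (Real.sqrt (Yv ((4 * x₂ + 1) / 3) v)
        * (Real.sqrt c * Real.sqrt (Yv ((2 * x₂ - 1) / 3 + 2) v)))) with hA2
  set A3 : ℝ := C3 * (β₃ * Real.sqrt (Yv r₃ v)) with hA3
  have n1 := hC.n1
  have n2 := hC.n2
  have n3 := hC.n3
  have n4 := hC.n4
  have y1 := Yv_nonneg (x₁ + 2) v
  have hA1' : 0 ≤ A1 := by positivity
  have hA2' : 0 ≤ A2 := by positivity
  have hA3' : 0 ≤ A3 := by positivity
  -- measurability
  have mcm : ∀ b i, AEStronglyMeasurable (cm v b i) μc := fun b i =>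
    (sp_cm hv b i).cont.aestronglyMeasurable
  have mv : ∀ j, AEStronglyMeasurable (fun x => v x j) μc := fun j =>
    (hv j).cont.aestronglyMeasurable
  have m1 : ∀ b i, AEMeasurable (fun x => ‖f x * (cm v b i x * cm v b i x)‖ₑ) μc := fun b i =>
    (hC.mf.mul ((mcm b i).mul (mcm b i))).enorm
  have m2 : ∀ j b i, AEMeasurable (fun x => ‖g x * (v x j * cm v b i x)‖ₑ) μc := fun j b i =>
    (hC.mg.mul ((mv j).mul (mcm b i))).enorm
  have m3 : ∀ j, AEMeasurable (fun x => ‖h x * (v x j * 1)‖ₑ) μc := fun j =>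
    (hC.mh.mul ((mv j).mul aestronglyMeasurable_const)).enorm
  have M1 : AEMeasurable (fun x => ∑ b, ∑ i, ‖f x * (cm v b i x * cm v b i x)‖ₑ) μc :=
    Finset.aemeasurable_fun_sum _ fun b _ => Finset.aemeasurable_fun_sum _ fun i _ => m1 b i
  have M2 : AEMeasurable (fun x => ∑ j, ∑ b, ∑ i, ‖g x * (v x j * cm v b i x)‖ₑ) μc :=
    Finset.aemeasurable_fun_sum _ fun j _ => Finset.aemeasurable_fun_sum _ fun b _ =>
      Finset.aemeasurable_fun_sum _ fun i _ => m2 j b i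
  have M12 : AEMeasurable (fun x => (∑ b, ∑ i, ‖f x * (cm v b i x * cm v b i x)‖ₑ)
      + (∑ j, ∑ b, ∑ i, ‖g x * (v x j * cm v b i x)‖ₑ)) μc := M1.add M2
  have m3s : AEMeasurable (fun x => ∑ j, ‖h x * (v x j * 1)‖ₑ) μc :=
    Finset.aemeasurable_fun_sum _ fun j _ => m3 j
  have M123 : AEMeasurable (fun x => ((∑ b, ∑ i, ‖f x * (cm v b i x * cm v b i x)‖ₑ)
      + (∑ j, ∑ b, ∑ i, ‖g x * (v x j * cm v b i x)‖ₑ)) + ∑ j, ‖h x * (v x j * 1)‖ₑ) μc :=
    M12.add m3s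
  have t4 : ∫⁻ x in cube, ‖e x‖ₑ ≤ ENNReal.ofReal β₄ := by
    have := hC.be
    rwa [eLpNorm_one_eq_lintegral_enorm] at this
  have eA1 : ENNReal.ofReal (6 * A1) = 6 * ENNReal.ofReal A1 := by
    rw [ENNReal.ofReal_mul (by norm_num)]; simp
  have eA2 : ENNReal.ofReal (18 * A2) = 18 * ENNReal.ofReal A2 := by
    rw [ENNReal.ofReal_mul (by norm_num)]; simp
  have eA3 : ENNReal.ofReal (3 * A3) = 3 * ENNReal.ofReal A3 := by
    rw [ENNReal.ofReal_mul (by norm_num)]; simp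
  have key : ∫⁻ x in cube, ENNReal.ofReal (trip v x)
      ≤ ENNReal.ofReal (6 * A1 + 18 * A2 + 3 * A3 + β₄) := by
    calc ∫⁻ x in cube, ENNReal.ofReal (trip v x)
        ≤ ∫⁻ x in cube, ((∑ b, ∑ i, ‖f x * (cm v b i x * cm v b i x)‖ₑ)
          + (∑ j, ∑ b, ∑ i, ‖g x * (v x j * cm v b i x)‖ₑ) + (∑ j, ‖h x * (v x j * 1)‖ₑ)
          + ‖e x‖ₑ) :=
          setLIntegral_mono_ae' measurableSet_Icc (Filter.Eventually.of_forall
            fun x hx => H.pt hx)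
      _ = (∑ b, ∑ i, ∫⁻ x in cube, ‖f x * (cm v b i x * cm v b i x)‖ₑ)
          + (∑ j, ∑ b, ∑ i, ∫⁻ x in cube, ‖g x * (v x j * cm v b i x)‖ₑ)
          + (∑ j, ∫⁻ x in cube, ‖h x * (v x j * 1)‖ₑ) + ∫⁻ x in cube, ‖e x‖ₑ := by
          rw [lintegral_add_left' M123, lintegral_add_left' M12, lintegral_add_left' M1,
            lintegral_finsetSum' _ fun b _ => Finset.aemeasurable_fun_sum _ fun i _ => m1 b i,
            lintegral_finsetSum' _ fun j _ => Finset.aemeasurable_fun_sum _ fun b _ =>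
              Finset.aemeasurable_fun_sum _ fun i _ => m2 j b i,
            lintegral_finsetSum' _ fun j _ => m3 j]
          congr 3
          · refine Finset.sum_congr rfl fun b _ => ?_
            rw [lintegral_finsetSum' _ fun i _ => m1 b i]
          · refine Finset.sum_congr rfl fun j _ => ?_
            rw [lintegral_finsetSum' _ fun b _ => Finset.aemeasurable_fun_sum _ fun i _ => m2 j b i]
            refine Finset.sum_congr rfl fun b _ => ?_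
            rw [lintegral_finsetSum' _ fun i _ => m2 j b i]
      _ ≤ (∑ _b : Bool, ∑ _i : Fin 3, ENNReal.ofReal A1)
          + (∑ _j : Fin 3, ∑ _b : Bool, ∑ _i : Fin 3, ENNReal.ofReal A2)
          + (∑ _j : Fin 3, ENNReal.ofReal A3) + ENNReal.ofReal β₄ := by
          gcongr with b _ i _ j _ b _ i _ j _
          · exact t1 b i
          · exact t2 j b i
          · exact t3 j
      _ = _ := by
          simp only [Finset.sum_const, Finset.card_univ, Fintype.card_fin, Fintype.card_bool,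
            nsmul_eq_mul]
          rw [ENNReal.ofReal_add (by positivity) (by positivity),
            ENNReal.ofReal_add (by positivity) (by positivity),
            ENNReal.ofReal_add (by positivity) (by positivity), eA1, eA2, eA3]
          push_cast
          ring
  have hint : Integrable (trip v) μc := integrableOn_cube (trip_cont hv)
  have h5 : ∫ x in cube, trip v x ≤ 6 * A1 + 18 * A2 + 3 * A3 + β₄ := by
    have h6 : ∫ x in cube, trip v x ≤ (∫⁻ x in cube, ENNReal.ofReal (trip v x)).toReal := by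
      rw [integral_eq_lintegral_pos_part_sub_lintegral_neg_part hint]
      have : 0 ≤ (∫⁻ x in cube, ENNReal.ofReal (-trip v x)).toReal := ENNReal.toReal_nonneg
      linarith
    refine h6.trans ?_
    have h7 := ENNReal.toReal_mono ENNReal.ofReal_ne_top key
    rwa [ENNReal.toReal_ofReal (by positivity)] at h7
  refine h5.trans ?_
  have s1 : 0 ≤ β₁ * Yv (x₁ + 2) v := by positivity
  have s2 : 0 ≤ β₂ * (Real.sqrt (Yv ((4 * x₂ + 1) / 3) v)
    * Real.sqrt (Yv ((2 * x₂ - 1) / 3 + 2) v)) := by positivity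
  have s3 : 0 ≤ β₃ * Real.sqrt (Yv r₃ v) := by positivity
  have q1 : 0 ≤ C1 * c := by positivity
  have q2 : 0 ≤ C2 * Real.sqrt c := by positivity
  set S1 := β₁ * Yv (x₁ + 2) v with hS1
  set S2 := β₂ * (Real.sqrt (Yv ((4 * x₂ + 1) / 3) v)
    * Real.sqrt (Yv ((2 * x₂ - 1) / 3 + 2) v)) with hS2
  set S3 := β₃ * Real.sqrt (Yv r₃ v) with hS3
  have e1 : A1 = (C1 * c) * S1 := by rw [hA1, hS1]; ring
  have e2 : A2 = (C2 * Real.sqrt c) * S2 := by rw [hA2, hS2]; ring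
  have e3 : A3 = C3 * S3 := by rw [hA3]
  rw [e1, e2, e3]
  have z1 := mul_nonneg q1 s2
  have z2 := mul_nonneg q1 s3
  have z3 := mul_nonneg q2 s1
  have z4 := mul_nonneg q2 s3
  have z5 := mul_nonneg hC3 s1
  have z6 := mul_nonneg hC3 s2
  nlinarith

end Pool.Agent.W266.NS
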