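import Pool.Agent.W266.NS.Leb

/-!
Interpolation, and the bound of the integral of the triple product.
-/

open MeasureTheory Set Filter Topology
open scoped ENNReal
open H459R3.NS

namespace Pool.Agent.W266.NS

/-- `∑ |v̂ᵢ(k)|²` -/
noncomputable def U (v : V → V) (k : K3) : ℝ := ∑ i, ‖fr (fun y => v y i) k‖ ^ 2

theorem U_nonneg (v : V → V) (k : K3) : 0 ≤ U v k := Finset.sum_nonneg fun _ _ => sq_nonneg _

/-- Sobolev norms (squared) -/
noncomputable def Yv (r : ℝ) (v : V → V) : ℝ := ∑' k, W k ^ r * U v k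

theorem Yv_term_nonneg (r : ℝ) (v : V → V) (k : K3) : 0 ≤ W k ^ r * U v k :=
  mul_nonneg (Real.rpow_nonneg (W_pos k).le _) (U_nonneg v k)

theorem Yv_nonneg (r : ℝ) (v : V → V) : 0 ≤ Yv r v := tsum_nonneg fun k => Yv_term_nonneg r v k

section

variable {v : V → V} (hv : ∀ i, SP (fun y => v y i))

include hv in
theorem summable_Yv (r : ℝ) : Summable fun k => W k ^ r * U v k := by
  unfold U
  simp_rw [Finset.mul_sum]
  exact summable_sum fun i _ => summable_Xs (rap_fr (hv i))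

include hv in
theorem interp {r : ℝ} (h1 : 1 ≤ r) (h3 : r < 3) :
    Yv r v ≤ Yv 1 v ^ ((3 - r) / 2) * Yv 3 v ^ ((r - 1) / 2) := by
  rcases h1.eq_or_lt with h | h
  · rw [← h]
    norm_num
  have a1 : 0 < (3 - r) / 2 := by linarith
  have a2 : 0 < (r - 1) / 2 := by linarith
  have hpq : Real.HolderConjugate ((3 - r) / 2)⁻¹ ((r - 1) / 2)⁻¹ := by
    rw [Real.holderConjugate_iff]
    constructor
    · apply (one_lt_inv₀ a1).2
      linarith
    · rw [inv_inv, inv_inv]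
      ring
  have e1 : ∀ k, ((W k ^ (1 : ℝ) * U v k) ^ ((3 - r) / 2)) ^ ((3 - r) / 2)⁻¹
      = W k ^ (1 : ℝ) * U v k := fun k => by
    rw [← Real.rpow_mul (Yv_term_nonneg 1 v k), mul_inv_cancel₀ a1.ne', Real.rpow_one]
  have e2 : ∀ k, ((W k ^ (3 : ℝ) * U v k) ^ ((r - 1) / 2)) ^ ((r - 1) / 2)⁻¹
      = W k ^ (3 : ℝ) * U v k := fun k => by
    rw [← Real.rpow_mul (Yv_term_nonneg 3 v k), mul_inv_cancel₀ a2.ne', Real.rpow_one]
  have key := Real.inner_le_Lp_mul_Lq_tsum_of_nonneg hpq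
    (f := fun k => (W k ^ (1 : ℝ) * U v k) ^ ((3 - r) / 2))
    (g := fun k => (W k ^ (3 : ℝ) * U v k) ^ ((r - 1) / 2))
    (fun k => Real.rpow_nonneg (Yv_term_nonneg 1 v k) _)
    (fun k => Real.rpow_nonneg (Yv_term_nonneg 3 v k) _)
    (by simp_rw [e1]; exact summable_Yv hv 1) (by simp_rw [e2]; exact summable_Yv hv 3)
  simp_rw [e1, e2] at key
  rw [one_div, one_div, inv_inv, inv_inv] at key
  refine le_trans (le_of_eq ?_) key
  unfold Yv
  refine tsum_congr fun k => ?_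
  have hW := W_pos k
  rw [Real.mul_rpow (by positivity) (U_nonneg v k), Real.mul_rpow (by positivity) (U_nonneg v k),
    ← Real.rpow_mul hW.le, ← Real.rpow_mul hW.le]
  have e3 : W k ^ r = W k ^ (1 * ((3 - r) / 2)) * W k ^ (3 * ((r - 1) / 2)) := by
    rw [← Real.rpow_add hW]
    congr 1
    ring
  have e4 : U v k = U v k ^ ((3 - r) / 2) * U v k ^ ((r - 1) / 2) := by
    rw [← Real.rpow_add_of_nonneg (U_nonneg v k) a1.le a2.le]
    rw [show (3 - r) / 2 + (r - 1) / 2 = 1 by ring, Real.rpow_one]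
  rw [e3]
  conv_lhs => rw [e4]
  ring

include hv in
theorem Xs_le_Yv {φ : V → ℝ} (hφ : SP φ) {c : ℝ} {n : ℕ}
    (h : ∀ k, ‖fr φ k‖ ^ 2 ≤ c * (W k ^ n * U v k)) (r : ℝ) :
    Xs r (fr φ) ≤ c * Yv (r + n) v := by
  unfold Xs Yv
  rw [← tsum_mul_left]
  refine Summable.tsum_le_tsum (fun k => ?_) (summable_Xs (rap_fr hφ))
    ((summable_Yv hv _).mul_left c)
  have hW := W_pos k
  calc W k ^ r * ‖fr φ k‖ ^ 2 ≤ W k ^ r * (c * (W k ^ n * U v k)) := by
        gcongr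
        exact h k
    _ = c * (W k ^ (r + n) * U v k) := by
        rw [Real.rpow_add hW, Real.rpow_natCast]
        ring

include hv in
theorem Xs_comp_le (i : Fin 3) (r : ℝ) : Xs r (fr (fun y => v y i)) ≤ Yv r v := by
  have h := Xs_le_Yv hv (hv i) (c := 1) (n := 0) (fun k => ?_) r
  · simpa using h
  · rw [one_mul, pow_zero, one_mul]
    exact Finset.single_le_sum (f := fun i => ‖fr (fun y => v y i) k‖ ^ 2)
      (fun _ _ => sq_nonneg _) (Finset.mem_univ i)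

theorem norm_comp_le (v : V → V) (i : Fin 3) (k : K3) :
    ‖fr (fun y => v y i) k‖ ^ 2 ≤ U v k :=
  Finset.single_le_sum (f := fun i => ‖fr (fun y => v y i) k‖ ^ 2)
      (fun _ _ => sq_nonneg _) (Finset.mem_univ i)

/-- the components of the curl and of `Λ v` -/
noncomputable def cm (v : V → V) (b : Bool) (i : Fin 3) (x : V) : ℝ :=
  if b then curl v x i else lamv v x i

include hv in
theorem sp_curl (i : Fin 3) : SP (fun x => curl v x i) := by
  fin_cases i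
  · exact ((hv 2).pd 1).sub ((hv 1).pd 2)
  · exact ((hv 0).pd 2).sub ((hv 2).pd 0)
  · exact ((hv 1).pd 0).sub ((hv 0).pd 1)

include hv in
theorem sp_cm (b : Bool) (i : Fin 3) : SP (cm v b i) := by
  cases b
  · exact SP.Lam (hv i)
  · exact sp_curl hv i

theorem fr_sub {f g : V → ℝ} (hf : SP f) (hg : SP g) (k : K3) :
    fr (fun x => f x - g x) k = fr f k - fr g k := by
  have i1 : Integrable (fun x => ee (-k) x * (f x : ℂ)) (volume.restrict cube) :=
    integrableOn_cube ((ee_continuous _).mul (contDiff_ofReal hf.smooth).continuous)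
  have i2 : Integrable (fun x => ee (-k) x * (g x : ℂ)) (volume.restrict cube) :=
    integrableOn_cube ((ee_continuous _).mul (contDiff_ofReal hg.smooth).continuous)
  unfold fr fc
  simp only
  rw [← integral_sub i1 i2]
  congr 1
  funext x
  push_cast
  ring

include hv in
theorem norm_curl_aux {i j l m : Fin 3} (k : K3) :
    ‖fr (fun x => pd i (fun y => v y j) x - pd l (fun y => v y m) x) k‖ ^ 2
      ≤ 16 * Real.pi ^ 2 * (W k ^ 2 * U v k) := by
  rw [fr_sub ((hv j).pd i) ((hv m).pd l), fr_pd (hv j), fr_pd (hv m)]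
  have h1 : ∀ i j, ‖D i (fr fun y => v y j) k‖ ≤ 2 * Real.pi * (W k * Real.sqrt (U v k)) := by
    intro i j
    refine (norm_D_le i _ k).trans ?_
    have h2 : ‖fr (fun y => v y j) k‖ ≤ Real.sqrt (U v k) :=
      Real.le_sqrt_of_sq_le (norm_comp_le v j k)
    have h3 := N_le_W k
    have h4 := Real.pi_pos
    have h5 := (W_pos k).le
    gcongr
  calc ‖D i (fr fun y => v y j) k - D l (fr fun y => v y m) k‖ ^ 2
      ≤ (2 * Real.pi * (W k * Real.sqrt (U v k)) + 2 * Real.pi * (W k * Real.sqrt (U v k))) ^ 2 := by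
        gcongr
        exact (norm_sub_le _ _).trans (add_le_add (h1 i j) (h1 l m))
    _ = 16 * Real.pi ^ 2 * (W k ^ 2 * Real.sqrt (U v k) ^ 2) := by ring
    _ = _ := by rw [Real.sq_sqrt (U_nonneg v k)]

include hv in
theorem norm_cm_le (b : Bool) (i : Fin 3) (k : K3) :
    ‖fr (cm v b i) k‖ ^ 2 ≤ 16 * Real.pi ^ 2 * (W k ^ 2 * U v k) := by
  cases b
  · have e : cm v false i = Lam (fun y => v y i) := rfl
    rw [e, fr_Lam (hv i), norm_L]
    have h1 := sy_le k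
    have h2 := sy_nonneg k
    have h3 := N_le_W k
    have h4 := norm_comp_le v i k
    have h5 := Real.pi_pos
    calc (sy k * ‖fr (fun y => v y i) k‖) ^ 2 = sy k ^ 2 * ‖fr (fun y => v y i) k‖ ^ 2 := by ring
      _ ≤ (4 * Real.pi * W k) ^ 2 * U v k := by
        gcongr
        exact h1.trans (by gcongr)
      _ = _ := by ring
  · fin_cases i
    · exact norm_curl_aux hv k
    · exact norm_curl_aux hv k
    · exact norm_curl_aux hv k

include hv in
theorem Xs_cm_le (b : Bool) (i : Fin 3) (r : ℝ) :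
    Xs r (fr (cm v b i)) ≤ 16 * Real.pi ^ 2 * Yv (r + 2) v := by
  have h := Xs_le_Yv hv (sp_cm hv b i) (n := 2) (fun k => norm_cm_le hv b i k) r
  exact_mod_cast h

end

theorem inv_ofReal {r : ℝ} (hr : r < 3) :
    (ENNReal.ofReal (6 / (3 - r)))⁻¹ = ENNReal.ofReal ((3 - r) / 6) := by
  have : 0 < 3 - r := by linarith
  rw [← ENNReal.ofReal_inv_of_pos (by positivity), inv_div]

theorem term_le {p : ℝ≥0∞} (hp : p ≠ 0) {ra rb : ℝ} (ha0 : 0 ≤ ra) (ha3 : ra < 3) (hb0 : 0 ≤ rb)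
    (hb3 : rb < 3) (he : (p⁻¹).toReal + ((3 - ra) / 6 + (3 - rb) / 6) = 1) :
    ∃ C : ℝ, 0 ≤ C ∧ ∀ (g : V → ℝ) (β : ℝ), AEStronglyMeasurable g μc → 0 ≤ β →
      eLpNorm g p μc ≤ ENNReal.ofReal β → ∀ f k : V → ℝ, SP f → SP k →
      ∫⁻ x in cube, ‖g x * (f x * k x)‖ₑ
        ≤ ENNReal.ofReal (C * (β * (Real.sqrt (Xs ra (fr f)) * Real.sqrt (Xs rb (fr k))))) := by
  obtain ⟨Ca, hCa, ha⟩ := eLp_le ha0 ha3
  obtain ⟨Cb, hCb, hb⟩ := eLp_le hb0 hb3
  refine ⟨Ca * Cb, by positivity, fun g β hg hβ hgβ f k hf hk => ?_⟩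
  have hexp : p⁻¹ + ((ENNReal.ofReal (6 / (3 - ra)))⁻¹ + (ENNReal.ofReal (6 / (3 - rb)))⁻¹)
      = 1 := by
    rw [inv_ofReal ha3, inv_ofReal hb3, ← ENNReal.ofReal_toReal (ENNReal.inv_ne_top.2 hp),
      ← ENNReal.ofReal_add (by linarith) (by linarith), ← ENNReal.ofReal_add
      ENNReal.toReal_nonneg (by linarith), he, ENNReal.ofReal_one]
  refine (hol3 hexp hg hf.cont.aestronglyMeasurable hk.cont.aestronglyMeasurable).trans ?_
  have h1 := ha f hf
  have h2 := hb k hk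
  calc eLpNorm g p μc * (eLpNorm f _ μc * eLpNorm k _ μc)
      ≤ ENNReal.ofReal β * (ENNReal.ofReal (Ca * Real.sqrt (Xs ra (fr f)))
        * ENNReal.ofReal (Cb * Real.sqrt (Xs rb (fr k)))) := by gcongr
    _ = _ := by
        rw [← ENNReal.ofReal_mul (by positivity), ← ENNReal.ofReal_mul hβ]
        congr 1
        ring

theorem term1_le {p : ℝ≥0∞} (hp : p ≠ 0) {ra : ℝ} (ha0 : 0 ≤ ra) (ha3 : ra < 3)
    (he : (p⁻¹).toReal + (3 - ra) / 6 = 1) :
    ∃ C : ℝ, 0 ≤ C ∧ ∀ (g : V → ℝ) (β : ℝ), AEStronglyMeasurable g μc → 0 ≤ β →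
      eLpNorm g p μc ≤ ENNReal.ofReal β → ∀ f : V → ℝ, SP f →
      ∫⁻ x in cube, ‖g x * (f x * 1)‖ₑ
        ≤ ENNReal.ofReal (C * (β * Real.sqrt (Xs ra (fr f)))) := by
  obtain ⟨Ca, hCa, ha⟩ := eLp_le ha0 ha3
  refine ⟨Ca, hCa, fun g β hg hβ hgβ f hf => ?_⟩
  have hexp : p⁻¹ + ((ENNReal.ofReal (6 / (3 - ra)))⁻¹ + (⊤ : ℝ≥0∞)⁻¹) = 1 := by
    rw [inv_ofReal ha3, ENNReal.inv_top, add_zero,
      ← ENNReal.ofReal_toReal (ENNReal.inv_ne_top.2 hp),
      ← ENNReal.ofReal_add ENNReal.toReal_nonneg (by linarith), he, ENNReal.ofReal_one]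
  refine (hol3 hexp hg hf.cont.aestronglyMeasurable
    (k := fun _ => (1 : ℝ)) aestronglyMeasurable_const).trans ?_
  have h1 := ha f hf
  have h2 : eLpNorm (fun _ : V => (1 : ℝ)) ⊤ μc ≤ 1 := by
    refine (eLpNorm_le_of_ae_bound (C := 1) (Filter.Eventually.of_forall fun x => by simp)).trans ?_
    simp
  calc eLpNorm g p μc * (eLpNorm f _ μc * eLpNorm (fun _ : V => (1 : ℝ)) ⊤ μc)
      ≤ ENNReal.ofReal β * (ENNReal.ofReal (Ca * Real.sqrt (Xs ra (fr f))) * 1) := by gcongr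
    _ = _ := by
        rw [mul_one, ← ENNReal.ofReal_mul hβ]
        congr 1
        ring

end Pool.Agent.W266.NS
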