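import Pool.Agent.W266.NS.Smooth

/-!
The operator `Λ = (-Δ)^(1/2)` on smooth periodic functions.
-/

open MeasureTheory Set Filter Topology
open scoped ContDiff
open H459R3.NS

namespace Pool.Agent.W266.NS

/-- The Euclidean length of a frequency. -/
noncomputable def nk (k : K3) : ℝ := Real.sqrt (∑ j, (k j : ℝ) ^ 2)

theorem nk_nonneg (k : K3) : 0 ≤ nk k := Real.sqrt_nonneg _

theorem nk_sq (k : K3) : nk k ^ 2 = ∑ j, (k j : ℝ) ^ 2 :=
  Real.sq_sqrt (Finset.sum_nonneg fun _ _ => sq_nonneg _)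

theorem nk_neg (k : K3) : nk (-k) = nk k := by
  unfold nk
  simp

theorem nk_zero : nk 0 = 0 := by simp [nk]

theorem N_le_nk (k : K3) : (N k : ℝ) ≤ nk k := by
  have h := N_sq_le k
  rw [← nk_sq] at h
  exact (sq_le_sq₀ (by positivity) (nk_nonneg k)).1 h

theorem abs_le_Nk (k : K3) (j : Fin 3) : |(k j : ℝ)| ≤ N k := by
  have h := (N_le_iff k (N k)).1 le_rfl j
  exact_mod_cast h

theorem nk_le (k : K3) : nk k ≤ 2 * N k := by
  have hN : (0 : ℝ) ≤ N k := by positivity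
  have h : nk k ^ 2 ≤ (2 * (N k : ℝ)) ^ 2 := by
    rw [nk_sq, Fin.sum_univ_three]
    have h0 := abs_le_Nk k 0
    have h1 := abs_le_Nk k 1
    have h2 := abs_le_Nk k 2
    rw [← sq_abs (k 0 : ℝ), ← sq_abs (k 1 : ℝ), ← sq_abs (k 2 : ℝ)]
    nlinarith [abs_nonneg (k 0 : ℝ), abs_nonneg (k 1 : ℝ), abs_nonneg (k 2 : ℝ)]
  exact (sq_le_sq₀ (nk_nonneg k) (by positivity)).1 h

/-- The symbol `2 π |k|`. -/
noncomputable def sy (k : K3) : ℝ := 2 * Real.pi * nk k

theorem sy_nonneg (k : K3) : 0 ≤ sy k := by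
  have := nk_nonneg k
  unfold sy
  positivity

theorem sy_neg (k : K3) : sy (-k) = sy k := by rw [sy, nk_neg, sy]

/-- Multiplication of the Fourier coefficients by `2 π |k|`. -/
noncomputable def L (a : K3 → ℂ) (k : K3) : ℂ := (sy k : ℂ) * a k

theorem norm_L (a : K3 → ℂ) (k : K3) : ‖L a k‖ = sy k * ‖a k‖ := by
  rw [L, norm_mul, Complex.norm_real, Real.norm_eq_abs, abs_of_nonneg (sy_nonneg k)]

theorem sy_le (k : K3) : sy k ≤ 4 * Real.pi * N k := by
  have := nk_le k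
  unfold sy
  nlinarith [Real.pi_pos]

theorem Rap.L {a : K3 → ℂ} (h : Rap a) : Rap (L a) := by
  intro n
  refine Summable.of_nonneg_of_le (fun k => by positivity) (fun k => ?_)
    ((h (n + 1)).mul_left (4 * Real.pi))
  rw [norm_L]
  have := sy_le k
  calc (N k : ℝ) ^ n * (sy k * ‖a k‖) ≤ (N k : ℝ) ^ n * ((4 * Real.pi * N k) * ‖a k‖) := by
        gcongr
    _ = _ := by ring

theorem fr_neg (f : V → ℝ) (k : K3) : fr f (-k) = (starRingEnd ℂ) (fr f k) := by
  unfold fr fc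
  rw [← integral_conj]
  congr 1
  funext x
  rw [map_mul, Complex.conj_ofReal, ← ee_neg]

theorem S_conj {a : K3 → ℂ} (ha : ∀ k, a (-k) = (starRingEnd ℂ) (a k)) (x : V) :
    (starRingEnd ℂ) (S a x) = S a x := by
  unfold S
  rw [Complex.conj_tsum, ← (Equiv.neg K3).tsum_eq]
  refine tsum_congr fun k => ?_
  rw [map_mul, ← ee_neg, ← ha]
  simp

/-- `Λ f` is the function with the Fourier coefficients `2 π |k| f̂(k)`. -/
noncomputable def Lam (f : V → ℝ) (x : V) : ℝ :=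
  (∑' k : K3, ((2 * Real.pi * nk k : ℝ) : ℂ) * fr f k * ee k x).re

theorem Lam_eq (f : V → ℝ) (x : V) : Lam f x = (S (L (fr f)) x).re := rfl

theorem L_fr_neg (f : V → ℝ) (k : K3) : L (fr f) (-k) = (starRingEnd ℂ) (L (fr f) k) := by
  unfold L
  rw [map_mul, Complex.conj_ofReal, fr_neg, sy_neg]

theorem Lam_ofReal (f : V → ℝ) (x : V) : (Lam f x : ℂ) = S (L (fr f)) x := by
  rw [Lam_eq]
  exact Complex.conj_eq_iff_re.1 (S_conj (L_fr_neg f) x)

theorem SP.Lam {f : V → ℝ} (hf : SP f) : SP (Lam f) where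
  smooth := by
    have h := Complex.reCLM.contDiff.comp (contDiff_S (Rap.L (rap_fr hf)))
    exact h
  per := fun i x => by rw [Lam_eq, Lam_eq, per_S]

theorem fr_of_S {f : V → ℝ} {a : K3 → ℂ} (ha : Summable a) (h : ∀ x, (f x : ℂ) = S a x) :
    fr f = a := by
  funext k
  unfold fr fc
  simp_rw [h]
  rw [integral_ee_S (-k) ha, neg_neg]

theorem fr_Lam {f : V → ℝ} (hf : SP f) : fr (Lam f) = L (fr f) :=
  fr_of_S (Rap.L (rap_fr hf)).summable (Lam_ofReal f)

theorem ext_fr {f g : V → ℝ} (hf : SP f) (hg : SP g) (h : fr f = fr g) : f = g := by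
  funext x
  have h1 := S_fr hf x
  have h2 := S_fr hg x
  rw [h] at h1
  exact_mod_cast h1.symm.trans h2

theorem D_L (a : K3 → ℂ) (j : Fin 3) : D j (L a) = L (D j a) := by
  funext k
  unfold D L
  ring

theorem pd_Lam {f : V → ℝ} (hf : SP f) (j : Fin 3) : pd j (Lam f) = Lam (pd j f) := by
  refine ext_fr ((SP.Lam hf).pd j) (SP.Lam (hf.pd j)) ?_
  rw [fr_pd (SP.Lam hf), fr_Lam hf, fr_Lam (hf.pd j), fr_pd hf, D_L]

/-- Parseval's identity. -/
theorem hasSum_parseval {f g : V → ℝ} (hf : SP f) (hg : SP g) :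
    HasSum (fun k => (fr f k * (starRingEnd ℂ) (fr g k)).re) (∫ x in cube, f x * g x) := by
  have h := integral_S_mul (rap_fr hf).summable (g := fun x => (g x : ℂ))
    (contDiff_ofReal hg.smooth).continuous
  have e1 : (∫ x in cube, S (fr f) x * (g x : ℂ)) = ((∫ x in cube, f x * g x : ℝ) : ℂ) := by
    rw [← integral_complex_ofReal]
    congr 1
    funext x
    rw [S_fr hf]
    push_cast
    ring
  have e2 : ∀ k, (∫ x in cube, ee k x * (g x : ℂ)) = (starRingEnd ℂ) (fr g k) := by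
    intro k
    rw [← fr_neg]
    unfold fr fc
    rw [neg_neg]
  rw [e1] at h
  simp_rw [e2] at h
  have h2 := Complex.hasSum_re h
  simpa using h2

theorem parseval {f g : V → ℝ} (hf : SP f) (hg : SP g) :
    ∫ x in cube, f x * g x = ∑' k, (fr f k * (starRingEnd ℂ) (fr g k)).re :=
  (hasSum_parseval hf hg).tsum_eq.symm

/-- `Λ` is symmetric. -/
theorem int_Lam_mul {f g : V → ℝ} (hf : SP f) (hg : SP g) :
    ∫ x in cube, Lam f x * g x = ∫ x in cube, f x * Lam g x := by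
  rw [parseval (SP.Lam hf) hg, parseval hf (SP.Lam hg), fr_Lam hf, fr_Lam hg]
  refine tsum_congr fun k => ?_
  unfold L
  rw [map_mul, Complex.conj_ofReal]
  congr 1
  ring

end Pool.Agent.W266.NS
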