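import Pool.Agent.W266.NS.Emb2

/-!
Lebesgue norms of smooth periodic functions in terms of weighted sums of squares of Fourier
coefficients.
-/

open MeasureTheory Set Filter Topology
open scoped ENNReal
open H459R3.NS

namespace Pool.Agent.W266.NS

/-- the measure on the period cell -/
noncomputable abbrev μc : Measure V := volume.restrict cube

theorem memLp_of_cont {f : V → ℝ} (hf : Continuous f) (p : ℝ≥0∞) : MemLp f p μc := by
  have := cube_finite
  obtain ⟨C, hC⟩ := isCompact_Icc.exists_bound_of_continuousOn (s := cube) hf.continuousOn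
  refine MemLp.of_bound hf.aestronglyMeasurable C ?_
  exact (ae_restrict_iff' measurableSet_Icc).2 (Filter.Eventually.of_forall fun x hx => hC x hx)

theorem Xs_zero (a : K3 → ℂ) : Xs 0 a = n2 a ^ 2 := by
  rw [n2_sq, Xs]
  refine tsum_congr fun k => ?_
  rw [Real.rpow_zero, one_mul]

/-- Sobolev embedding in terms of `eLpNorm` -/
theorem eLp_le {r : ℝ} (hr0 : 0 ≤ r) (hr3 : r < 3) : ∃ C : ℝ, 0 ≤ C ∧ ∀ f : V → ℝ, SP f →
    eLpNorm f (ENNReal.ofReal (6 / (3 - r))) μc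
      ≤ ENNReal.ofReal (C * Real.sqrt (Xs r (fr f))) := by
  have h3r : 0 < 3 - r := by linarith
  set p : ℝ := 6 / (3 - r) with hp
  have hp0 : 0 < p := by positivity
  have hpE : ENNReal.ofReal p ≠ 0 := by simpa using hp0
  rcases hr0.eq_or_lt with h0 | h0
  · refine ⟨1, zero_le_one, fun f hf => ?_⟩
    have e : ENNReal.ofReal p = 2 := by
      rw [hp, ← h0]
      norm_num
    rw [e, eLpNorm_two hf.cont, ← h0, Xs_zero, n2_fr hf, one_mul]
    exact le_rfl
  · obtain ⟨C, hC0, hC⟩ := emb h0 hr3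
    refine ⟨C ^ p⁻¹, by positivity, fun f hf => ?_⟩
    rw [(memLp_of_cont hf.cont _).eLpNorm_eq_integral_rpow_norm hpE ENNReal.ofReal_ne_top,
      ENNReal.toReal_ofReal hp0.le]
    apply ENNReal.ofReal_le_ofReal
    have h1 := hC (fr f) (rap_fr hf)
    have e1 : ∀ x, ‖S (fr f) x‖ = ‖f x‖ := by
      intro x
      rw [S_fr hf, Complex.norm_real]
    simp_rw [e1] at h1
    have h2 : 0 ≤ ∫ x in cube, ‖f x‖ ^ p :=
      setIntegral_nonneg measurableSet_Icc fun x _ => by positivity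
    calc (∫ x in cube, ‖f x‖ ^ p) ^ p⁻¹ ≤ (C * Real.sqrt (Xs r (fr f)) ^ p) ^ p⁻¹ :=
          Real.rpow_le_rpow h2 h1 (by positivity)
      _ = C ^ p⁻¹ * Real.sqrt (Xs r (fr f)) := by
          rw [Real.mul_rpow hC0 (by positivity), ← Real.rpow_mul (Real.sqrt_nonneg _),
            mul_inv_cancel₀ hp0.ne', Real.rpow_one]

/-- Hölder's inequality for three functions -/
theorem hol3 {p a b : ℝ≥0∞} (h : p⁻¹ + (a⁻¹ + b⁻¹) = 1) {g f k : V → ℝ}
    (hg : AEStronglyMeasurable g μc) (hf : AEStronglyMeasurable f μc)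
    (hk : AEStronglyMeasurable k μc) :
    ∫⁻ x in cube, ‖g x * (f x * k x)‖ₑ ≤ eLpNorm g p μc * (eLpNorm f a μc * eLpNorm k b μc) := by
  have i1 : ENNReal.HolderTriple a b (a⁻¹ + b⁻¹)⁻¹ := ⟨by rw [inv_inv]⟩
  have i2 : ENNReal.HolderTriple p (a⁻¹ + b⁻¹)⁻¹ 1 := ⟨by rw [inv_inv, h, inv_one]⟩
  have h1 := eLpNorm_smul_le_mul_eLpNorm (p := a) (q := b) (r := (a⁻¹ + b⁻¹)⁻¹) hk hf
  have h2 := eLpNorm_smul_le_mul_eLpNorm (p := p) (q := (a⁻¹ + b⁻¹)⁻¹) (r := 1)
    (hf.mul hk) hg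
  rw [eLpNorm_one_eq_lintegral_enorm] at h2
  refine h2.trans ?_
  gcongr
  exact h1

end Pool.Agent.W266.NS
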