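import Pool.Agent.W266.NS.IntTrip2

/-!
The integral of the triple product is bounded by `ν ‖v‖²_{H^(3/2)}` and a multiple of
`1 + ‖v‖²_{H^(1/2)}`.
-/

open MeasureTheory Set Filter Topology
open scoped ENNReal
open H459R3.NS

namespace Pool.Agent.W266.NS

theorem absorb {C e α q ε : ℝ} (hC : 0 ≤ C) (hα0 : 0 ≤ α) (hα1 : α < 1) (hq : q = 1 / (1 - α))
    (he0 : 0 ≤ e * q) (he1 : e * q ≤ 1) (hε : 0 < ε) : ∃ D : ℝ, 0 ≤ D ∧
    ∀ β A B : ℝ, 0 ≤ β → 0 ≤ A → 0 ≤ B →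
      C * (β * (A ^ e * B ^ α)) ≤ ε * B + D * (β ^ q * (1 + A)) := by
  obtain ⟨D, hD0, hD⟩ := yng hα0 hα1 hε
  refine ⟨D * C ^ q, by positivity, fun β A B hβ hA hB => ?_⟩
  have h1 := hD (C * (β * A ^ e)) B (by positivity) hB
  rw [← hq, Real.mul_rpow hC (by positivity), Real.mul_rpow hβ (by positivity),
    ← Real.rpow_mul hA] at h1
  have h2 := rpow_le_one_add hA he0 he1
  calc C * (β * (A ^ e * B ^ α)) = C * (β * A ^ e) * B ^ α := by ring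
    _ ≤ ε * B + D * (C ^ q * (β ^ q * A ^ (e * q))) := h1
    _ ≤ ε * B + D * (C ^ q * (β ^ q * (1 + A))) := by gcongr
    _ = _ := by ring

theorem main_ineq {p₁ p₂ p₃ : ℝ≥0∞} (h1 : 3 < p₁) (h2 : 3 / 2 < p₂) (h2' : p₂ ≤ 6)
    (h3 : 1 < p₃) (h3' : p₃ ≤ 3 / 2) {q₁ q₂ q₃ : ℝ} (e1 : 3 * (p₁⁻¹).toReal + 2 / q₁ = 1)
    (e2 : 3 * (p₂⁻¹).toReal + 2 / q₂ = 2) (e3 : 3 * (p₃⁻¹).toReal + 2 / q₃ = 4) {ν : ℝ}
    (hν : 0 < ν) : ∃ D : ℝ, 0 ≤ D ∧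
    ∀ (v : V → V) (f g h e : V → ℝ) (β₁ β₂ β₃ β₄ : ℝ), (∀ i, SP (fun y => v y i)) →
      Cls p₁ p₂ p₃ f g h e β₁ β₂ β₃ β₄ → Hyp v f g h e →
      2 * ∫ x in cube, trip v x ≤ ν * Yv 3 v
        + (D * (β₁ ^ q₁ + β₂ ^ q₂ + β₃ ^ q₃) + 2 * β₄) * (1 + Yv 1 v) := by
  obtain ⟨C, hC0, hC⟩ := int_trip_le h1 h2 h2' h3 h3'
  obtain ⟨a1, b1⟩ := x1_range h1
  obtain ⟨a2, b2⟩ := x2_range h2 h2'
  obtain ⟨a3, b3⟩ := x3_range h3 h3'
  set x₁ : ℝ := 3 * (p₁⁻¹).toReal with hx1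
  set x₂ : ℝ := 3 * (p₂⁻¹).toReal with hx2
  set r₃ : ℝ := 6 * (p₃⁻¹).toReal - 3 with hr3
  have hr3a : 1 ≤ r₃ := by linarith
  have hr3b : r₃ < 3 := by linarith
  have hq1 : q₁ = 1 / (1 - (1 + x₁) / 2) := by
    have h : 2 / q₁ = 1 - x₁ := by linarith
    have h0 : q₁ ≠ 0 := by
      rintro rfl
      rw [div_zero] at h
      linarith
    have h' : 1 - (1 + x₁) / 2 = 1 / q₁ := by
      have : 2 / q₁ = 2 * (1 / q₁) := by ring
      linarith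
    rw [h', one_div_one_div]
  have hq2 : q₂ = 1 / (1 - x₂ / 2) := by
    have h : 2 / q₂ = 2 - x₂ := by linarith
    have h' : 1 - x₂ / 2 = 1 / q₂ := by
      have : 2 / q₂ = 2 * (1 / q₂) := by ring
      linarith
    rw [h', one_div_one_div]
  have hq3 : q₃ = 1 / (1 - (r₃ - 1) / 4) := by
    have h : 2 / q₃ = 4 - (r₃ + 3) / 2 := by
      have : 3 * (p₃⁻¹).toReal = (r₃ + 3) / 2 := by rw [hr3]; ring
      linarith
    have h' : 1 - (r₃ - 1) / 4 = 1 / q₃ := by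
      have : 2 / q₃ = 2 * (1 / q₃) := by ring
      linarith
    rw [h', one_div_one_div]
  have g1 : (1 - x₁) / 2 * q₁ = 1 := by
    have h0 : (1 - x₁) / 2 ≠ 0 := by
      have : 0 < (1 - x₁) / 2 := by linarith
      exact this.ne'
    rw [hq1, show 1 - (1 + x₁) / 2 = (1 - x₁) / 2 by ring, mul_one_div_cancel h0]
  have g2 : (2 - x₂) / 2 * q₂ = 1 := by
    have h0 : (2 - x₂) / 2 ≠ 0 := by
      have : 0 < (2 - x₂) / 2 := by linarith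
      exact this.ne'
    rw [hq2, show 1 - x₂ / 2 = (2 - x₂) / 2 by ring, mul_one_div_cancel h0]
  have g3 : (3 - r₃) / 4 * q₃ = (3 - r₃) / (5 - r₃) := by
    rw [hq3]
    have : 1 - (r₃ - 1) / 4 ≠ 0 := by linarith
    have h5 : 5 - r₃ ≠ 0 := by linarith
    rw [show 1 - (r₃ - 1) / 4 = (5 - r₃) / 4 by ring]
    field_simp
  obtain ⟨D1, hD1, H1⟩ := absorb (C := 2 * C) (e := (1 - x₁) / 2) (α := (1 + x₁) / 2) (q := q₁)
    (ε := ν / 3) (by positivity) (by linarith) (by linarith) hq1 (by rw [g1]; norm_num) g1.le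
    (by positivity)
  obtain ⟨D2, hD2, H2⟩ := absorb (C := 2 * C) (e := (2 - x₂) / 2) (α := x₂ / 2) (q := q₂)
    (ε := ν / 3) (by positivity) (by linarith) (by linarith) hq2 (by rw [g2]; norm_num) g2.le
    (by positivity)
  obtain ⟨D3, hD3, H3⟩ := absorb (C := 2 * C) (e := (3 - r₃) / 4) (α := (r₃ - 1) / 4) (q := q₃)
    (ε := ν / 3) (by positivity) (by linarith) (by linarith) hq3
    (by rw [g3]; exact div_nonneg (by linarith) (by linarith))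
    (by rw [g3, div_le_one (by linarith)]; linarith) (by positivity)
  refine ⟨D1 + D2 + D3, by positivity, fun v f g h e β₁ β₂ β₃ β₄ hv hCls hH => ?_⟩
  have n1 := hCls.n1
  have n2 := hCls.n2
  have n3 := hCls.n3
  have n4 := hCls.n4
  have hA := Yv_nonneg 1 v
  have hB := Yv_nonneg 3 v
  have k0 := hC v f g h e β₁ β₂ β₃ β₄ hv hCls hH
  have k1 := H1 β₁ _ _ n1 hA hB
  have k2 := H2 β₂ _ _ n2 hA hB
  have k3 := H3 β₃ _ _ n3 hA hB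
  have y1 : Yv (x₁ + 2) v ≤ Yv 1 v ^ ((1 - x₁) / 2) * Yv 3 v ^ ((1 + x₁) / 2) := by
    have := interp hv (r := x₁ + 2) (by linarith) (by linarith)
    rwa [show (3 - (x₁ + 2)) / 2 = (1 - x₁) / 2 by ring,
      show (x₁ + 2 - 1) / 2 = (1 + x₁) / 2 by ring] at this
  have y2 : Real.sqrt (Yv ((4 * x₂ + 1) / 3) v) * Real.sqrt (Yv ((2 * x₂ - 1) / 3 + 2) v)
      ≤ Yv 1 v ^ ((2 - x₂) / 2) * Yv 3 v ^ (x₂ / 2) := by
    have z1 := sqrt_Yv_le hv (r := (4 * x₂ + 1) / 3) (by linarith) (by linarith)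
    have z2 := sqrt_Yv_le hv (r := (2 * x₂ - 1) / 3 + 2) (by linarith) (by linarith)
    refine (mul_le_mul z1 z2 (Real.sqrt_nonneg _) (by positivity)).trans (le_of_eq ?_)
    rw [show ∀ a b c d : ℝ, a * b * (c * d) = (a * c) * (b * d) by intros; ring,
      ← Real.rpow_add_of_nonneg hA (by linarith) (by linarith),
      ← Real.rpow_add_of_nonneg hB (by linarith) (by linarith)]
    congr 2 <;> ring
  have y3 : Real.sqrt (Yv r₃ v) ≤ Yv 1 v ^ ((3 - r₃) / 4) * Yv 3 v ^ ((r₃ - 1) / 4) :=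
    sqrt_Yv_le hv hr3a hr3b
  have p1 : 0 ≤ β₁ ^ q₁ := by positivity
  have p2 : 0 ≤ β₂ ^ q₂ := by positivity
  have p3 : 0 ≤ β₃ ^ q₃ := by positivity
  have t1 : 2 * (C * (β₁ * Yv (x₁ + 2) v)) ≤ ν / 3 * Yv 3 v + D1 * (β₁ ^ q₁ * (1 + Yv 1 v)) := by
    refine le_trans ?_ k1
    rw [← mul_assoc 2 C]
    gcongr
  have t2 : 2 * (C * (β₂ * (Real.sqrt (Yv ((4 * x₂ + 1) / 3) v)
      * Real.sqrt (Yv ((2 * x₂ - 1) / 3 + 2) v))))
      ≤ ν / 3 * Yv 3 v + D2 * (β₂ ^ q₂ * (1 + Yv 1 v)) := by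
    refine le_trans ?_ k2
    rw [← mul_assoc 2 C]
    gcongr
  have t3 : 2 * (C * (β₃ * Real.sqrt (Yv r₃ v)))
      ≤ ν / 3 * Yv 3 v + D3 * (β₃ ^ q₃ * (1 + Yv 1 v)) := by
    refine le_trans ?_ k3
    rw [← mul_assoc 2 C]
    gcongr
  have s1 : D1 * (β₁ ^ q₁ * (1 + Yv 1 v)) + D2 * (β₂ ^ q₂ * (1 + Yv 1 v))
      + D3 * (β₃ ^ q₃ * (1 + Yv 1 v))
      ≤ (D1 + D2 + D3) * (β₁ ^ q₁ + β₂ ^ q₂ + β₃ ^ q₃) * (1 + Yv 1 v) := by
    set w := 1 + Yv 1 v with hw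
    have hw0 : 0 ≤ w := by positivity
    set b1 := β₁ ^ q₁
    set b2 := β₂ ^ q₂
    set b3 := β₃ ^ q₃
    have c12 : 0 ≤ D1 * (b2 * w) := by positivity
    have c13 : 0 ≤ D1 * (b3 * w) := by positivity
    have c21 : 0 ≤ D2 * (b1 * w) := by positivity
    have c23 : 0 ≤ D2 * (b3 * w) := by positivity
    have c31 : 0 ≤ D3 * (b1 * w) := by positivity
    have c32 : 0 ≤ D3 * (b2 * w) := by positivity
    nlinarith
  calc 2 * ∫ x in cube, trip v x ≤ 2 * (C * (β₁ * Yv (x₁ + 2) v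
        + β₂ * (Real.sqrt (Yv ((4 * x₂ + 1) / 3) v)
          * Real.sqrt (Yv ((2 * x₂ - 1) / 3 + 2) v))
        + β₃ * Real.sqrt (Yv r₃ v)) + β₄) := by gcongr
    _ = 2 * (C * (β₁ * Yv (x₁ + 2) v)) + 2 * (C * (β₂ * (Real.sqrt (Yv ((4 * x₂ + 1) / 3) v)
          * Real.sqrt (Yv ((2 * x₂ - 1) / 3 + 2) v)))) + 2 * (C * (β₃ * Real.sqrt (Yv r₃ v)))
          + 2 * β₄ := by
        ring
    _ ≤ _ := by
        have z4 : 0 ≤ 2 * β₄ * Yv 1 v := by positivity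
        linarith

end Pool.Agent.W266.NS
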