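import Pool.Agent.W266.NS.Rel

/-!
From the bound of the triple product to the boundedness of the solution.
-/

open MeasureTheory Set Filter Topology
open scoped ENNReal
open H459R3.NS

namespace Pool.Agent.W266.NS

theorem gron_one {Z Z' g : ℝ → ℝ} {T B : ℝ} (hZ0 : ∀ s, 0 ≤ Z s) (hc : ContinuousOn Z (Ico 0 T))
    (hd : ∀ s ∈ Ioo 0 T, HasDerivAt Z (Z' s) s)
    (hgi : ∀ t ∈ Ico 0 T, IntegrableOn g (Icc 0 t)) (hgB : ∀ t ∈ Ico 0 T, ∫ s in (0:ℝ)..t, g s ≤ B)
    (hle : ∀ s ∈ Ioo 0 T, Z' s ≤ g s * (1 + Z s)) :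
    ∀ t ∈ Ico 0 T, 1 + Z t ≤ (1 + Z 0) * Real.exp B := by
  intro t ht
  have hpos : ∀ s, 0 < 1 + Z s := fun s => by linarith [hZ0 s]
  have hc' : ContinuousOn (fun s => Real.log (1 + Z s)) (Icc 0 t) :=
    (continuousOn_const.add (hc.mono fun s hs => ⟨hs.1, hs.2.trans_lt ht.2⟩)).log
      fun s _ => (hpos s).ne'
  have hd' : ∀ s ∈ Ioo 0 t, HasDerivWithinAt (fun s => Real.log (1 + Z s))
      (Z' s / (1 + Z s)) (Ioi s) s := by
    intro s hs
    exact (((hd s ⟨hs.1, hs.2.trans ht.2⟩).const_add 1).log (hpos s).ne').hasDerivWithinAt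
  have hle' : ∀ s ∈ Ioo 0 t, Z' s / (1 + Z s) ≤ g s := by
    intro s hs
    rw [div_le_iff₀ (hpos s)]
    exact hle s ⟨hs.1, hs.2.trans ht.2⟩
  have h1 := intervalIntegral.sub_le_integral_of_hasDeriv_right_of_le ht.1 hc' hd' (hgi t ht) hle'
  have h2 : Real.log (1 + Z t) ≤ Real.log (1 + Z 0) + B := by
    have := hgB t ht
    linarith
  calc 1 + Z t = Real.exp (Real.log (1 + Z t)) := (Real.exp_log (hpos t)).symm
    _ ≤ Real.exp (Real.log (1 + Z 0) + B) := Real.exp_le_exp.2 h2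
    _ = (1 + Z 0) * Real.exp B := by rw [Real.exp_add, Real.exp_log (hpos 0)]

theorem gron_two {Z Z' g e : ℝ → ℝ} {T B M : ℝ} (hM : 0 ≤ M) (hZ0 : ∀ s, 0 ≤ Z s)
    (hc : ContinuousOn Z (Ico 0 T)) (hd : ∀ s ∈ Ioo 0 T, HasDerivAt Z (Z' s) s)
    (hgi : ∀ t ∈ Ico 0 T, IntegrableOn g (Icc 0 t)) (hgB : ∀ t ∈ Ico 0 T, ∫ s in (0:ℝ)..t, g s ≤ B)
    (hec : ContinuousOn e (Ico 0 T)) (hle : ∀ s ∈ Ioo 0 T, Z' s ≤ -e s + M * g s) :
    ∀ t ∈ Ico 0 T, ∫ s in (0:ℝ)..t, e s ≤ Z 0 + M * B := by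
  intro t ht
  have hec' : ContinuousOn e (Icc 0 t) := hec.mono fun s hs => ⟨hs.1, hs.2.trans_lt ht.2⟩
  have hZc : ContinuousOn Z (Icc 0 t) := hc.mono fun s hs => ⟨hs.1, hs.2.trans_lt ht.2⟩
  have hei : IntegrableOn e (Icc 0 t) := hec'.integrableOn_Icc
  have i2 : IntervalIntegrable e volume 0 t :=
    (intervalIntegrable_iff_integrableOn_Icc_of_le ht.1).2 hei
  have i1 : IntervalIntegrable g volume 0 t :=
    (intervalIntegrable_iff_integrableOn_Icc_of_le ht.1).2 (hgi t ht)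
  have hg1 : IntegrableOn (fun s => -e s + M * g s) (Icc 0 t) :=
    hei.neg.add ((hgi t ht).const_mul _)
  have h1 := intervalIntegral.sub_le_integral_of_hasDeriv_right_of_le ht.1 hZc
    (fun s hs => (hd s ⟨hs.1, hs.2.trans ht.2⟩).hasDerivWithinAt) hg1
    (fun s hs => hle s ⟨hs.1, hs.2.trans ht.2⟩)
  have j1 : IntervalIntegrable (fun s => -e s) volume 0 t := i2.neg
  have j2 : IntervalIntegrable (fun s => M * g s) volume 0 t := i1.const_mul _
  rw [intervalIntegral.integral_add j1 j2, intervalIntegral.integral_neg,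
    intervalIntegral.integral_const_mul] at h1
  have a1 := mul_le_mul_of_nonneg_left (hgB t ht) hM
  have a4 := hZ0 t
  linarith

theorem integrableOn_of_bdd {f : ℝ → ℝ} {T K : ℝ} (hc : ContinuousOn f (Ico 0 T))
    (h0 : ∀ t, 0 ≤ f t) (hK : ∀ t ∈ Ico 0 T, ∫ s in (0:ℝ)..t, f s ≤ K) :
    IntegrableOn f (Ioo 0 T) := by
  rcases le_or_gt T 0 with hT | hT
  · rw [Ioo_eq_empty (not_lt.2 hT)]
    exact integrableOn_empty
  rw [← integrableOn_Ioc_iff_integrableOn_Ioo]
  have hb : ∀ i : ℕ, T - T / ((i : ℝ) + 1) ∈ Ico 0 T := by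
    intro i
    have hi : (0 : ℝ) < (i : ℝ) + 1 := by positivity
    constructor
    · rw [sub_nonneg, div_le_iff₀ hi]
      nlinarith [(Nat.cast_nonneg i : (0:ℝ) ≤ i)]
    · have : 0 < T / ((i : ℝ) + 1) := by positivity
      linarith
  have hlim : Tendsto (fun i : ℕ => T - T / ((i : ℝ) + 1)) atTop (𝓝 T) := by
    have h1 : Tendsto (fun i : ℕ => T * (1 / ((i : ℝ) + 1))) atTop (𝓝 (T * 0)) :=
      tendsto_one_div_add_atTop_nhds_zero_nat.const_mul T
    have h2 : Tendsto (fun i : ℕ => T - T * (1 / ((i : ℝ) + 1))) atTop (𝓝 (T - T * 0)) :=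
      tendsto_const_nhds.sub h1
    rw [mul_zero, sub_zero] at h2
    refine h2.congr fun i => ?_
    ring
  refine integrableOn_Ioc_of_intervalIntegral_norm_bounded_right (I := K)
    (b := fun i : ℕ => T - T / ((i : ℝ) + 1)) (fun i => ?_) hlim
    (Filter.Eventually.of_forall fun i => ?_)
  · exact ((hc.mono fun s hs => ⟨hs.1, hs.2.trans_lt (hb i).2⟩ :
      ContinuousOn f (Icc 0 _)).integrableOn_Icc).mono_set Ioc_subset_Icc_self
  · have h1 := hK _ (hb i)
    rw [intervalIntegral.integral_of_le (hb i).1] at h1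
    refine le_trans (le_of_eq ?_) h1
    congr 1
    funext x
    rw [Real.norm_eq_abs, abs_of_nonneg (h0 x)]

theorem spv_zero : SPV (fun _ => 0) := ⟨contDiff_const, fun _ _ => rfl⟩

theorem enstrophy_zero' : enstrophy (fun _ => 0) = 0 := by
  unfold enstrophy pd
  simp

theorem palin_zero' : palin (fun _ => 0) = 0 := by
  unfold palin lap pd
  simp

theorem stretch_zero' : stretch (fun _ => 0) = 0 := by
  unfold stretch pd
  simp

theorem fr_zero' (k : K3) : fr (fun _ => (0 : ℝ)) k = 0 := by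
  unfold fr fc
  simp

variable {ν T : ℝ} {u : ℝ → V → V} {P : ℝ → V → ℝ}

theorem bounded_of_half (h : IsSol ν T u P) (hν : 0 < ν) {G : ℝ → ℝ} (hG0 : ∀ t ∈ Ioo 0 T, 0 ≤ G t)
    (hGi : IntegrableOn G (Ioo 0 T))
    (hd : ∀ t ∈ Ioo 0 T, 2 * ∫ x in cube, trip (u t) x
      ≤ ν * Yv 3 (u t) + G t * (1 + Yv 1 (u t))) :
    ∃ M, ∀ t ∈ Ico 0 T, ∀ x i, |u t x i| ≤ M := by
  set Z : ℝ → ℝ := fun s => hh (u s) + energy (u s) with hZ
  set Z' : ℝ → ℝ := fun s => -(2 * ν * h3 (u s)) + 2 * (∫ x in cube, trip (u s) x)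
    + -(2 * ν * enstrophy (u s)) with hZ'
  have hZ0 : ∀ s, 0 ≤ Z s := fun s => add_nonneg (hh_nonneg _) (energy_nonneg _)
  have hZc : ContinuousOn Z (Ico 0 T) := (hh_continuousOn h).add h.energy_continuousOn
  have hZd : ∀ s ∈ Ioo 0 T, HasDerivAt Z (Z' s) s := fun s hs =>
    (hh_hasDerivAt h hs).add (h.energy_hasDerivAt hs)
  set g : ℝ → ℝ := fun s => 2 * ν + G s with hg
  have hg0 : ∀ s ∈ Ioo 0 T, 0 ≤ g s := fun s hs => by
    have := hG0 s hs
    simp only [hg]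
    positivity
  have hG1 : ∀ t ∈ Ico 0 T, IntegrableOn G (Icc 0 t) := by
    intro t ht
    rw [integrableOn_Icc_iff_integrableOn_Ioc, integrableOn_Ioc_iff_integrableOn_Ioo]
    exact hGi.mono_set (Ioo_subset_Ioo_right ht.2.le)
  have hgi : ∀ t ∈ Ico 0 T, IntegrableOn g (Icc 0 t) := fun t ht =>
    (continuousOn_const.integrableOn_Icc).add (hG1 t ht)
  have hGint0 : 0 ≤ ∫ s in Ioo 0 T, G s := setIntegral_nonneg measurableSet_Ioo hG0
  set B₀ : ℝ := 2 * ν * T + ∫ s in Ioo 0 T, G s with hB₀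
  have hgB : ∀ t ∈ Ico 0 T, ∫ s in (0:ℝ)..t, g s ≤ B₀ := by
    intro t ht
    have i1 : IntervalIntegrable (fun _ : ℝ => 2 * ν) volume 0 t := intervalIntegrable_const
    have i2 : IntervalIntegrable G volume 0 t :=
      (intervalIntegrable_iff_integrableOn_Icc_of_le ht.1).2 (hG1 t ht)
    have e1 : ∫ s in (0:ℝ)..t, g s = 2 * ν * t + ∫ s in (0:ℝ)..t, G s := by
      simp only [hg]
      rw [intervalIntegral.integral_add i1 i2, intervalIntegral.integral_const, sub_zero,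
        smul_eq_mul]
      ring
    have e2 : ∫ s in (0:ℝ)..t, G s ≤ ∫ s in Ioo 0 T, G s := by
      rw [intervalIntegral.integral_of_le ht.1, integral_Ioc_eq_integral_Ioo]
      exact setIntegral_mono_set hGi
        ((ae_restrict_iff' measurableSet_Ioo).2 (Filter.Eventually.of_forall hG0))
        (Ioo_subset_Ioo_right ht.2.le).eventuallyLE
    have e3 : 2 * ν * t ≤ 2 * ν * T := by
      have := ht.2.le
      gcongr
    rw [e1]
    linarith
  have hA : ∀ s ∈ Ioo 0 T, Yv 1 (u s) ≤ Z s := fun s hs => by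
    have := Yv1_le (fun i => h.sp ⟨hs.1.le, hs.2⟩ i)
    simp only [hZ]
    linarith
  have hkey : ∀ s ∈ Ioo 0 T, Z' s ≤ -(ν * Yv 3 (u s)) + g s * (1 + Z s) := by
    intro s hs
    have hI : s ∈ Ico 0 T := ⟨hs.1.le, hs.2⟩
    have a1 := hA s hs
    have a2 := Yv3_le (fun i => h.sp hI i)
    have a3 := hd s hs
    have a4 : 0 ≤ ν * enstrophy (u s) := mul_nonneg hν.le (enstrophy_nonneg _)
    have a5 : G s * (1 + Yv 1 (u s)) ≤ G s * (1 + Z s) :=
      mul_le_mul_of_nonneg_left (by linarith) (hG0 s hs)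
    have a6 : ν * Yv 3 (u s) ≤ ν * (energy (u s) + h3 (u s)) := mul_le_mul_of_nonneg_left a2 hν.le
    have a7 : ν * energy (u s) ≤ ν * (1 + Z s) := by
      have : energy (u s) ≤ 1 + Z s := by
        have := hh_nonneg (u s)
        simp only [hZ]
        linarith
      exact mul_le_mul_of_nonneg_left this hν.le
    simp only [hZ', hg]
    nlinarith
  have hZb := gron_one hZ0 hZc hZd hgi hgB fun s hs => by
    have h1 := hkey s hs
    have h2 : 0 ≤ ν * Yv 3 (u s) := mul_nonneg hν.le (Yv_nonneg _ _)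
    linarith
  set M : ℝ := (1 + Z 0) * Real.exp B₀ with hM
  have hM0 : 0 < M := mul_pos (by linarith [hZ0 0]) (Real.exp_pos _)
  set c : ℝ := 256 * Real.pi ^ 4 with hc
  have hc0 : 0 < c := by positivity
  have hens : ∀ s ∈ Ioo 0 T, enstrophy (u s) ^ 2 ≤ c * (M * Yv 3 (u s)) := by
    intro s hs
    have hI : s ∈ Ico 0 T := ⟨hs.1.le, hs.2⟩
    refine (enstrophy_sq_le (fun i => h.sp hI i)).trans ?_
    have a1 := hA s hs
    have a2 := hZb s hI
    have a3 := Yv_nonneg 3 (u s)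
    have a4 : Yv 1 (u s) ≤ M := by linarith
    gcongr
  set e : ℝ → ℝ := fun s => ν / (c * M) * enstrophy (u s) ^ 2 with he
  have hec : ContinuousOn e (Ico 0 T) := continuousOn_const.mul (h.enstrophy_continuousOn.pow 2)
  have hint := gron_two hM0.le hZ0 hZc hZd hgi hgB hec fun s hs => by
    have hI : s ∈ Ico 0 T := ⟨hs.1.le, hs.2⟩
    have h1 := hkey s hs
    have h2 := hens s hs
    have h3 : e s ≤ ν * Yv 3 (u s) := by
      simp only [he]
      rw [div_mul_eq_mul_div, div_le_iff₀ (by positivity)]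
      nlinarith
    have h4 : g s * (1 + Z s) ≤ M * g s := by
      rw [mul_comm]
      exact mul_le_mul_of_nonneg_right (hZb s hI) (hg0 s hs)
    linarith
  -- apply Serrin's criterion with `p = 6`, `q = 4`
  obtain ⟨C6, hC6, H6⟩ := eLp_le (r := 2) (by norm_num) (by norm_num)
  have e6 : ENNReal.ofReal (6 / (3 - 2)) = 6 := by norm_num
  rw [e6] at H6
  set y : ℝ → ℝ := fun s => energy (u s) + enstrophy (u s) with hy
  have hy0 : ∀ s, 0 ≤ y s := fun s => add_nonneg (energy_nonneg _) (enstrophy_nonneg _)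
  have hyc : ContinuousOn y (Ico 0 T) := h.energy_continuousOn.add h.enstrophy_continuousOn
  set β : ℝ → ℝ := fun s => C6 * Real.sqrt (y s) with hβ
  have hβ4 : ∀ s, β s ^ (4 : ℝ) = C6 ^ 4 * y s ^ 2 := by
    intro s
    simp only [hβ]
    rw [show (4 : ℝ) = ((4 : ℕ) : ℝ) by norm_num, Real.rpow_natCast, mul_pow,
      show Real.sqrt (y s) ^ 4 = (Real.sqrt (y s) ^ 2) ^ 2 by ring, Real.sq_sqrt (hy0 s)]
  have hysq : ∀ t ∈ Ico 0 T, ∫ s in (0:ℝ)..t, y s ^ 2
      ≤ 2 * energy (u 0) ^ 2 * T + 2 * (c * M / ν * (Z 0 + M * B₀)) := by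
    intro t ht
    have ct : ∀ {f : ℝ → ℝ}, ContinuousOn f (Ico 0 T) → IntervalIntegrable f volume 0 t :=
      fun hf => (hf.mono fun s hs => ⟨hs.1, hs.2.trans_lt ht.2⟩ :
        ContinuousOn _ (Icc 0 t)).intervalIntegrable_of_Icc ht.1
    have i1 : IntervalIntegrable (fun s => y s ^ 2) volume 0 t := ct (hyc.pow 2)
    have i2 : IntervalIntegrable (fun _ : ℝ => 2 * energy (u 0) ^ 2) volume 0 t :=
      intervalIntegrable_const
    have i3 : IntervalIntegrable (fun s => 2 * (c * M / ν) * e s) volume 0 t :=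
      (ct hec).const_mul _
    have i23 : IntervalIntegrable (fun s => 2 * energy (u 0) ^ 2 + 2 * (c * M / ν) * e s)
      volume 0 t := i2.add i3
    have hmono : ∫ s in (0:ℝ)..t, y s ^ 2
        ≤ ∫ s in (0:ℝ)..t, (2 * energy (u 0) ^ 2 + 2 * (c * M / ν) * e s) := by
      refine intervalIntegral.integral_mono_on ht.1 i1 i23 fun s hs => ?_
      have hI : s ∈ Ico 0 T := ⟨hs.1, hs.2.trans_lt ht.2⟩
      have b1 := h.energy_le hν hI
      have b2 := energy_nonneg (u s)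
      have b3 : energy (u s) ^ 2 ≤ energy (u 0) ^ 2 := pow_le_pow_left₀ b2 b1 2
      have b4 : 2 * (c * M / ν) * e s = 2 * enstrophy (u s) ^ 2 := by
        simp only [he]
        field_simp
      rw [b4]
      simp only [hy]
      nlinarith [sq_nonneg (energy (u s) - enstrophy (u s))]
    refine hmono.trans ?_
    rw [intervalIntegral.integral_add i2 i3, intervalIntegral.integral_const,
      intervalIntegral.integral_const_mul, sub_zero, smul_eq_mul]
    have b5 := hint t ht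
    have b6 : 0 ≤ 2 * (c * M / ν) := by positivity
    have b7 := mul_le_mul_of_nonneg_left b5 b6
    have b8 : t * (2 * energy (u 0) ^ 2) ≤ T * (2 * energy (u 0) ^ 2) := by
      have := ht.2.le
      gcongr
    linarith
  have hyi : IntegrableOn (fun s => y s ^ 2) (Ioo 0 T) :=
    integrableOn_of_bdd (hyc.pow 2) (fun t => sq_nonneg _) hysq
  have hβi : IntegrableOn (fun s => β s ^ (4 : ℝ)) (Ioo 0 T) := by
    simp_rw [hβ4]
    exact hyi.const_mul _
  obtain ⟨C, -, hC⟩ := serrin (p := 6) (by norm_num) (q := 4)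
    (by rw [ENNReal.toReal_inv]; norm_num) hν (K := 0) le_rfl (lam := 0) (κ := 0) le_rfl
    (by norm_num)
  refine (hC T 0 u P β (fun _ => 0) h le_rfl (fun t ht => ⟨?_, le_rfl⟩) hβi
    (integrableOn_zero) fun t ht => ?_).2
  · simp only [hβ]
    positivity
  have hI : t ∈ Ico 0 T := ⟨ht.1.le, ht.2⟩
  refine ⟨fun _ => 0, fun _ => 0, ∅, spv_zero, spv_zero, dimTwo_empty,
    fun i k _ => fr_zero' k, ?_, ?_, ?_, ?_, fun i => ?_⟩
  · rw [enstrophy_zero']; simp
  · rw [palin_zero']; simp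
  · rw [enstrophy_zero']; simp
  · rw [stretch_zero']; simp
  · have e : (fun x => u t x i - (0 : V) i - (0 : V) i) = fun x => u t x i := by
      funext x
      simp
    show eLpNorm (fun x => u t x i - (0 : V) i - (0 : V) i) 6 _ ≤ _
    rw [e]
    refine (H6 _ (h.sp hI i)).trans ?_
    apply ENNReal.ofReal_le_ofReal
    simp only [hβ, hy]
    have h1 := Xs_comp_le (fun i => h.sp hI i) i 2
    have h2 := Yv2_le (fun i => h.sp hI i)
    have h3 := h1.trans h2
    gcongr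

end Pool.Agent.W266.NS
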