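import Pool.Agent.W266.NS.MainIneq

/-!
Energy, enstrophy, `H^(1/2)` and `H^(3/2)` norms in terms of Fourier coefficients.
-/

open MeasureTheory Set Filter Topology
open scoped ENNReal
open H459R3.NS

namespace Pool.Agent.W266.NS

variable {v : V → V} (hv : ∀ i, SP (fun y => v y i))

theorem sy_le_W (k : K3) : sy k ≤ 4 * Real.pi * W k :=
  (sy_le k).trans (mul_le_mul_of_nonneg_left (N_le_W k) (by positivity))

theorem W_le_sy (k : K3) : W k ≤ 1 + sy k := by
  refine (W_le k).trans ?_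
  have h1 := N_le_nk k
  have h2 := nk_nonneg k
  have h3 := Real.pi_gt_three
  unfold sy
  nlinarith

theorem N_le_sy (k : K3) : (N k : ℝ) ≤ sy k := by
  have h1 := N_le_nk k
  have h2 := nk_nonneg k
  have h3 := Real.pi_gt_three
  unfold sy
  nlinarith

theorem W_pow_le_sy (n : ℕ) (k : K3) : W k ^ n ≤ 1 + sy k ^ n := by
  have h0 := sy_nonneg k
  rcases le_total 1 (N k : ℝ) with h | h
  · have e : W k = N k := max_eq_right h
    rw [e]
    have := pow_le_pow_left₀ (by positivity) (N_le_sy k) n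
    linarith
  · have e : W k = 1 := max_eq_left h
    rw [e, one_pow]
    have : 0 ≤ sy k ^ n := by positivity
    linarith

include hv in
theorem summable_sU (n : ℕ) : Summable fun k => sy k ^ n * U v k := by
  refine Summable.of_nonneg_of_le (fun k => mul_nonneg (pow_nonneg (sy_nonneg k) n) (U_nonneg v k))
    (fun k => ?_) ((summable_Yv hv n).mul_left ((4 * Real.pi) ^ n))
  have h1 := sy_le_W k
  have h2 := U_nonneg v k
  have h3 := sy_nonneg k
  rw [Real.rpow_natCast]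
  calc sy k ^ n * U v k ≤ (4 * Real.pi * W k) ^ n * U v k := by gcongr
    _ = _ := by rw [mul_pow]; ring

include hv in
theorem summable_s1 (n : ℕ) (i : Fin 3) :
    Summable fun k => sy k ^ n * ‖fr (fun y => v y i) k‖ ^ 2 := by
  refine Summable.of_nonneg_of_le (fun k => mul_nonneg (pow_nonneg (sy_nonneg k) n) (sq_nonneg _))
    (fun k => ?_) (summable_sU hv n)
  have h1 := norm_comp_le v i k
  have h3 := sy_nonneg k
  gcongr

include hv in
theorem sum_tsum_sU (n : ℕ) :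
    ∑ i, ∑' k, sy k ^ n * ‖fr (fun y => v y i) k‖ ^ 2 = ∑' k, sy k ^ n * U v k := by
  rw [← Summable.tsum_finsetSum fun i _ => summable_s1 hv n i]
  refine tsum_congr fun k => ?_
  rw [U, Finset.mul_sum]

include hv in
theorem energy_eqU : energy v = ∑' k, sy k ^ 0 * U v k := by
  rw [← sum_tsum_sU hv]
  unfold energy
  refine Finset.sum_congr rfl fun i _ => ?_
  rw [← n2_fr (hv i), n2_sq]
  simp

include hv in
theorem hh_eqU : hh v = ∑' k, sy k ^ 1 * U v k := by
  rw [← sum_tsum_sU hv]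
  unfold hh ws
  simp

theorem norm_D_sq (j : Fin 3) (a : K3 → ℂ) (k : K3) :
    ‖D j a k‖ ^ 2 = (2 * Real.pi) ^ 2 * (k j : ℝ) ^ 2 * ‖a k‖ ^ 2 := by
  have hp := Real.pi_pos
  rw [D, norm_mul, norm_mul, norm_mul, norm_mul, Complex.norm_I, mul_one, Complex.norm_real,
    Real.norm_eq_abs, abs_of_pos hp, Complex.norm_ofNat, Complex.norm_intCast]
  rw [mul_pow, mul_pow, mul_pow, sq_abs]

theorem sum_D_sq (a : K3 → ℂ) (k : K3) : ∑ j, ‖D j a k‖ ^ 2 = sy k ^ 2 * ‖a k‖ ^ 2 := by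
  simp_rw [norm_D_sq]
  rw [← Finset.sum_mul, ← Finset.mul_sum, ← nk_sq, sy]
  ring

include hv in
theorem summable_D (n : ℕ) (i j : Fin 3) :
    Summable fun k => sy k ^ n * ‖fr (pd j (fun y => v y i)) k‖ ^ 2 := by
  refine Summable.of_nonneg_of_le (fun k => mul_nonneg (pow_nonneg (sy_nonneg k) n) (sq_nonneg _))
    (fun k => ?_) (summable_s1 hv (n + 2) i)
  have h3 := sy_nonneg k
  rw [fr_pd (hv i)]
  have h1 : ‖D j (fr fun y => v y i) k‖ ^ 2 ≤ sy k ^ 2 * ‖fr (fun y => v y i) k‖ ^ 2 := by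
    rw [← sum_D_sq]
    exact Finset.single_le_sum (f := fun j => ‖D j (fr fun y => v y i) k‖ ^ 2)
      (fun _ _ => sq_nonneg _) (Finset.mem_univ j)
  calc sy k ^ n * ‖D j (fr fun y => v y i) k‖ ^ 2
      ≤ sy k ^ n * (sy k ^ 2 * ‖fr (fun y => v y i) k‖ ^ 2) := by gcongr
    _ = _ := by ring

include hv in
theorem sum_D_tsum (n : ℕ) (i : Fin 3) :
    ∑ j, ∑' k, sy k ^ n * ‖fr (pd j (fun y => v y i)) k‖ ^ 2
      = ∑' k, sy k ^ (n + 2) * ‖fr (fun y => v y i) k‖ ^ 2 := by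
  rw [← Summable.tsum_finsetSum fun j _ => summable_D hv n i j]
  refine tsum_congr fun k => ?_
  simp_rw [fr_pd (hv i)]
  rw [← Finset.mul_sum, sum_D_sq]
  ring

include hv in
theorem enstrophy_eqU : enstrophy v = ∑' k, sy k ^ 2 * U v k := by
  rw [← sum_tsum_sU hv]
  unfold enstrophy
  refine Finset.sum_congr rfl fun i _ => ?_
  have h := sum_D_tsum hv 0 i
  rw [zero_add] at h
  rw [← h]
  refine Finset.sum_congr rfl fun j _ => ?_
  rw [← n2_fr ((hv i).pd j), n2_sq]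
  simp

include hv in
theorem h3_eqU : h3 v = ∑' k, sy k ^ 3 * U v k := by
  rw [← sum_tsum_sU hv]
  unfold h3 ws
  refine Finset.sum_congr rfl fun i _ => ?_
  have h := sum_D_tsum hv 1 i
  simp_rw [pow_one] at h
  exact h

include hv in
theorem Yv_pow_le (n : ℕ) : Yv n v ≤ (∑' k, sy k ^ 0 * U v k) + ∑' k, sy k ^ n * U v k := by
  rw [← (summable_sU hv 0).tsum_add (summable_sU hv n)]
  refine Summable.tsum_le_tsum (fun k => ?_) (summable_Yv hv n)
    ((summable_sU hv 0).add (summable_sU hv n))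
  have h := W_pow_le_sy n k
  have h2 := U_nonneg v k
  rw [Real.rpow_natCast, pow_zero, ← add_mul]
  gcongr

include hv in
theorem Yv1_le : Yv 1 v ≤ energy v + hh v := by
  have h := Yv_pow_le hv 1
  rw [energy_eqU hv, hh_eqU hv]
  exact_mod_cast h

include hv in
theorem Yv2_le : Yv 2 v ≤ energy v + enstrophy v := by
  have h := Yv_pow_le hv 2
  rw [energy_eqU hv, enstrophy_eqU hv]
  exact_mod_cast h

include hv in
theorem Yv3_le : Yv 3 v ≤ energy v + h3 v := by
  have h := Yv_pow_le hv 3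
  rw [energy_eqU hv, h3_eqU hv]
  exact_mod_cast h

include hv in
theorem enstrophy_le_Yv : enstrophy v ≤ 16 * Real.pi ^ 2 * Yv 2 v := by
  rw [enstrophy_eqU hv, Yv, ← tsum_mul_left]
  refine Summable.tsum_le_tsum (fun k => ?_) (summable_sU hv 2) ((summable_Yv hv 2).mul_left _)
  have h1 := sy_le_W k
  have h2 := U_nonneg v k
  have h3 := sy_nonneg k
  rw [show (2 : ℝ) = ((2 : ℕ) : ℝ) by norm_num, Real.rpow_natCast]
  calc sy k ^ 2 * U v k ≤ (4 * Real.pi * W k) ^ 2 * U v k := by gcongr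
    _ = _ := by ring

include hv in
/-- the square of the enstrophy -/
theorem enstrophy_sq_le : enstrophy v ^ 2 ≤ 256 * Real.pi ^ 4 * (Yv 1 v * Yv 3 v) := by
  have h1 := enstrophy_le_Yv hv
  have h2 := interp hv (r := 2) (by norm_num) (by norm_num)
  rw [show (3 - 2 : ℝ) / 2 = 1 / 2 by norm_num, show (2 - 1 : ℝ) / 2 = 1 / 2 by norm_num,
    ← Real.sqrt_eq_rpow, ← Real.sqrt_eq_rpow] at h2
  have hA := Yv_nonneg 1 v
  have hB := Yv_nonneg 3 v
  have h3 : enstrophy v ≤ 16 * Real.pi ^ 2 * (Real.sqrt (Yv 1 v) * Real.sqrt (Yv 3 v)) :=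
    h1.trans (by gcongr)
  calc enstrophy v ^ 2 ≤ (16 * Real.pi ^ 2 * (Real.sqrt (Yv 1 v) * Real.sqrt (Yv 3 v))) ^ 2 :=
        pow_le_pow_left₀ (enstrophy_nonneg v) h3 2
    _ = 256 * Real.pi ^ 4 * (Real.sqrt (Yv 1 v) ^ 2 * Real.sqrt (Yv 3 v) ^ 2) := by ring
    _ = _ := by rw [Real.sq_sqrt hA, Real.sq_sqrt hB]

theorem hh_nonneg (v : V → V) : 0 ≤ hh v :=
  Finset.sum_nonneg fun _ _ => tsum_nonneg fun k => mul_nonneg (sy_nonneg k) (sq_nonneg _)

end Pool.Agent.W266.NS
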