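import Pool.Agent.H459R3.NS.Final

/-!
Smoothness of Fourier series with rapidly decreasing coefficients, and the operator `Λ = (-Δ)^(1/2)`.
-/

open MeasureTheory Set Filter Topology
open scoped ContDiff
open H459R3.NS

namespace Pool.Agent.W266.NS

theorem hasFDerivAt_ee (k : K3) (x : V) : HasFDerivAt (ee k)
    (∑ i, (2 * Real.pi * Complex.I * (k i : ℂ) * ee k x) •
      (Complex.ofRealCLM.comp (ContinuousLinearMap.proj i : V →L[ℝ] ℝ))) x := by
  have h1 : HasFDerivAt (fun y => (ph k y : ℂ))
      (Complex.ofRealCLM.comp (∑ i, (k i : ℝ) • (ContinuousLinearMap.proj i : V →L[ℝ] ℝ))) x :=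
    Complex.ofRealCLM.hasFDerivAt.comp x (hasFDerivAt_ph k x)
  have h2 := (h1.const_mul (2 * Real.pi * Complex.I)).cexp
  have h3 : HasFDerivAt (ee k) _ x := h2
  refine h3.congr_fderiv ?_
  ext v
  simp only [smul_apply, ContinuousLinearMap.comp_apply, sum_apply,
    ContinuousLinearMap.proj_apply, smul_eq_mul, Complex.ofRealCLM_apply]
  push_cast
  rw [Finset.mul_sum, Finset.mul_sum]
  refine Finset.sum_congr rfl fun i _ => ?_
  unfold ee
  ring

/-- derivative of the sum of a Fourier series -/
theorem hasFDerivAt_S {a : K3 → ℂ} (ha : Rap a) (x : V) : HasFDerivAt (S a)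
    (∑ i, (S (D i a) x) • (Complex.ofRealCLM.comp (ContinuousLinearMap.proj i : V →L[ℝ] ℝ))) x := by
  have hs : ∀ i, Summable (fun k => ‖D i a k‖) := fun i => (ha.D i).summable.norm
  set P : Fin 3 → (V →L[ℝ] ℂ) := fun i =>
    Complex.ofRealCLM.comp (ContinuousLinearMap.proj i : V →L[ℝ] ℝ) with hP
  have h := hasFDerivAt_tsum (𝕜 := ℝ) (u := fun k => ∑ i, ‖D i a k‖ * ‖P i‖)
    (f := fun k x => a k * ee k x)
    (f' := fun k x => ∑ i, (D i a k * ee k x) • P i) (x₀ := x)
    (summable_sum fun i _ => (hs i).mul_right _) (fun k y => ?_) (fun k y => ?_)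
    (summable_term ha.summable x) x
  · have e : (∑' k, ∑ i, (D i a k * ee k x) • P i) = ∑ i, (S (D i a) x) • P i := by
      rw [Summable.tsum_finsetSum (fun i _ => ?_)]
      · refine Finset.sum_congr rfl fun i _ => ?_
        exact Summable.tsum_smul_const (summable_term (ha.D i).summable x) _
      · exact (summable_term (ha.D i).summable x).smul_const _
    rw [e] at h
    exact h
  · have h1 := (hasFDerivAt_ee k y).const_mul (a k)
    refine h1.congr_fderiv ?_
    rw [Finset.smul_sum]
    refine Finset.sum_congr rfl fun i _ => ?_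
    rw [smul_smul]
    congr 1
    unfold D
    ring
  · refine (norm_sum_le _ _).trans (Finset.sum_le_sum fun i _ => ?_)
    rw [norm_smul, norm_mul, norm_ee, mul_one]

theorem contDiff_S_nat (n : ℕ) : ∀ {a : K3 → ℂ}, Rap a → ContDiff ℝ n (S a) := by
  induction n with
  | zero =>
    intro a ha
    exact contDiff_zero.2 (S_continuous ha.summable)
  | succ n ih =>
    intro a ha
    have : ContDiff ℝ ((n : WithTop ℕ∞) + 1) (S a) := by
      rw [contDiff_succ_iff_hasFDerivAt]
      refine ⟨_, ?_, fun x => hasFDerivAt_S ha x⟩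
      exact ContDiff.sum fun i _ => (ih (ha.D i)).smul contDiff_const
    exact_mod_cast this

theorem contDiff_S {a : K3 → ℂ} (ha : Rap a) : ContDiff ℝ ∞ (S a) :=
  contDiff_infty.2 fun n => contDiff_S_nat n ha

theorem per_S (a : K3 → ℂ) : Per (S a) := fun i x => by
  unfold S
  exact tsum_congr fun k => by rw [ee_per k i x]

end Pool.Agent.W266.NS
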